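import Pool.Agent.Lib.MP_8622f1_pr.Spec

section
set_option autoImplicit false

open Classical Filter Topology MeasureTheory

/-!
Basic API for MP_8622f1_pr: Edwards-Sokal identity, comparison of FK measures, monotonicity.
-/

namespace MP8622

variable {V : Type}

/-! ### The sets `Hs` -/

theorem mem_Hs {Λ S : Finset V} {ω : Finset (Sym2 V)} :
    S ∈ Hs Λ ω ↔ S ⊆ Λ ∧ ∀ e ∈ ω, Mono S e := by
  simp [Hs]

theorem mono_empty (e : Sym2 V) : Mono (∅ : Finset V) e := by
  intro x _ y _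
  simp

theorem empty_mem_Hs (Λ : Finset V) (ω : Finset (Sym2 V)) : (∅ : Finset V) ∈ Hs Λ ω :=
  mem_Hs.2 ⟨Finset.empty_subset _, fun e _ => mono_empty e⟩

theorem card_Hs_pos (Λ : Finset V) (ω : Finset (Sym2 V)) : 0 < (Hs Λ ω).card :=
  Finset.card_pos.2 ⟨_, empty_mem_Hs Λ ω⟩

theorem Mono.symmDiff {S T : Finset V} {e : Sym2 V} (hS : Mono S e) (hT : Mono T e) :
    Mono (symmDiff S T) e := by
  intro x hx y hy
  have h1 := hS x hx y hy
  have h2 := hT x hx y hy
  rw [Finset.mem_symmDiff, Finset.mem_symmDiff, h1, h2]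

theorem Hs_mono {Λ Λ' : Finset V} {ω : Finset (Sym2 V)} (h : Λ ⊆ Λ') : Hs Λ ω ⊆ Hs Λ' ω := by
  intro S hS
  rw [mem_Hs] at hS ⊢
  exact ⟨hS.1.trans h, hS.2⟩

theorem Hs_anti {Λ : Finset V} {ω ω' : Finset (Sym2 V)} (h : ω ⊆ ω') : Hs Λ ω' ⊆ Hs Λ ω := by
  intro S hS
  rw [mem_Hs] at hS ⊢
  exact ⟨hS.1, fun e he => hS.2 e (h he)⟩

theorem symmDiff_mem_Hs {Λ S T : Finset V} {ω : Finset (Sym2 V)} (hS : S ∈ Hs Λ ω)
    (hT : T ∈ Hs Λ ω) : symmDiff S T ∈ Hs Λ ω := by
  rw [mem_Hs] at hS hT ⊢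
  refine ⟨?_, fun e he => (hS.2 e he).symmDiff (hT.2 e he)⟩
  intro x hx
  rw [Finset.mem_symmDiff] at hx
  rcases hx with hx | hx
  · exact hS.1 hx.1
  · exact hT.1 hx.1

/-! ### The characters `chi` -/

theorem chi_eq_prod (A S : Finset V) : chi A S = ∏ x ∈ A, (if x ∈ S then (-1 : ℝ) else 1) := by
  rw [Finset.prod_ite, Finset.prod_const, Finset.prod_const_one, mul_one, chi,
    Finset.filter_mem_eq_inter]

theorem chi_comm (A S : Finset V) : chi A S = chi S A := by
  rw [chi, chi, Finset.inter_comm]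

theorem chi_symmDiff_right (A S T : Finset V) : chi A (symmDiff S T) = chi A S * chi A T := by
  rw [chi_eq_prod, chi_eq_prod, chi_eq_prod, ← Finset.prod_mul_distrib]
  refine Finset.prod_congr rfl fun x _ => ?_
  by_cases h1 : x ∈ S <;> by_cases h2 : x ∈ T <;> simp [Finset.mem_symmDiff, h1, h2]

theorem chi_symmDiff_left (A B S : Finset V) : chi (symmDiff A B) S = chi A S * chi B S := by
  rw [chi_comm, chi_symmDiff_right, chi_comm S A, chi_comm S B]

theorem chi_eq_one {A S : Finset V} (h : Even (A ∩ S).card) : chi A S = 1 := h.neg_one_pow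

theorem chi_eq_neg_one {A S : Finset V} (h : ¬ Even (A ∩ S).card) : chi A S = -1 :=
  (Nat.not_even_iff_odd.1 h).neg_one_pow

theorem abs_chi (A S : Finset V) : |chi A S| = 1 := by
  by_cases h : Even (A ∩ S).card
  · rw [chi_eq_one h, abs_one]
  · rw [chi_eq_neg_one h, abs_neg, abs_one]

theorem chi_empty_right (A : Finset V) : chi A ∅ = 1 := by simp [chi]

theorem sum_chi_Hs (Λ A : Finset V) (ω : Finset (Sym2 V)) :
    ∑ S ∈ Hs Λ ω, chi A S =
      (if ∀ S ∈ Hs Λ ω, Even (A ∩ S).card then (1 : ℝ) else 0) * ((Hs Λ ω).card : ℝ) := by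
  split_ifs with h
  · rw [one_mul, Finset.sum_congr rfl fun S hS => chi_eq_one (h S hS)]
    simp
  · rw [zero_mul]
    push Not at h
    obtain ⟨S₀, hS₀, h₀⟩ := h
    have key : ∑ S ∈ Hs Λ ω, chi A S = ∑ S ∈ Hs Λ ω, chi A (symmDiff S S₀) := by
      symm
      refine Finset.sum_bij' (fun S _ => symmDiff S S₀) (fun S _ => symmDiff S S₀) ?_ ?_ ?_ ?_ ?_
      · intro S hS; exact symmDiff_mem_Hs hS hS₀
      · intro S hS; exact symmDiff_mem_Hs hS hS₀
      · intro S hS; exact symmDiff_symmDiff_cancel_right _ _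
      · intro S hS; exact symmDiff_symmDiff_cancel_right _ _
      · intro S hS; rfl
    have h2 : ∑ S ∈ Hs Λ ω, chi A (symmDiff S S₀) = - ∑ S ∈ Hs Λ ω, chi A S := by
      rw [← Finset.sum_neg_distrib]
      refine Finset.sum_congr rfl fun S _ => ?_
      rw [chi_symmDiff_right, chi_eq_neg_one h₀]
      ring
    linarith [key.trans h2]

/-! ### Edwards-Sokal -/

/-- Bernoulli weight. -/
noncomputable def bw (P : Sym2 V → ℝ) (E ω : Finset (Sym2 V)) : ℝ :=
  (∏ e ∈ ω, P e) * ∏ e ∈ E \ ω, (1 - P e)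

theorem fw_eq (P : Sym2 V → ℝ) (E ω : Finset (Sym2 V)) (Λ : Finset V) :
    fw P E Λ ω = bw P E ω * ((Hs Λ ω).card : ℝ) := rfl

theorem bw_eq_prod {P : Sym2 V → ℝ} {E ω : Finset (Sym2 V)} (h : ω ⊆ E) :
    bw P E ω = ∏ e ∈ E, (if e ∈ ω then P e else 1 - P e) := by
  rw [Finset.prod_ite, bw]
  congr 1
  · refine Finset.prod_congr ?_ fun _ _ => rfl
    ext e
    simp only [Finset.mem_filter]
    exact ⟨fun he => ⟨h he, he⟩, fun he => he.2⟩
  · refine Finset.prod_congr ?_ fun _ _ => rfl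
    ext e
    simp [Finset.mem_sdiff]

theorem bw_nonneg {P : Sym2 V → ℝ} (h0 : ∀ e, 0 ≤ P e) (h1 : ∀ e, P e ≤ 1)
    (E ω : Finset (Sym2 V)) : 0 ≤ bw P E ω :=
  mul_nonneg (Finset.prod_nonneg fun e _ => h0 e)
    (Finset.prod_nonneg fun e _ => sub_nonneg.2 (h1 e))

theorem fw_nonneg {P : Sym2 V → ℝ} (h0 : ∀ e, 0 ≤ P e) (h1 : ∀ e, P e ≤ 1)
    (E : Finset (Sym2 V)) (Λ : Finset V) (ω : Finset (Sym2 V)) : 0 ≤ fw P E Λ ω :=
  mul_nonneg (bw_nonneg h0 h1 E ω) (Nat.cast_nonneg _)

theorem sum_bw_mono (P : Sym2 V → ℝ) (E : Finset (Sym2 V)) (S : Finset V) :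
    ∑ ω ∈ E.powerset, (if ∀ e ∈ ω, Mono S e then bw P E ω else 0) = sw P E S := by
  have h := Finset.prod_add (fun e => if Mono S e then P e else 0) (fun e => 1 - P e) E
  have h2 : ∏ e ∈ E, ((if Mono S e then P e else 0) + (1 - P e)) = sw P E S := by
    refine Finset.prod_congr rfl fun e _ => ?_
    split_ifs <;> ring
  rw [← h2, h]
  refine Finset.sum_congr rfl fun ω _ => ?_
  rw [Finset.prod_ite_zero]
  split_ifs <;> simp [bw]

theorem es_sum (P : Sym2 V → ℝ) (E : Finset (Sym2 V)) (Λ : Finset V) (g : Finset V → ℝ) :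
    ∑ ω ∈ E.powerset, bw P E ω * ∑ S ∈ Hs Λ ω, g S = ∑ S ∈ Λ.powerset, g S * sw P E S := by
  have h1 : ∀ ω ∈ E.powerset, bw P E ω * ∑ S ∈ Hs Λ ω, g S =
      ∑ S ∈ Λ.powerset, g S * (if ∀ e ∈ ω, Mono S e then bw P E ω else 0) := by
    intro ω _
    rw [Hs, Finset.sum_filter, Finset.mul_sum]
    refine Finset.sum_congr rfl fun S _ => ?_
    split_ifs <;> ring
  rw [Finset.sum_congr rfl h1, Finset.sum_comm]
  refine Finset.sum_congr rfl fun S _ => ?_
  rw [← Finset.mul_sum, sum_bw_mono]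

theorem sum_fw (P : Sym2 V → ℝ) (E : Finset (Sym2 V)) (Λ : Finset V) :
    ∑ ω ∈ E.powerset, fw P E Λ ω = ∑ S ∈ Λ.powerset, sw P E S := by
  have := es_sum P E Λ (fun _ => 1)
  simp only [one_mul] at this
  rw [← this]
  refine Finset.sum_congr rfl fun ω _ => ?_
  rw [fw_eq]
  simp

theorem specES : SpecES := by
  intro V P E Λ A
  rw [← es_sum]
  refine Finset.sum_congr rfl fun ω _ => ?_
  rw [sum_chi_Hs, fw_eq]
  ring

/-! ### Positivity of partition functions -/

theorem sw_nonneg {P : Sym2 V → ℝ} (h1 : ∀ e, P e ≤ 1) (E : Finset (Sym2 V)) (S : Finset V) :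
    0 ≤ sw P E S := by
  refine Finset.prod_nonneg fun e _ => ?_
  split_ifs
  · exact zero_le_one
  · linarith [h1 e]

theorem sw_empty (P : Sym2 V → ℝ) (E : Finset (Sym2 V)) : sw P E ∅ = 1 := by
  refine Finset.prod_eq_one fun e _ => ?_
  rw [if_pos (mono_empty e)]

theorem Z_pos {P : Sym2 V → ℝ} (h1 : ∀ e, P e ≤ 1) (E : Finset (Sym2 V)) (Λ : Finset V) :
    0 < ∑ S ∈ Λ.powerset, sw P E S := by
  have h : sw P E ∅ ≤ ∑ S ∈ Λ.powerset, sw P E S :=
    Finset.single_le_sum (f := fun S => sw P E S) (fun S _ => sw_nonneg h1 E S)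
      (Finset.empty_mem_powerset Λ)
  rw [sw_empty] at h
  linarith

/-! ### Comparison -/

theorem card_Hs_mul_le {Λ Λ' : Finset V} (hΛ : Λ ⊆ Λ') (a b : Finset (Sym2 V)) :
    (Hs Λ' a).card * (Hs Λ b).card ≤ (Hs Λ' (a ∩ b)).card * (Hs Λ (a ∪ b)).card := by
  rw [← Finset.card_product, mul_comm (Hs Λ' (a ∩ b)).card]
  refine Finset.card_le_mul_card_image_of_maps_to (f := fun p => symmDiff p.1 p.2) ?_ _ ?_
  · rintro ⟨S, T⟩ h
    rw [Finset.mem_product] at h
    refine symmDiff_mem_Hs (Hs_anti Finset.inter_subset_left h.1)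
      (Hs_mono hΛ (Hs_anti Finset.inter_subset_right h.2))
  · intro U hU
    by_cases hne : ((Hs Λ' a ×ˢ Hs Λ b).filter (fun p => symmDiff p.1 p.2 = U)).Nonempty
    · obtain ⟨⟨S₀, T₀⟩, h0⟩ := hne
      rw [Finset.mem_filter, Finset.mem_product] at h0
      obtain ⟨⟨hS0, hT0⟩, hU0⟩ := h0
      simp only at hS0 hT0 hU0
      refine Finset.card_le_card_of_injOn (fun p => symmDiff p.2 T₀) ?_ ?_
      · rintro ⟨S, T⟩ h
        rw [Finset.mem_coe, Finset.mem_filter, Finset.mem_product] at h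
        obtain ⟨⟨hS, hT⟩, hU'⟩ := h
        simp only at hS hT hU'
        have hD : symmDiff T T₀ = symmDiff S S₀ := by
          have h3 : symmDiff S T = symmDiff S₀ T₀ := by rw [hU', hU0]
          have h4 : symmDiff T T₀ = symmDiff S (symmDiff (symmDiff S T) T₀) := by
            rw [symmDiff_assoc, symmDiff_symmDiff_cancel_left]
          rw [h4, h3, symmDiff_symmDiff_cancel_right]
        have h5 : symmDiff T T₀ ∈ Hs Λ b := symmDiff_mem_Hs hT hT0
        have h6 : symmDiff S S₀ ∈ Hs Λ' a := symmDiff_mem_Hs hS hS0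
        rw [Finset.mem_coe]
        show symmDiff T T₀ ∈ Hs Λ (a ∪ b)
        rw [mem_Hs] at h5 h6 ⊢
        refine ⟨h5.1, fun e he => ?_⟩
        rcases Finset.mem_union.1 he with he | he
        · rw [hD]; exact h6.2 e he
        · exact h5.2 e he
      · rintro ⟨S, T⟩ h ⟨S', T'⟩ h' heq
        rw [Finset.mem_coe, Finset.mem_filter] at h h'
        simp only at heq
        have hT : T = T' := by
          have := congrArg (fun X => symmDiff X T₀) heq
          simpa only [symmDiff_symmDiff_cancel_right] using this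
        have hU1 : symmDiff S T = U := h.2
        have hU2 : symmDiff S' T' = U := h'.2
        have hS : S = S' := by
          have h7 : symmDiff S T = symmDiff S' T := by rw [hU1, hT, hU2]
          have := congrArg (fun X => symmDiff X T) h7
          simpa only [symmDiff_symmDiff_cancel_right] using this
        rw [hS, hT]
    · rw [Finset.not_nonempty_iff_eq_empty] at hne
      rw [hne]
      simp

theorem bw_mul_le {P P' : Sym2 V → ℝ} (h0 : ∀ e, 0 ≤ P e) (hP : ∀ e, P e ≤ P' e)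
    (h1 : ∀ e, P' e ≤ 1) {E a b : Finset (Sym2 V)} (ha : a ⊆ E) (hb : b ⊆ E) :
    bw P E a * bw P' E b ≤ bw P E (a ∩ b) * bw P' E (a ∪ b) := by
  rw [bw_eq_prod ha, bw_eq_prod hb, bw_eq_prod (Finset.inter_subset_left.trans ha),
    bw_eq_prod (Finset.union_subset ha hb), ← Finset.prod_mul_distrib, ← Finset.prod_mul_distrib]
  refine Finset.prod_le_prod ?_ ?_
  · intro e _
    have := h0 e; have := hP e; have := h1 e
    refine mul_nonneg ?_ ?_ <;> split_ifs <;> linarith
  · intro e _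
    have := h0 e; have := hP e; have := h1 e
    by_cases hea : e ∈ a <;> by_cases heb : e ∈ b <;>
      simp only [hea, heb, Finset.mem_inter, Finset.mem_union, if_true, if_false, and_true,
        and_false, or_true, or_false, and_self, or_self]
    · exact le_rfl
    · nlinarith
    · exact le_rfl
    · exact le_rfl

theorem specHolley : SpecHolley := by
  intro V P P' E Λ Λ' h0 hP h1 hΛ f hf hmono
  have h1' : ∀ e, P e ≤ 1 := fun e => (hP e).trans (h1 e)
  have h0' : ∀ e, 0 ≤ P' e := fun e => (h0 e).trans (hP e)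
  have := Finset.four_functions_theorem (f₁ := fun ω => f ω * fw P E Λ' ω)
    (f₂ := fun ω => fw P' E Λ ω) (f₃ := fun ω => fw P E Λ' ω) (f₄ := fun ω => f ω * fw P' E Λ ω) E
    (fun ω => mul_nonneg (hf ω) (fw_nonneg h0 h1' E Λ' ω))
    (fun ω => fw_nonneg h0' h1 E Λ ω)
    (fun ω => fw_nonneg h0 h1' E Λ' ω)
    (fun ω => mul_nonneg (hf ω) (fw_nonneg h0' h1 E Λ ω)) ?_
    (Finset.Subset.refl E.powerset) (Finset.Subset.refl E.powerset)
  · rwa [Finset.powerset_infs_powerset_self, Finset.powerset_sups_powerset_self] at this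
  · intro a ha b hb
    show f a * fw P E Λ' a * fw P' E Λ b ≤
      fw P E Λ' (a ∩ b) * (f (a ∪ b) * fw P' E Λ (a ∪ b))
    have e1 : f a ≤ f (a ∪ b) := hmono a (a ∪ b) Finset.subset_union_left
      (Finset.union_subset ha hb)
    have e2 := bw_mul_le h0 hP h1 ha hb
    have e3 : ((Hs Λ' a).card : ℝ) * ((Hs Λ b).card : ℝ) ≤
        ((Hs Λ' (a ∩ b)).card : ℝ) * ((Hs Λ (a ∪ b)).card : ℝ) := by
      exact_mod_cast card_Hs_mul_le hΛ a b
    have e4 : fw P E Λ' a * fw P' E Λ b ≤ fw P E Λ' (a ∩ b) * fw P' E Λ (a ∪ b) := by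
      simp only [fw_eq]
      calc bw P E a * ((Hs Λ' a).card : ℝ) * (bw P' E b * ((Hs Λ b).card : ℝ))
          = (bw P E a * bw P' E b) * (((Hs Λ' a).card : ℝ) * ((Hs Λ b).card : ℝ)) := by ring
        _ ≤ (bw P E (a ∩ b) * bw P' E (a ∪ b)) *
            (((Hs Λ' (a ∩ b)).card : ℝ) * ((Hs Λ (a ∪ b)).card : ℝ)) := by
            refine mul_le_mul e2 e3 (by positivity) ?_
            exact mul_nonneg (bw_nonneg h0 h1' _ _) (bw_nonneg h0' h1 _ _)
        _ = _ := by ring
    have e5 : 0 ≤ fw P E Λ' a * fw P' E Λ b :=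
      mul_nonneg (fw_nonneg h0 h1' _ _ _) (fw_nonneg h0' h1 _ _ _)
    calc f a * fw P E Λ' a * fw P' E Λ b = f a * (fw P E Λ' a * fw P' E Λ b) := by ring
      _ ≤ f (a ∪ b) * (fw P E Λ' (a ∩ b) * fw P' E Λ (a ∪ b)) :=
          mul_le_mul e1 e4 e5 ((hf a).trans e1)
      _ = _ := by ring

/-! ### Correlations through the FK representation -/

/-- the indicator of the FK event representing the correlation of `A` -/
noncomputable def ind (Λ A : Finset V) (ω : Finset (Sym2 V)) : ℝ :=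
  if ∀ S ∈ Hs Λ ω, Even (A ∩ S).card then (1 : ℝ) else 0

theorem ind_nonneg (Λ A : Finset V) (ω : Finset (Sym2 V)) : 0 ≤ ind Λ A ω := by
  unfold ind; split_ifs <;> norm_num

theorem ind_le_one (Λ A : Finset V) (ω : Finset (Sym2 V)) : ind Λ A ω ≤ 1 := by
  unfold ind; split_ifs <;> norm_num

theorem ind_mono {Λ Λ' A : Finset V} {ω ω' : Finset (Sym2 V)} (hΛ : Λ ⊆ Λ') (hω : ω ⊆ ω') :
    ind Λ' A ω ≤ ind Λ A ω' := by
  unfold ind
  split_ifs with h1 h2 h2
  · exact le_rfl
  · exact absurd (fun S hS => h1 S (Hs_mono hΛ (Hs_anti hω hS))) h2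
  · exact zero_le_one
  · exact le_rfl

theorem even_iff_chi {A S : Finset V} : Even (A ∩ S).card ↔ chi A S = 1 := by
  constructor
  · exact chi_eq_one
  · intro h
    by_contra h2
    rw [chi_eq_neg_one h2] at h
    norm_num at h

theorem ind_mul_le (Λ A B : Finset V) (ω : Finset (Sym2 V)) :
    ind Λ A ω * ind Λ B ω ≤ ind Λ (symmDiff A B) ω := by
  unfold ind
  split_ifs with h1 h2 h3 h3 h3
  · norm_num
  · exfalso
    apply h3
    intro S hS
    rw [even_iff_chi, chi_symmDiff_left, even_iff_chi.1 (h1 S hS), even_iff_chi.1 (h2 S hS),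
      one_mul]
  all_goals norm_num

theorem corr_eq (P : Sym2 V → ℝ) (E : Finset (Sym2 V)) (Λ A : Finset V) :
    corr P E Λ A = (∑ ω ∈ E.powerset, ind Λ A ω * fw P E Λ ω) / ∑ ω ∈ E.powerset, fw P E Λ ω := by
  rw [corr, sum_fw]
  congr 1
  exact (specES V P E Λ A).symm

theorem Zf_pos {P : Sym2 V → ℝ} (h1 : ∀ e, P e ≤ 1) (E : Finset (Sym2 V)) (Λ : Finset V) :
    0 < ∑ ω ∈ E.powerset, fw P E Λ ω := by
  rw [sum_fw]; exact Z_pos h1 E Λ

/-- Monotonicity of correlations: more interaction and fewer free spins. -/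
theorem corr_mono {P P' : Sym2 V → ℝ} {E : Finset (Sym2 V)} {Λ Λ' : Finset V}
    (h0 : ∀ e, 0 ≤ P e) (hP : ∀ e, P e ≤ P' e) (h1 : ∀ e, P' e ≤ 1) (hΛ : Λ ⊆ Λ')
    (A : Finset V) : corr P E Λ' A ≤ corr P' E Λ A := by
  have h1' : ∀ e, P e ≤ 1 := fun e => (hP e).trans (h1 e)
  rw [corr_eq, corr_eq, div_le_div_iff₀ (Zf_pos h1' E Λ') (Zf_pos h1 E Λ)]
  have h := specHolley V P P' E Λ Λ' h0 hP h1 hΛ (ind Λ A) (ind_nonneg Λ A)
    (fun a b hab _ => ind_mono (Finset.Subset.refl Λ) hab)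
  have h2 : ∑ ω ∈ E.powerset, ind Λ' A ω * fw P E Λ' ω ≤
      ∑ ω ∈ E.powerset, ind Λ A ω * fw P E Λ' ω :=
    Finset.sum_le_sum fun ω _ => mul_le_mul_of_nonneg_right
      (ind_mono hΛ (Finset.Subset.refl ω)) (fw_nonneg h0 h1' E Λ' ω)
  have h3 := mul_le_mul_of_nonneg_right h2 (Zf_pos h1 E Λ).le
  linarith [mul_comm (∑ ω ∈ E.powerset, fw P E Λ' ω) (∑ ω ∈ E.powerset, ind Λ A ω * fw P' E Λ ω)]

/-- Griffiths' second inequality. -/
theorem corr_gks {P : Sym2 V → ℝ} {E : Finset (Sym2 V)} {Λ : Finset V}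
    (h0 : ∀ e, 0 ≤ P e) (h1 : ∀ e, P e ≤ 1) (A B : Finset V) :
    corr P E Λ A * corr P E Λ B ≤ corr P E Λ (symmDiff A B) := by
  have hZ := Zf_pos h1 E Λ
  rw [corr_eq, corr_eq, corr_eq, div_mul_div_comm, div_le_div_iff₀ (mul_pos hZ hZ) hZ]
  have := Finset.four_functions_theorem (f₁ := fun ω => ind Λ A ω * fw P E Λ ω)
    (f₂ := fun ω => ind Λ B ω * fw P E Λ ω) (f₃ := fun ω => fw P E Λ ω)
    (f₄ := fun ω => ind Λ (symmDiff A B) ω * fw P E Λ ω) E
    (fun ω => mul_nonneg (ind_nonneg _ _ _) (fw_nonneg h0 h1 E Λ ω))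
    (fun ω => mul_nonneg (ind_nonneg _ _ _) (fw_nonneg h0 h1 E Λ ω))
    (fun ω => fw_nonneg h0 h1 E Λ ω)
    (fun ω => mul_nonneg (ind_nonneg _ _ _) (fw_nonneg h0 h1 E Λ ω)) ?_
    (Finset.Subset.refl E.powerset) (Finset.Subset.refl E.powerset)
  · rw [Finset.powerset_infs_powerset_self, Finset.powerset_sups_powerset_self] at this
    have h3 := mul_le_mul_of_nonneg_right this hZ.le
    calc _ ≤ _ := h3
      _ = _ := by ring
  · intro a ha b hb
    have e1 : ind Λ A a * ind Λ B b ≤ ind Λ (symmDiff A B) (a ∪ b) := by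
      refine le_trans ?_ (ind_mul_le Λ A B (a ∪ b))
      exact mul_le_mul (ind_mono (Finset.Subset.refl Λ) Finset.subset_union_left)
        (ind_mono (Finset.Subset.refl Λ) Finset.subset_union_right) (ind_nonneg _ _ _)
        (ind_nonneg _ _ _)
    have e2 := bw_mul_le h0 (fun e => le_refl (P e)) h1 ha hb
    have e3 : ((Hs Λ a).card : ℝ) * ((Hs Λ b).card : ℝ) ≤
        ((Hs Λ (a ∩ b)).card : ℝ) * ((Hs Λ (a ∪ b)).card : ℝ) := by
      exact_mod_cast card_Hs_mul_le (Finset.Subset.refl Λ) a b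
    have e4 : fw P E Λ a * fw P E Λ b ≤ fw P E Λ (a ∩ b) * fw P E Λ (a ∪ b) := by
      simp only [fw_eq]
      calc bw P E a * ((Hs Λ a).card : ℝ) * (bw P E b * ((Hs Λ b).card : ℝ))
          = (bw P E a * bw P E b) * (((Hs Λ a).card : ℝ) * ((Hs Λ b).card : ℝ)) := by ring
        _ ≤ (bw P E (a ∩ b) * bw P E (a ∪ b)) *
            (((Hs Λ (a ∩ b)).card : ℝ) * ((Hs Λ (a ∪ b)).card : ℝ)) := by
            refine mul_le_mul e2 e3 (by positivity) ?_
            exact mul_nonneg (bw_nonneg h0 h1 _ _) (bw_nonneg h0 h1 _ _)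
        _ = _ := by ring
    calc ind Λ A a * fw P E Λ a * (ind Λ B b * fw P E Λ b)
        = (ind Λ A a * ind Λ B b) * (fw P E Λ a * fw P E Λ b) := by ring
      _ ≤ ind Λ (symmDiff A B) (a ∪ b) * (fw P E Λ (a ∩ b) * fw P E Λ (a ∪ b)) :=
          mul_le_mul e1 e4 (mul_nonneg (fw_nonneg h0 h1 _ _ _) (fw_nonneg h0 h1 _ _ _))
            (ind_nonneg _ _ _)
      _ = _ := by ring

theorem corr_nonneg {P : Sym2 V → ℝ} {E : Finset (Sym2 V)} {Λ : Finset V}
    (h0 : ∀ e, 0 ≤ P e) (h1 : ∀ e, P e ≤ 1) (A : Finset V) : 0 ≤ corr P E Λ A := by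
  rw [corr_eq]
  exact div_nonneg (Finset.sum_nonneg fun ω _ => mul_nonneg (ind_nonneg _ _ _)
    (fw_nonneg h0 h1 _ _ _)) (Zf_pos h1 E Λ).le

theorem corr_le_one {P : Sym2 V → ℝ} {E : Finset (Sym2 V)} {Λ : Finset V}
    (h1 : ∀ e, P e ≤ 1) (A : Finset V) : corr P E Λ A ≤ 1 := by
  rw [corr, div_le_one (Z_pos h1 E Λ)]
  refine Finset.sum_le_sum fun S _ => ?_
  have h2 : chi A S ≤ 1 := (le_abs_self _).trans (abs_chi A S).le
  calc chi A S * sw P E S ≤ 1 * sw P E S := mul_le_mul_of_nonneg_right h2 (sw_nonneg h1 E S)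
    _ = _ := one_mul _

theorem corr_empty {P : Sym2 V → ℝ} {E : Finset (Sym2 V)} {Λ : Finset V}
    (h1 : ∀ e, P e ≤ 1) : corr P E Λ ∅ = 1 := by
  rw [corr]
  have : ∀ S ∈ Λ.powerset, chi ∅ S * sw P E S = sw P E S := by
    intro S _
    simp [chi]
  rw [Finset.sum_congr rfl this, div_self (Z_pos h1 E Λ).ne']

/-! ### Changing the edge set, factorisation -/

theorem mono_of_disjoint {S : Finset V} {e : Sym2 V} (h : ∀ x ∈ e, x ∉ S) : Mono S e := by
  intro x hx y hy
  exact iff_of_false (h x hx) (h y hy)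

theorem sw_congr {P P' : Sym2 V → ℝ} {E E' : Finset (Sym2 V)} {S : Finset V} (hE : E ⊆ E')
    (hP : ∀ e ∈ E, P e = P' e) (h : ∀ e ∈ E', e ∉ E → Mono S e ∨ P' e = 0) :
    sw P E S = sw P' E' S := by
  unfold sw
  rw [← Finset.prod_subset hE]
  · refine Finset.prod_congr rfl fun e he => ?_
    rw [hP e he]
  · intro e he hne
    rcases h e he hne with h1 | h1
    · rw [if_pos h1]
    · rw [h1]; simp

theorem corr_congr {P P' : Sym2 V → ℝ} {E E' : Finset (Sym2 V)} {Λ : Finset V} (hE : E ⊆ E')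
    (hP : ∀ e ∈ E, P e = P' e) (h : ∀ e ∈ E', e ∉ E → (∀ x ∈ e, x ∉ Λ) ∨ P' e = 0)
    (A : Finset V) : corr P E Λ A = corr P' E' Λ A := by
  have key : ∀ S ∈ Λ.powerset, sw P E S = sw P' E' S := by
    intro S hS
    rw [Finset.mem_powerset] at hS
    refine sw_congr hE hP fun e he hne => ?_
    rcases h e he hne with h1 | h1
    · exact Or.inl (mono_of_disjoint fun x hx hxS => h1 x hx (hS hxS))
    · exact Or.inr h1
  unfold corr
  rw [Finset.sum_congr rfl key, Finset.sum_congr rfl fun S hS => by rw [key S hS]]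

theorem sum_powerset_union {Λ₁ Λ₂ : Finset V} (hd : Disjoint Λ₁ Λ₂) (F : Finset V → ℝ) :
    ∑ S ∈ (Λ₁ ∪ Λ₂).powerset, F S =
      ∑ S₁ ∈ Λ₁.powerset, ∑ S₂ ∈ Λ₂.powerset, F (S₁ ∪ S₂) := by
  rw [← Finset.sum_product']
  symm
  refine Finset.sum_bij' (fun p _ => p.1 ∪ p.2) (fun S _ => (S ∩ Λ₁, S ∩ Λ₂)) ?_ ?_ ?_ ?_ ?_
  · intro p hp
    rw [Finset.mem_product, Finset.mem_powerset, Finset.mem_powerset] at hp
    rw [Finset.mem_powerset]
    exact Finset.union_subset_union hp.1 hp.2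
  · intro S hS
    rw [Finset.mem_product, Finset.mem_powerset, Finset.mem_powerset]
    exact ⟨Finset.inter_subset_right, Finset.inter_subset_right⟩
  · rintro ⟨S₁, S₂⟩ hp
    rw [Finset.mem_product, Finset.mem_powerset, Finset.mem_powerset] at hp
    obtain ⟨h1, h2⟩ := hp
    simp only at h1 h2
    rw [Finset.disjoint_left] at hd
    ext x
    · simp only [Finset.mem_inter, Finset.mem_union]
      exact ⟨fun h => h.1.elim id fun h3 => absurd (h2 h3) (hd h.2), fun h => ⟨Or.inl h, h1 h⟩⟩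
    · simp only [Finset.mem_inter, Finset.mem_union]
      exact ⟨fun h => h.1.elim (fun h3 => absurd h.2 (hd (h1 h3))) id, fun h => ⟨Or.inr h, h2 h⟩⟩
  · intro S hS
    rw [Finset.mem_powerset] at hS
    show S ∩ Λ₁ ∪ S ∩ Λ₂ = S
    rw [← Finset.inter_union_distrib_left, Finset.inter_eq_left.2 hS]
  · intro p _
    rfl

theorem corr_union {P : Sym2 V → ℝ} {E₁ E₂ : Finset (Sym2 V)}
    {Λ₁ Λ₂ A₁ A₂ : Finset V} (hΛ : Disjoint Λ₁ Λ₂) (hE : Disjoint E₁ E₂)
    (hE₁ : ∀ e ∈ E₁, ∀ x ∈ e, x ∉ Λ₂) (hE₂ : ∀ e ∈ E₂, ∀ x ∈ e, x ∉ Λ₁)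
    (hA₁ : A₁ ⊆ Λ₁) (hA₂ : A₂ ⊆ Λ₂) :
    corr P (E₁ ∪ E₂) (Λ₁ ∪ Λ₂) (A₁ ∪ A₂) = corr P E₁ Λ₁ A₁ * corr P E₂ Λ₂ A₂ := by
  have hd := Finset.disjoint_left.1 hΛ
  have hsw : ∀ S₁ ∈ Λ₁.powerset, ∀ S₂ ∈ Λ₂.powerset,
      sw P (E₁ ∪ E₂) (S₁ ∪ S₂) = sw P E₁ S₁ * sw P E₂ S₂ := by
    intro S₁ hS₁ S₂ hS₂
    rw [Finset.mem_powerset] at hS₁ hS₂
    unfold sw
    rw [Finset.prod_union hE]
    congr 1
    · refine Finset.prod_congr rfl fun e he => ?_
      have : Mono (S₁ ∪ S₂) e ↔ Mono S₁ e := by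
        have h3 : ∀ x ∈ e, (x ∈ S₁ ∪ S₂ ↔ x ∈ S₁) := fun x hx => by
          rw [Finset.mem_union]
          exact ⟨fun h => h.elim id fun h4 => absurd (hS₂ h4) (hE₁ e he x hx), Or.inl⟩
        constructor
        · intro h x hx y hy
          rw [← h3 x hx, ← h3 y hy]; exact h x hx y hy
        · intro h x hx y hy
          rw [h3 x hx, h3 y hy]; exact h x hx y hy
      simp only [this]
    · refine Finset.prod_congr rfl fun e he => ?_
      have : Mono (S₁ ∪ S₂) e ↔ Mono S₂ e := by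
        have h3 : ∀ x ∈ e, (x ∈ S₁ ∪ S₂ ↔ x ∈ S₂) := fun x hx => by
          rw [Finset.mem_union]
          exact ⟨fun h => h.elim (fun h4 => absurd (hS₁ h4) (hE₂ e he x hx)) id, Or.inr⟩
        constructor
        · intro h x hx y hy
          rw [← h3 x hx, ← h3 y hy]; exact h x hx y hy
        · intro h x hx y hy
          rw [h3 x hx, h3 y hy]; exact h x hx y hy
      simp only [this]
  have hchi : ∀ S₁ ∈ Λ₁.powerset, ∀ S₂ ∈ Λ₂.powerset,
      chi (A₁ ∪ A₂) (S₁ ∪ S₂) = chi A₁ S₁ * chi A₂ S₂ := by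
    intro S₁ hS₁ S₂ hS₂
    rw [Finset.mem_powerset] at hS₁ hS₂
    have hA : Disjoint A₁ A₂ :=
      Finset.disjoint_left.2 fun x h3 h4 => hd (hA₁ h3) (hA₂ h4)
    rw [chi_eq_prod, chi_eq_prod, chi_eq_prod, Finset.prod_union hA]
    congr 1
    · refine Finset.prod_congr rfl fun x hx => ?_
      have : x ∈ S₁ ∪ S₂ ↔ x ∈ S₁ := by
        rw [Finset.mem_union]
        exact ⟨fun h => h.elim id fun h4 => absurd (hS₂ h4) (hd (hA₁ hx)), Or.inl⟩
      simp only [this]
    · refine Finset.prod_congr rfl fun x hx => ?_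
      have : x ∈ S₁ ∪ S₂ ↔ x ∈ S₂ := by
        rw [Finset.mem_union]
        exact ⟨fun h => h.elim (fun h4 => absurd (hA₂ hx) (hd (hS₁ h4))) id, Or.inr⟩
      simp only [this]
  have hnum : ∑ S ∈ (Λ₁ ∪ Λ₂).powerset, chi (A₁ ∪ A₂) S * sw P (E₁ ∪ E₂) S =
      (∑ S ∈ Λ₁.powerset, chi A₁ S * sw P E₁ S) * ∑ S ∈ Λ₂.powerset, chi A₂ S * sw P E₂ S := by
    rw [sum_powerset_union hΛ, Finset.sum_mul_sum]
    refine Finset.sum_congr rfl fun S₁ hS₁ => Finset.sum_congr rfl fun S₂ hS₂ => ?_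
    rw [hsw S₁ hS₁ S₂ hS₂, hchi S₁ hS₁ S₂ hS₂]
    ring
  have hden : ∑ S ∈ (Λ₁ ∪ Λ₂).powerset, sw P (E₁ ∪ E₂) S =
      (∑ S ∈ Λ₁.powerset, sw P E₁ S) * ∑ S ∈ Λ₂.powerset, sw P E₂ S := by
    rw [sum_powerset_union hΛ, Finset.sum_mul_sum]
    refine Finset.sum_congr rfl fun S₁ hS₁ => Finset.sum_congr rfl fun S₂ hS₂ => ?_
    rw [hsw S₁ hS₁ S₂ hS₂]
  unfold corr
  rw [hnum, hden, div_mul_div_comm]

/-- extra free spins do not change a correlation -/
theorem corr_extend {P : Sym2 V → ℝ} (h1 : ∀ e, P e ≤ 1) {E : Finset (Sym2 V)}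
    {Λ Λ' A : Finset V} (hΛ : Λ ⊆ Λ') (hE : ∀ e ∈ E, ∀ x ∈ e, x ∈ Λ) (hA : A ⊆ Λ) :
    corr P E Λ' A = corr P E Λ A := by
  have h := corr_union (P := P) (E₁ := E) (E₂ := ∅) (Λ₁ := Λ) (Λ₂ := Λ' \ Λ) (A₁ := A)
    (A₂ := ∅) Finset.disjoint_sdiff (Finset.disjoint_empty_right _)
    (fun e he x hx hx2 => (Finset.mem_sdiff.1 hx2).2 (hE e he x hx)) (by simp) hA
    (Finset.empty_subset _)
  rwa [Finset.union_empty, Finset.union_empty, Finset.union_sdiff_of_subset hΛ,
    corr_empty h1, mul_one] at h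

/-! ### Edges of a graph -/

section Graph

variable (G : SimpleGraph V) [G.LocallyFinite]

theorem mem_ed {Λ : Finset V} {e : Sym2 V} :
    e ∈ ed G Λ ↔ ∃ x ∈ Λ, ∃ y, G.Adj x y ∧ s(x, y) = e := by
  simp [ed]

theorem mem_ed' {Λ : Finset V} {e : Sym2 V} :
    e ∈ ed G Λ ↔ e ∈ G.edgeSet ∧ ∃ x ∈ e, x ∈ Λ := by
  rw [mem_ed]
  constructor
  · rintro ⟨x, hx, y, hxy, rfl⟩
    exact ⟨(SimpleGraph.mem_edgeSet _).2 hxy, x, Sym2.mem_mk_left x y, hx⟩
  · rintro ⟨he, x, hxe, hx⟩
    obtain ⟨y, rfl⟩ := Sym2.mem_iff_exists.1 hxe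
    exact ⟨x, hx, y, (SimpleGraph.mem_edgeSet _).1 he, rfl⟩

theorem mem_ed_mk {Λ : Finset V} {x y : V} :
    s(x, y) ∈ ed G Λ ↔ G.Adj x y ∧ (x ∈ Λ ∨ y ∈ Λ) := by
  rw [mem_ed', SimpleGraph.mem_edgeSet]
  simp

theorem mem_ed0 {Λ : Finset V} {e : Sym2 V} :
    e ∈ ed0 G Λ ↔ e ∈ ed G Λ ∧ ∀ x ∈ e, x ∈ Λ := by
  simp [ed0]

theorem mem_ed0_mk {Λ : Finset V} {x y : V} :
    s(x, y) ∈ ed0 G Λ ↔ G.Adj x y ∧ x ∈ Λ ∧ y ∈ Λ := by
  rw [mem_ed0, mem_ed_mk]
  simp
  tauto

theorem ed0_subset_ed (Λ : Finset V) : ed0 G Λ ⊆ ed G Λ := Finset.filter_subset _ _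

theorem ed_mono {Λ Λ' : Finset V} (h : Λ ⊆ Λ') : ed G Λ ⊆ ed G Λ' := by
  intro e he
  rw [mem_ed'] at he ⊢
  obtain ⟨h1, x, h2, h3⟩ := he
  exact ⟨h1, x, h2, h h3⟩

theorem ed0_mono {Λ Λ' : Finset V} (h : Λ ⊆ Λ') : ed0 G Λ ⊆ ed0 G Λ' := by
  intro e he
  rw [mem_ed0] at he ⊢
  exact ⟨ed_mono G h he.1, fun x hx => h (he.2 x hx)⟩

theorem not_mem_of_not_mem_ed {Λ Λ' : Finset V} {e : Sym2 V} (he : e ∈ ed G Λ')
    (hne : e ∉ ed G Λ) : ∀ x ∈ e, x ∉ Λ := by
  intro x hx hxΛ
  exact hne ((mem_ed' G).2 ⟨((mem_ed' G).1 he).1, x, hx, hxΛ⟩)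

theorem pr_nonneg {β : ℝ} (hβ : 0 ≤ β) : 0 ≤ pr β := by
  unfold pr
  have : Real.exp (-2 * β) ≤ 1 := Real.exp_le_one_iff.2 (by linarith)
  linarith

theorem pr_le_one (β : ℝ) : pr β ≤ 1 := by
  unfold pr
  linarith [Real.exp_pos (-2 * β)]

/-- `Tp` computed with a larger edge set -/
theorem Tp_eq {β : ℝ} {Λ Λ' : Finset V} (h : Λ ⊆ Λ') (A : Finset V) :
    Tp G β Λ A = corr (fun _ => pr β) (ed G Λ') Λ A :=
  corr_congr (ed_mono G h) (fun _ _ => rfl)
    (fun e he hne => Or.inl (not_mem_of_not_mem_ed G he hne)) A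

/-- interaction of the free boundary condition in `Λ` -/
noncomputable def Pf (β : ℝ) (Λ : Finset V) (e : Sym2 V) : ℝ := if e ∈ ed0 G Λ then pr β else 0

theorem Pf_nonneg {β : ℝ} (hβ : 0 ≤ β) (Λ : Finset V) (e : Sym2 V) : 0 ≤ Pf G β Λ e := by
  unfold Pf
  split_ifs
  · exact pr_nonneg hβ
  · exact le_rfl

theorem Pf_le {β : ℝ} (hβ : 0 ≤ β) (Λ : Finset V) (e : Sym2 V) : Pf G β Λ e ≤ pr β := by
  unfold Pf
  split_ifs
  · exact le_rfl
  · exact pr_nonneg hβ

theorem Pf_mono {β : ℝ} (hβ : 0 ≤ β) {Λ Λ' : Finset V} (h : Λ ⊆ Λ') (e : Sym2 V) :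
    Pf G β Λ e ≤ Pf G β Λ' e := by
  by_cases h1 : e ∈ ed0 G Λ
  · rw [Pf, Pf, if_pos h1, if_pos (ed0_mono G h h1)]
  · rw [Pf, if_neg h1]
    exact Pf_nonneg G hβ Λ' e

/-- `Tf` computed with a larger edge set and larger set of spins -/
theorem Tf_eq {β : ℝ} {Λ Λ' : Finset V} {E : Finset (Sym2 V)} (h : Λ ⊆ Λ') (hE : ed0 G Λ ⊆ E)
    {A : Finset V} (hA : A ⊆ Λ) : Tf G β Λ A = corr (Pf G β Λ) E Λ' A := by
  unfold Tf
  rw [← corr_extend (fun _ => pr_le_one β) h (fun e he => ((mem_ed0 G).1 he).2) hA]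
  refine corr_congr hE (fun e he => ?_) (fun e _ hne => Or.inr ?_) A
  · rw [Pf, if_pos he]
  · rw [Pf, if_neg hne]

theorem Tp_anti {β : ℝ} (hβ : 0 ≤ β) {Λ Λ' : Finset V} (h : Λ ⊆ Λ') (A : Finset V) :
    Tp G β Λ' A ≤ Tp G β Λ A := by
  rw [Tp_eq G h A]
  exact corr_mono (fun _ => pr_nonneg hβ) (fun _ => le_rfl) (fun _ => pr_le_one β) h A

theorem Tf_mono {β : ℝ} (hβ : 0 ≤ β) {Λ Λ' A : Finset V} (hA : A ⊆ Λ) (h : Λ ⊆ Λ') :
    Tf G β Λ A ≤ Tf G β Λ' A := by
  rw [Tf_eq G h (ed0_mono G h) hA, Tf_eq G (Finset.Subset.refl Λ')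
    (Finset.Subset.refl (ed0 G Λ')) (hA.trans h)]
  exact corr_mono (Pf_nonneg G hβ Λ) (Pf_mono G hβ h)
    (fun e => (Pf_le G hβ Λ' e).trans (pr_le_one β)) (Finset.Subset.refl Λ') A

theorem Tf_le_Tp {β : ℝ} (hβ : 0 ≤ β) {Λ A : Finset V} (hA : A ⊆ Λ) (Λ' : Finset V) :
    Tf G β Λ A ≤ Tp G β Λ' A := by
  have hE : ed0 G Λ ⊆ ed G (Λ ∪ Λ') :=
    (ed0_subset_ed G Λ).trans (ed_mono G Finset.subset_union_left)
  rw [Tf_eq G (Finset.subset_union_left (s₂ := Λ')) hE hA,
    Tp_eq G (Finset.subset_union_right (s₁ := Λ)) A]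
  exact corr_mono (Pf_nonneg G hβ Λ) (Pf_le G hβ Λ) (fun _ => pr_le_one β)
    Finset.subset_union_right A

theorem Tp_nonneg {β : ℝ} (hβ : 0 ≤ β) (Λ A : Finset V) : 0 ≤ Tp G β Λ A :=
  corr_nonneg (fun _ => pr_nonneg hβ) (fun _ => pr_le_one β) A

theorem Tp_le_one (β : ℝ) (Λ A : Finset V) : Tp G β Λ A ≤ 1 :=
  corr_le_one (fun _ => pr_le_one β) A

theorem Tf_nonneg {β : ℝ} (hβ : 0 ≤ β) (Λ A : Finset V) : 0 ≤ Tf G β Λ A :=
  corr_nonneg (fun _ => pr_nonneg hβ) (fun _ => pr_le_one β) A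

theorem Tf_le_one (β : ℝ) (Λ A : Finset V) : Tf G β Λ A ≤ 1 :=
  corr_le_one (fun _ => pr_le_one β) A

theorem Tp_gks {β : ℝ} (hβ : 0 ≤ β) (Λ A B : Finset V) :
    Tp G β Λ A * Tp G β Λ B ≤ Tp G β Λ (symmDiff A B) :=
  corr_gks (fun _ => pr_nonneg hβ) (fun _ => pr_le_one β) A B

/-- Factorisation of `Tp` for disjoint, non adjacent regions. -/
theorem Tp_union {β : ℝ} {Λ₁ Λ₂ A₁ A₂ : Finset V} (hd : Disjoint Λ₁ Λ₂)
    (hadj : ∀ x ∈ Λ₁, ∀ y ∈ Λ₂, ¬ G.Adj x y) (hA₁ : A₁ ⊆ Λ₁) (hA₂ : A₂ ⊆ Λ₂) :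
    Tp G β (Λ₁ ∪ Λ₂) (A₁ ∪ A₂) = Tp G β Λ₁ A₁ * Tp G β Λ₂ A₂ := by
  have hd' := Finset.disjoint_left.1 hd
  have h1 : ∀ e ∈ ed G Λ₁, ∀ x ∈ e, x ∉ Λ₂ := by
    intro e he x hx hx2
    obtain ⟨a, ha, b, hab, rfl⟩ := (mem_ed G).1 he
    rcases Sym2.mem_iff.1 hx with rfl | rfl
    · exact hd' ha hx2
    · exact hadj a ha x hx2 hab
  have h2 : ∀ e ∈ ed G Λ₂, ∀ x ∈ e, x ∉ Λ₁ := by
    intro e he x hx hx1
    obtain ⟨a, ha, b, hab, rfl⟩ := (mem_ed G).1 he
    rcases Sym2.mem_iff.1 hx with rfl | rfl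
    · exact hd' hx1 ha
    · exact hadj x hx1 a ha hab.symm
  have h3 : Disjoint (ed G Λ₁) (ed G Λ₂) := by
    rw [Finset.disjoint_left]
    intro e he1 he2
    obtain ⟨_, x, hx, hxΛ⟩ := (mem_ed' G).1 he1
    exact h2 e he2 x hx hxΛ
  have h4 : ed G (Λ₁ ∪ Λ₂) = ed G Λ₁ ∪ ed G Λ₂ := by
    ext e
    simp only [mem_ed', Finset.mem_union]
    constructor
    · rintro ⟨he, x, hx, h | h⟩
      · exact Or.inl ⟨he, x, hx, h⟩
      · exact Or.inr ⟨he, x, hx, h⟩
    · rintro (⟨he, x, hx, h⟩ | ⟨he, x, hx, h⟩)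
      · exact ⟨he, x, hx, Or.inl h⟩
      · exact ⟨he, x, hx, Or.inr h⟩
  unfold Tp
  rw [h4]
  exact corr_union hd h3 h1 h2 hA₁ hA₂

/-! ### Automorphisms -/

theorem IsAut.symm {G : SimpleGraph V} {g : V ≃ V} (hg : IsAut G g) : IsAut G g.symm := by
  intro x y
  have := hg (g.symm x) (g.symm y)
  rw [Equiv.apply_symm_apply, Equiv.apply_symm_apply] at this
  exact this.symm

theorem mono_map (g : V ≃ V) (S : Finset V) (e : Sym2 V) :
    Mono (S.map g.toEmbedding) (e.map g) ↔ Mono S e := by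
  unfold Mono
  simp only [Sym2.mem_map, Finset.mem_map_equiv]
  constructor
  · intro h x hx y hy
    have := h (g x) ⟨x, hx, rfl⟩ (g y) ⟨y, hy, rfl⟩
    simpa using this
  · rintro h _ ⟨x, hx, rfl⟩ _ ⟨y, hy, rfl⟩
    simpa using h x hx y hy

theorem sw_map (g : V ≃ V) (P : Sym2 V → ℝ) (E : Finset (Sym2 V)) (S : Finset V) :
    sw P (E.image (Sym2.map g)) (S.map g.toEmbedding) = sw (fun e => P (e.map g)) E S := by
  unfold sw
  rw [Finset.prod_image fun a _ b _ h => Sym2.map.injective g.injective h]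
  refine Finset.prod_congr rfl fun e _ => ?_
  simp only [mono_map]

theorem chi_map (g : V ≃ V) (A S : Finset V) :
    chi (A.map g.toEmbedding) (S.map g.toEmbedding) = chi A S := by
  unfold chi
  rw [← Finset.map_inter, Finset.card_map]

theorem sum_powerset_map (g : V ≃ V) (Λ : Finset V) (F : Finset V → ℝ) :
    ∑ S ∈ (Λ.map g.toEmbedding).powerset, F S =
      ∑ S ∈ Λ.powerset, F (S.map g.toEmbedding) := by
  symm
  refine Finset.sum_bij' (fun S _ => S.map g.toEmbedding) (fun S _ => S.map g.symm.toEmbedding)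
    ?_ ?_ ?_ ?_ ?_
  · intro S hS
    rw [Finset.mem_powerset] at hS ⊢
    exact Finset.map_subset_map.2 hS
  · intro S hS
    rw [Finset.mem_powerset] at hS ⊢
    intro x hx
    rw [Finset.mem_map_equiv, Equiv.symm_symm] at hx
    have := hS hx
    rwa [Finset.mem_map_equiv, Equiv.symm_apply_apply] at this
  · intro S _
    ext x
    simp [Finset.mem_map_equiv]
  · intro S _
    ext x
    simp [Finset.mem_map_equiv]
  · intro S _
    rfl

theorem corr_map (g : V ≃ V) (P : Sym2 V → ℝ) (E : Finset (Sym2 V)) (Λ A : Finset V) :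
    corr P (E.image (Sym2.map g)) (Λ.map g.toEmbedding) (A.map g.toEmbedding) =
      corr (fun e => P (e.map g)) E Λ A := by
  unfold corr
  rw [sum_powerset_map, sum_powerset_map]
  simp only [sw_map, chi_map]

theorem ed_map {g : V ≃ V} (hg : IsAut G g) (Λ : Finset V) :
    ed G (Λ.map g.toEmbedding) = (ed G Λ).image (Sym2.map g) := by
  ext e
  induction e using Sym2.ind with
  | _ x y =>
    rw [mem_ed_mk, Finset.mem_image]
    constructor
    · rintro ⟨hxy, h⟩
      refine ⟨s(g.symm x, g.symm y), ?_, by simp⟩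
      rw [mem_ed_mk]
      refine ⟨(hg.symm x y).2 hxy, ?_⟩
      rcases h with h | h
      · left; rwa [Finset.mem_map_equiv] at h
      · right; rwa [Finset.mem_map_equiv] at h
    · rintro ⟨e', he', heq⟩
      induction e' using Sym2.ind with
      | _ a b =>
        rw [mem_ed_mk] at he'
        rw [Sym2.map_mk, ← Sym2.map_mk, Sym2.map_mk] at heq
        have h5 : s(g a, g b) ∈ ed G (Λ.map g.toEmbedding) := by
          rw [mem_ed_mk]
          refine ⟨(hg a b).2 he'.1, ?_⟩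
          rcases he'.2 with h | h
          · left; rw [Finset.mem_map_equiv, Equiv.symm_apply_apply]; exact h
          · right; rw [Finset.mem_map_equiv, Equiv.symm_apply_apply]; exact h
        have h6 : s(g a, g b) = s(x, y) := heq
        rw [h6] at h5
        exact (mem_ed_mk G).1 h5

theorem ed0_map {g : V ≃ V} (hg : IsAut G g) (Λ : Finset V) :
    ed0 G (Λ.map g.toEmbedding) = (ed0 G Λ).image (Sym2.map g) := by
  ext e
  rw [mem_ed0, ed_map G hg, Finset.mem_image, Finset.mem_image]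
  constructor
  · rintro ⟨⟨e', he', rfl⟩, h⟩
    refine ⟨e', (mem_ed0 G).2 ⟨he', fun x hx => ?_⟩, rfl⟩
    have := h (g x) (Sym2.mem_map.2 ⟨x, hx, rfl⟩)
    rwa [Finset.mem_map_equiv, Equiv.symm_apply_apply] at this
  · rintro ⟨e', he', rfl⟩
    rw [mem_ed0] at he'
    refine ⟨⟨e', he'.1, rfl⟩, fun x hx => ?_⟩
    obtain ⟨y, hy, rfl⟩ := Sym2.mem_map.1 hx
    rw [Finset.mem_map_equiv, Equiv.symm_apply_apply]
    exact he'.2 y hy

theorem Tp_map {g : V ≃ V} (hg : IsAut G g) (β : ℝ) (Λ A : Finset V) :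
    Tp G β (Λ.map g.toEmbedding) (A.map g.toEmbedding) = Tp G β Λ A := by
  unfold Tp
  rw [ed_map G hg, corr_map]

theorem Tf_map {g : V ≃ V} (hg : IsAut G g) (β : ℝ) (Λ A : Finset V) :
    Tf G β (Λ.map g.toEmbedding) (A.map g.toEmbedding) = Tf G β Λ A := by
  unfold Tf
  rw [ed0_map G hg, corr_map]

/-! ### Infinite volume correlations -/

theorem bddBelow_Tp {β : ℝ} (hβ : 0 ≤ β) (A : Finset V) :
    BddBelow (Set.range fun Λ : Finset V => Tp G β Λ A) :=
  ⟨0, by rintro _ ⟨Λ, rfl⟩; exact Tp_nonneg G hβ Λ A⟩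

theorem bddAbove_Tf (β : ℝ) (A : Finset V) :
    BddAbove (Set.range fun Λ : Finset V => Tf G β (Λ ∪ A) A) :=
  ⟨1, by rintro _ ⟨Λ, rfl⟩; exact Tf_le_one G β (Λ ∪ A) A⟩

theorem tp_le {β : ℝ} (hβ : 0 ≤ β) (Λ A : Finset V) : tp G β A ≤ Tp G β Λ A :=
  ciInf_le (bddBelow_Tp G hβ A) Λ

theorem tp_nonneg {β : ℝ} (hβ : 0 ≤ β) (A : Finset V) : 0 ≤ tp G β A :=
  le_ciInf fun Λ => Tp_nonneg G hβ Λ A

theorem tp_le_one {β : ℝ} (hβ : 0 ≤ β) (A : Finset V) : tp G β A ≤ 1 :=
  (tp_le G hβ ∅ A).trans (Tp_le_one G β ∅ A)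

theorem le_tf {β : ℝ} {Λ A : Finset V} (hA : A ⊆ Λ) : Tf G β Λ A ≤ tf G β A := by
  have := le_ciSup (bddAbove_Tf G β A) Λ
  rwa [Finset.union_eq_left.2 hA] at this

theorem tf_nonneg {β : ℝ} (hβ : 0 ≤ β) (A : Finset V) : 0 ≤ tf G β A :=
  (Tf_nonneg G hβ A A).trans (le_tf G (Finset.Subset.refl A))

theorem tf_le_tp {β : ℝ} (hβ : 0 ≤ β) (A : Finset V) : tf G β A ≤ tp G β A :=
  ciSup_le fun _ => le_ciInf fun Λ' => Tf_le_Tp G hβ Finset.subset_union_right Λ'

theorem tf_le_one {β : ℝ} (A : Finset V) : tf G β A ≤ 1 :=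
  ciSup_le fun _ => Tf_le_one G _ _ _

theorem tendsto_Tp {β : ℝ} (hβ : 0 ≤ β) (A : Finset V) :
    Tendsto (fun Λ : Finset V => Tp G β Λ A) atTop (𝓝 (tp G β A)) :=
  tendsto_atTop_ciInf (fun _ _ h => Tp_anti G hβ h A) (bddBelow_Tp G hβ A)

theorem tendsto_Tf {β : ℝ} (hβ : 0 ≤ β) (A : Finset V) :
    Tendsto (fun Λ : Finset V => Tf G β Λ A) atTop (𝓝 (tf G β A)) := by
  have h1 : Tendsto (fun Λ : Finset V => Tf G β (Λ ∪ A) A) atTop (𝓝 (tf G β A)) :=
    tendsto_atTop_ciSup (fun _ _ h => Tf_mono G hβ Finset.subset_union_right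
      (Finset.union_subset_union_left h)) (bddAbove_Tf G β A)
  refine h1.congr' ?_
  filter_upwards [eventually_ge_atTop A] with Λ hΛ
  rw [Finset.union_eq_left.2 hΛ]

theorem tp_gks {β : ℝ} (hβ : 0 ≤ β) (A B : Finset V) :
    tp G β A * tp G β B ≤ tp G β (symmDiff A B) :=
  le_of_tendsto_of_tendsto' ((tendsto_Tp G hβ A).mul (tendsto_Tp G hβ B))
    (tendsto_Tp G hβ (symmDiff A B)) fun Λ => Tp_gks G hβ Λ A B

theorem tp_map {g : V ≃ V} (hg : IsAut G g) (β : ℝ) (A : Finset V) :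
    tp G β (A.map g.toEmbedding) = tp G β A := by
  unfold tp
  have : ∀ Λ : Finset V, Tp G β (Λ.map g.toEmbedding) (A.map g.toEmbedding) = Tp G β Λ A :=
    fun Λ => Tp_map G hg β Λ A
  rw [← iInf_congr this]
  refine (Equiv.iInf_congr (e := (Equiv.mk (fun Λ : Finset V => Λ.map g.toEmbedding)
    (fun Λ : Finset V => Λ.map g.symm.toEmbedding) ?_ ?_)) fun Λ => rfl).symm
  · intro Λ
    ext x
    simp [Finset.mem_map_equiv]
  · intro Λ
    ext x
    simp [Finset.mem_map_equiv]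

theorem tf_map {g : V ≃ V} (hg : IsAut G g) {β : ℝ} (A : Finset V) :
    tf G β (A.map g.toEmbedding) = tf G β A := by
  unfold tf
  have : ∀ Λ : Finset V, Tf G β (Λ.map g.toEmbedding ∪ A.map g.toEmbedding)
      (A.map g.toEmbedding) = Tf G β (Λ ∪ A) A := by
    intro Λ
    rw [← Finset.map_union, Tf_map G hg]
  rw [← iSup_congr this]
  refine (Equiv.iSup_congr (e := (Equiv.mk (fun Λ : Finset V => Λ.map g.toEmbedding)
    (fun Λ : Finset V => Λ.map g.symm.toEmbedding) ?_ ?_)) fun Λ => rfl).symm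
  · intro Λ
    ext x
    simp [Finset.mem_map_equiv]
  · intro Λ
    ext x
    simp [Finset.mem_map_equiv]

/-- the square of the magnetisation is a lower bound for the plus two point function -/
theorem sq_le_tp {β : ℝ} (hβ : 0 ≤ β) (htr : ∀ x y : V, ∃ g : V ≃ V, IsAut G g ∧ g x = y)
    {x y : V} (hxy : x ≠ y) (o : V) : tp G β {o} ^ 2 ≤ tp G β {x, y} := by
  have h1 : ∀ z : V, tp G β {z} = tp G β {o} := by
    intro z
    obtain ⟨g, hg, rfl⟩ := htr o z
    have := tp_map G hg β {o}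
    rwa [Finset.map_singleton] at this
  have h2 := tp_gks G hβ {x} {y}
  rw [h1 x, h1 y] at h2
  have h3 : symmDiff ({x} : Finset V) {y} = {x, y} := by
    ext z
    simp only [Finset.mem_symmDiff, Finset.mem_singleton, Finset.mem_insert]
    constructor
    · rintro (h | h)
      · exact Or.inl h.1
      · exact Or.inr h.1
    · rintro (rfl | rfl)
      · exact Or.inl ⟨rfl, hxy⟩
      · exact Or.inr ⟨rfl, fun h => hxy h.symm⟩
  rw [h3] at h2
  rw [sq]
  exact h2

/-! ### Continuity in the inverse temperature -/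

theorem continuous_sw (E : Finset (Sym2 V)) (S : Finset V) :
    Continuous fun β : ℝ => sw (fun _ => pr β) E S := by
  unfold sw pr
  refine continuous_finsetProd _ fun e _ => ?_
  split_ifs
  · exact continuous_const
  · fun_prop

theorem continuous_corr (E : Finset (Sym2 V)) (Λ A : Finset V) :
    Continuous fun β : ℝ => corr (fun _ => pr β) E Λ A := by
  unfold corr
  refine Continuous.div ?_ ?_ fun β => (Z_pos (fun _ => pr_le_one β) E Λ).ne'
  · exact continuous_finsetSum _ fun S _ => continuous_const.mul (continuous_sw E S)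
  · exact continuous_finsetSum _ fun S _ => continuous_sw E S

theorem continuous_Tp (Λ A : Finset V) : Continuous fun β : ℝ => Tp G β Λ A :=
  continuous_corr _ _ _

theorem continuous_Tf (Λ A : Finset V) : Continuous fun β : ℝ => Tf G β Λ A :=
  continuous_corr _ _ _

/-! ### One edge -/

theorem Tf_edge (β : ℝ) {x y : V} (hxy : G.Adj x y) :
    Tf G β {x, y} {x, y} = (1 - Real.exp (-2 * β)) / (1 + Real.exp (-2 * β)) := by
  have hne : x ≠ y := hxy.ne
  have hE : ed0 G {x, y} = {s(x, y)} := by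
    ext e
    induction e using Sym2.ind with
    | _ a b =>
      rw [mem_ed0_mk, Finset.mem_singleton, Sym2.eq_iff]
      simp only [Finset.mem_insert, Finset.mem_singleton]
      constructor
      · rintro ⟨hab, rfl | rfl, rfl | rfl⟩
        · exact absurd rfl hab.ne
        · exact Or.inl ⟨rfl, rfl⟩
        · exact Or.inr ⟨rfl, rfl⟩
        · exact absurd rfl hab.ne
      · rintro (⟨rfl, rfl⟩ | ⟨rfl, rfl⟩)
        · exact ⟨hxy, Or.inl rfl, Or.inr rfl⟩
        · exact ⟨hxy.symm, Or.inr rfl, Or.inl rfl⟩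
  have hsw : ∀ S : Finset V, sw (fun _ => pr β) {s(x, y)} S =
      if (x ∈ S ↔ y ∈ S) then 1 else Real.exp (-2 * β) := by
    intro S
    have : Mono S s(x, y) ↔ (x ∈ S ↔ y ∈ S) := by
      unfold Mono
      simp only [Sym2.mem_iff]
      constructor
      · intro h; exact h x (Or.inl rfl) y (Or.inr rfl)
      · rintro h a (rfl | rfl) b (rfl | rfl)
        · exact Iff.rfl
        · exact h
        · exact h.symm
        · exact Iff.rfl
    unfold sw pr
    rw [Finset.prod_singleton]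
    simp only [this]
    split_ifs <;> ring
  have hpow : ({x, y} : Finset V).powerset = {∅, {x}, {y}, {x, y}} := by
    ext S
    simp only [Finset.mem_powerset, Finset.mem_insert, Finset.mem_singleton]
    constructor
    · intro hS
      by_cases hx : x ∈ S <;> by_cases hy : y ∈ S
      · right; right; right
        exact Finset.Subset.antisymm hS (by
          intro z hz
          rcases Finset.mem_insert.1 hz with rfl | hz
          · exact hx
          · rw [Finset.mem_singleton.1 hz]; exact hy)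
      · right; left
        ext z
        rw [Finset.mem_singleton]
        constructor
        · intro hz
          rcases Finset.mem_insert.1 (hS hz) with h | h
          · exact h
          · exact absurd (Finset.mem_singleton.1 h ▸ hz) hy
        · rintro rfl; exact hx
      · right; right; left
        ext z
        rw [Finset.mem_singleton]
        constructor
        · intro hz
          rcases Finset.mem_insert.1 (hS hz) with h | h
          · exact absurd (h ▸ hz) hx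
          · exact Finset.mem_singleton.1 h
        · rintro rfl; exact hy
      · left
        rw [Finset.eq_empty_iff_forall_notMem]
        intro z hz
        rcases Finset.mem_insert.1 (hS hz) with h | h
        · exact hx (h ▸ hz)
        · exact hy (Finset.mem_singleton.1 h ▸ hz)
    · rintro (rfl | rfl | rfl | rfl)
      · exact Finset.empty_subset _
      · simp
      · simp
      · exact Finset.Subset.refl _
  have hs : ∀ F : Finset V → ℝ, ∑ S ∈ ({x, y} : Finset V).powerset, F S =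
      F ∅ + F {x} + F {y} + F {x, y} := by
    intro F
    rw [hpow, Finset.sum_insert, Finset.sum_insert, Finset.sum_insert, Finset.sum_singleton]
    · ring
    · rw [Finset.mem_singleton]
      intro h
      have : x ∈ ({y} : Finset V) := by rw [h]; simp
      exact hne (Finset.mem_singleton.1 this)
    · rw [Finset.mem_insert, Finset.mem_singleton]
      rintro (h | h)
      · exact hne (Finset.singleton_inj.1 h)
      · have : y ∈ ({x} : Finset V) := by rw [h]; simp
        exact hne (Finset.mem_singleton.1 this).symm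
    · rw [Finset.mem_insert, Finset.mem_insert, Finset.mem_singleton]
      rintro (h | h | h)
      · exact absurd h.symm (Finset.singleton_ne_empty x)
      · exact absurd h.symm (Finset.singleton_ne_empty y)
      · exact absurd h.symm (Finset.insert_ne_empty x {y})
  have hc : ∀ S : Finset V, chi {x, y} S = (if x ∈ S then -1 else 1) * (if y ∈ S then -1 else 1) := by
    intro S
    rw [chi_eq_prod, Finset.prod_pair hne]
  unfold Tf corr
  rw [hE, hs, hs]
  simp only [hsw, hc]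
  have hyx : y ≠ x := fun h => hne h.symm
  simp only [Finset.notMem_empty, Finset.mem_singleton, Finset.mem_insert, hne, hyx, if_true,
    if_false, iff_self, true_iff, false_iff, iff_true, iff_false, not_true, not_false_iff, true_or,
    or_true]
  have : (0 : ℝ) < 1 + Real.exp (-2 * β) := by linarith [Real.exp_pos (-2 * β)]
  rw [div_eq_div_iff]
  · ring
  · nlinarith [Real.exp_pos (-2 * β)]
  · exact this.ne'

theorem edge_le_tf (β : ℝ) {x y : V} (hxy : G.Adj x y) :
    (1 - Real.exp (-2 * β)) / (1 + Real.exp (-2 * β)) ≤ tf G β {x, y} := by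
  rw [← Tf_edge G β hxy]
  exact le_tf G (Finset.Subset.refl _)

end Graph

end MP8622
end

section
set_option autoImplicit false

open Classical Filter Topology MeasureTheory

/-!
MP_8622f1_pr, module LINK: correlations of the problem file in terms of `Tf` and `Tp` (helper82).
-/

namespace MP8622
namespace Link

variable {V : Type} (G : SimpleGraph V) [G.LocallyFinite]

lemma mono_iff (M : Finset V) (x y : V) : Mono M s(x, y) ↔ (x ∈ M ↔ y ∈ M) := by
  unfold Mono
  constructor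
  · intro h
    exact h x (Sym2.mem_mk_left x y) y (Sym2.mem_mk_right x y)
  · intro h a ha b hb
    rw [Sym2.mem_iff] at ha hb
    rcases ha with rfl | rfl <;> rcases hb with rfl | rfl <;> tauto

/-- `±1` according to whether the edge is monochromatic -/
noncomputable def tau (M : Finset V) (e : Sym2 V) : ℝ := if Mono M e then 1 else -1

lemma mem_ed (Λ : Finset V) (e : Sym2 V) :
    e ∈ ed G Λ ↔ ∃ x ∈ Λ, ∃ y, G.Adj x y ∧ s(x, y) = e := by
  simp [ed]

lemma sum_edges (Λ : Finset V) (f : Sym2 V → ℝ) :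
    ∑ x ∈ Λ, ∑ y ∈ G.neighborFinset x, (if y ∈ Λ then (1 / 2 : ℝ) else 1) * f s(x, y) =
      ∑ e ∈ ed G Λ, f e := by
  rw [Finset.sum_sigma' Λ (fun x => G.neighborFinset x)
    (fun x y => (if y ∈ Λ then (1 / 2 : ℝ) else 1) * f s(x, y))]
  rw [← Finset.sum_fiberwise_of_maps_to (s := Λ.sigma (fun x => G.neighborFinset x))
    (t := ed G Λ) (g := fun p => s(p.1, p.2))]
  swap
  · intro p hp
    rw [Finset.mem_sigma] at hp
    rw [mem_ed]
    exact ⟨p.1, hp.1, p.2, by simpa using hp.2, rfl⟩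
  apply Finset.sum_congr rfl
  intro e he
  rw [mem_ed] at he
  obtain ⟨x, hx, y, hxy, rfl⟩ := he
  have h1 : ∀ p ∈ (Λ.sigma (fun x => G.neighborFinset x)).filter
      (fun p : (_ : V) × V => s(p.1, p.2) = s(x, y)),
      (if p.2 ∈ Λ then (1 / 2 : ℝ) else 1) * f s(p.1, p.2) =
        f s(x, y) * (if p.2 ∈ Λ then (1 / 2 : ℝ) else 1) := by
    intro p hp
    rw [Finset.mem_filter] at hp
    rw [hp.2]; ring
  rw [Finset.sum_congr rfl h1, ← Finset.mul_sum]
  have hne : x ≠ y := hxy.ne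
  by_cases hy : y ∈ Λ
  · have h2 : (Λ.sigma (fun x => G.neighborFinset x)).filter
      (fun p : (_ : V) × V => s(p.1, p.2) = s(x, y)) = {⟨x, y⟩, ⟨y, x⟩} := by
      ext ⟨a, b⟩
      simp only [Finset.mem_filter, Finset.mem_sigma, SimpleGraph.mem_neighborFinset,
        Finset.mem_insert, Finset.mem_singleton, Sigma.mk.injEq, heq_eq_eq, Sym2.eq_iff]
      constructor
      · rintro ⟨_, h | h⟩
        · exact Or.inl h
        · exact Or.inr h
      · rintro (⟨rfl, rfl⟩ | ⟨rfl, rfl⟩)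
        · exact ⟨⟨hx, hxy⟩, Or.inl ⟨rfl, rfl⟩⟩
        · exact ⟨⟨hy, hxy.symm⟩, Or.inr ⟨rfl, rfl⟩⟩
    rw [h2, Finset.sum_pair]
    · simp [hx, hy]; ring
    · intro h
      simp only [Sigma.mk.injEq] at h
      exact hne h.1
  · have h2 : (Λ.sigma (fun x => G.neighborFinset x)).filter
      (fun p : (_ : V) × V => s(p.1, p.2) = s(x, y)) = {⟨x, y⟩} := by
      ext ⟨a, b⟩
      simp only [Finset.mem_filter, Finset.mem_sigma, SimpleGraph.mem_neighborFinset,
        Finset.mem_singleton, Sigma.mk.injEq, heq_eq_eq, Sym2.eq_iff]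
      constructor
      · rintro ⟨⟨ha, _⟩, h | h⟩
        · exact h
        · exact absurd (h.1 ▸ ha) hy
      · rintro ⟨rfl, rfl⟩
        exact ⟨⟨hx, hxy⟩, Or.inl ⟨rfl, rfl⟩⟩
    rw [h2, Finset.sum_singleton]
    simp [hy]

lemma exp_sum_tau (β : ℝ) (F : Finset (Sym2 V)) (M : Finset V) :
    Real.exp (β * ∑ e ∈ F, tau M e) = Real.exp β ^ F.card * sw (fun _ => pr β) F M := by
  rw [Finset.mul_sum, Real.exp_sum, sw, ← Finset.prod_const, ← Finset.prod_mul_distrib]
  apply Finset.prod_congr rfl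
  intro e _
  unfold tau pr
  split_ifs with h
  · simp
  · rw [sub_sub_cancel, ← Real.exp_add]
    congr 1; ring

lemma sum_compl (Λ : Finset V) (F : Finset V → ℝ) :
    ∑ S ∈ Λ.powerset, F (Λ \ S) = ∑ S ∈ Λ.powerset, F S := by
  apply Finset.sum_nbij' (fun S => Λ \ S) (fun S => Λ \ S)
  · intro S _; rw [Finset.mem_powerset]; exact Finset.sdiff_subset
  · intro S _; rw [Finset.mem_powerset]; exact Finset.sdiff_subset
  · intro S hS; rw [Finset.mem_powerset] at hS; exact Finset.sdiff_sdiff_eq_self hS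
  · intro S hS; rw [Finset.mem_powerset] at hS; exact Finset.sdiff_sdiff_eq_self hS
  · intro S _; rfl

lemma prod_spin (A M : Finset V) (s : V → ℝ) (h : ∀ x ∈ A, s x = if x ∈ M then -1 else 1) :
    ∏ x ∈ A, s x = chi A M := by
  rw [Finset.prod_congr rfl h, chi, Finset.prod_ite, Finset.prod_const, Finset.prod_const,
    one_pow, mul_one, Finset.filter_mem_eq_inter]

end Link

open Link in
theorem specLink : SpecLink := by
  intro V G _ σ hσ E hE C hC
  -- energy for plus boundary condition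
  have hE1 : ∀ Λ S : Finset V, S ⊆ Λ → E 1 Λ S = ∑ e ∈ ed G Λ, tau (Λ \ S) e := by
    intro Λ S hS
    rw [hE, ← sum_edges G Λ (fun e => tau (Λ \ S) e)]
    apply Finset.sum_congr rfl
    intro x _
    apply Finset.sum_congr rfl
    intro y _
    rw [mul_assoc]
    congr 1
    simp only [tau, mono_iff, hσ, Finset.mem_sdiff]
    by_cases hx : x ∈ Λ <;> by_cases hy : y ∈ Λ <;> by_cases hx' : x ∈ S <;>
      by_cases hy' : y ∈ S <;> simp [hx, hy, hx', hy']
  have hE0 : ∀ Λ S : Finset V, S ⊆ Λ → E 0 Λ S = ∑ e ∈ ed0 G Λ, tau (Λ \ S) e := by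
    intro Λ S hS
    rw [hE, ed0, Finset.sum_filter, ← sum_edges G Λ
      (fun e => if ∀ x ∈ e, x ∈ Λ then tau (Λ \ S) e else 0)]
    apply Finset.sum_congr rfl
    intro x hx
    apply Finset.sum_congr rfl
    intro y _
    rw [mul_assoc]
    congr 1
    have h3 : (∀ z ∈ s(x, y), z ∈ Λ) ↔ y ∈ Λ := by
      simp [Sym2.mem_iff, hx]
    simp only [tau, mono_iff, hσ, Finset.mem_sdiff, h3]
    by_cases hy : y ∈ Λ <;> by_cases hx' : x ∈ S <;>
      by_cases hy' : y ∈ S <;> simp [hx, hy, hx', hy']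
  have hpos : ∀ (β : ℝ) (k : ℕ), Real.exp β ^ k ≠ 0 := fun β k => pow_ne_zero _ (Real.exp_ne_zero _)
  have key1 : ∀ (β : ℝ) (A Λ : Finset V),
      (∑ S ∈ Λ.powerset, (∏ x ∈ A, σ 1 Λ S x) * Real.exp (β * E 1 Λ S)) =
        Real.exp β ^ (ed G Λ).card *
          ∑ S ∈ Λ.powerset, chi A S * sw (fun _ => pr β) (ed G Λ) S := by
    intro β A Λ
    rw [← sum_compl Λ (fun S => chi A S * sw (fun _ => pr β) (ed G Λ) S), Finset.mul_sum]
    apply Finset.sum_congr rfl
    intro S hS
    rw [Finset.mem_powerset] at hS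
    rw [hE1 Λ S hS, exp_sum_tau]
    have : ∏ x ∈ A, σ 1 Λ S x = chi A (Λ \ S) := by
      apply prod_spin
      intro x _
      rw [hσ]
      by_cases hx : x ∈ Λ <;> by_cases hx' : x ∈ S <;> simp [hx, hx']
    rw [this]; ring
  have key0 : ∀ (β : ℝ) (A Λ : Finset V), A ⊆ Λ →
      (∑ S ∈ Λ.powerset, (∏ x ∈ A, σ 0 Λ S x) * Real.exp (β * E 0 Λ S)) =
        Real.exp β ^ (ed0 G Λ).card *
          ∑ S ∈ Λ.powerset, chi A S * sw (fun _ => pr β) (ed0 G Λ) S := by
    intro β A Λ hA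
    rw [← sum_compl Λ (fun S => chi A S * sw (fun _ => pr β) (ed0 G Λ) S), Finset.mul_sum]
    apply Finset.sum_congr rfl
    intro S hS
    rw [Finset.mem_powerset] at hS
    rw [hE0 Λ S hS, exp_sum_tau]
    have : ∏ x ∈ A, σ 0 Λ S x = chi A (Λ \ S) := by
      apply prod_spin
      intro x hx
      rw [hσ]
      have hx1 := hA hx
      by_cases hx' : x ∈ S <;> simp [hx1, hx']
    rw [this]; ring
  have hone : ∀ S : Finset V, chi ∅ S = 1 := by intro S; simp [chi]
  have hC1 : ∀ (β : ℝ) (A Λ : Finset V), C β 1 A Λ = Tp G β Λ A := by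
    intro β A Λ
    rw [hC, key1]
    have h2 := key1 β ∅ Λ
    simp only [Finset.prod_empty, one_mul, hone] at h2
    rw [h2, Tp, corr, mul_div_mul_left _ _ (hpos _ _)]
  refine ⟨?_, hC1, ?_⟩
  · intro β A Λ hA
    rw [hC, key0 β A Λ hA]
    have h2 := key0 β ∅ Λ (Finset.empty_subset _)
    simp only [Finset.prod_empty, one_mul, hone] at h2
    rw [h2, Tf, corr, mul_div_mul_left _ _ (hpos _ _)]
  · intro β A Λ
    rw [← hC1 β A Λ, hC, hC]
    have hflip : ∀ S ∈ Λ.powerset, ∀ x, σ (-1) Λ S x = - σ 1 Λ (Λ \ S) x := by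
      intro S hS x
      rw [Finset.mem_powerset] at hS
      rw [hσ, hσ]
      by_cases hx : x ∈ Λ <;> by_cases hx' : x ∈ S <;> simp [hx, hx']
    have hEf : ∀ S ∈ Λ.powerset, E (-1) Λ S = E 1 Λ (Λ \ S) := by
      intro S hS
      rw [hE, hE]
      apply Finset.sum_congr rfl
      intro x _
      apply Finset.sum_congr rfl
      intro y _
      rw [hflip S hS x, hflip S hS y]; ring
    have hnum : (∑ S ∈ Λ.powerset, (∏ x ∈ A, σ (-1) Λ S x) * Real.exp (β * E (-1) Λ S)) =
        (-1) ^ A.card * ∑ S ∈ Λ.powerset, (∏ x ∈ A, σ 1 Λ S x) * Real.exp (β * E 1 Λ S) := by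
      rw [← sum_compl Λ (fun S => (∏ x ∈ A, σ 1 Λ S x) * Real.exp (β * E 1 Λ S)), Finset.mul_sum]
      apply Finset.sum_congr rfl
      intro S hS
      rw [hEf S hS, Finset.prod_congr rfl (fun x _ => hflip S hS x), Finset.prod_neg]
      ring
    have hden : (∑ S ∈ Λ.powerset, Real.exp (β * E (-1) Λ S)) =
        ∑ S ∈ Λ.powerset, Real.exp (β * E 1 Λ S) := by
      rw [← sum_compl Λ (fun S => Real.exp (β * E 1 Λ S))]
      exact Finset.sum_congr rfl (fun S hS => by rw [hEf S hS])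
    rw [hnum, hden, mul_div_assoc]

end MP8622
end

section
set_option autoImplicit false

open Classical Filter Topology MeasureTheory

/-!
FKG inequality for the spins and its consequence `T⁺(x,y) ≤ T⁰(x,y) + m(x) + m(y)`.
-/

namespace MP8622

variable {V : Type}

theorem mono_mk (S : Finset V) (a b : V) : Mono S s(a, b) ↔ (a ∈ S ↔ b ∈ S) := by
  unfold Mono
  simp only [Sym2.mem_iff]
  constructor
  · intro h
    exact h a (Or.inl rfl) b (Or.inr rfl)
  · rintro h x (rfl | rfl) y (rfl | rfl)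
    · exact Iff.rfl
    · exact h
    · exact h.symm
    · exact Iff.rfl

theorem factor_mul_le {q : ℝ} (h0 : 0 ≤ q) (h1 : q ≤ 1) (S T : Finset V) (e : Sym2 V) :
    (if Mono S e then 1 else q) * (if Mono T e then 1 else q) ≤
      (if Mono (S ∩ T) e then 1 else q) * (if Mono (S ∪ T) e then 1 else q) := by
  induction e using Sym2.ind with
  | _ a b =>
    simp only [mono_mk, Finset.mem_inter, Finset.mem_union]
    by_cases h2 : a ∈ S <;> by_cases h3 : b ∈ S <;> by_cases h4 : a ∈ T <;> by_cases h5 : b ∈ T <;>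
      simp only [h2, h3, h4, h5, and_true, and_false, or_true, or_false,
        iff_true, iff_false, not_true, and_self, or_self, if_true, if_false] <;> nlinarith

theorem sw_mul_le {P : Sym2 V → ℝ} (h0 : ∀ e, 0 ≤ P e) (h1 : ∀ e, P e ≤ 1)
    (E : Finset (Sym2 V)) (S T : Finset V) :
    sw P E S * sw P E T ≤ sw P E (S ∩ T) * sw P E (S ∪ T) := by
  unfold sw
  rw [← Finset.prod_mul_distrib, ← Finset.prod_mul_distrib]
  refine Finset.prod_le_prod ?_ ?_
  · intro e _
    have := h1 e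
    refine mul_nonneg ?_ ?_ <;> split_ifs <;> linarith
  · intro e _
    exact factor_mul_le (by linarith [h1 e]) (by linarith [h0 e]) S T e

/-- FKG for decreasing functions of the set of minus spins. -/
theorem fkg_anti {P : Sym2 V → ℝ} (h0 : ∀ e, 0 ≤ P e) (h1 : ∀ e, P e ≤ 1)
    (E : Finset (Sym2 V)) (Λ : Finset V) (g h : Finset V → ℝ) (hg : ∀ S, 0 ≤ g S)
    (hh : ∀ S, 0 ≤ h S) (hga : ∀ S T, S ⊆ T → T ⊆ Λ → g T ≤ g S)
    (hha : ∀ S T, S ⊆ T → T ⊆ Λ → h T ≤ h S) :
    (∑ S ∈ Λ.powerset, g S * sw P E S) * (∑ S ∈ Λ.powerset, h S * sw P E S) ≤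
      (∑ S ∈ Λ.powerset, g S * h S * sw P E S) * ∑ S ∈ Λ.powerset, sw P E S := by
  have := Finset.four_functions_theorem (f₁ := fun S => g S * sw P E S)
    (f₂ := fun S => h S * sw P E S) (f₃ := fun S => g S * h S * sw P E S)
    (f₄ := fun S => sw P E S) Λ
    (fun S => mul_nonneg (hg S) (sw_nonneg h1 E S))
    (fun S => mul_nonneg (hh S) (sw_nonneg h1 E S))
    (fun S => mul_nonneg (mul_nonneg (hg S) (hh S)) (sw_nonneg h1 E S))
    (fun S => sw_nonneg h1 E S) ?_
    (Finset.Subset.refl Λ.powerset) (Finset.Subset.refl Λ.powerset)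
  · rwa [Finset.powerset_infs_powerset_self, Finset.powerset_sups_powerset_self] at this
  · intro S hS T hT
    show g S * sw P E S * (h T * sw P E T) ≤
      g (S ∩ T) * h (S ∩ T) * sw P E (S ∩ T) * sw P E (S ∪ T)
    have e1 : g S ≤ g (S ∩ T) := hga _ _ Finset.inter_subset_left hS
    have e2 : h T ≤ h (S ∩ T) := hha _ _ Finset.inter_subset_right hT
    have e3 := sw_mul_le h0 h1 E S T
    calc g S * sw P E S * (h T * sw P E T) = (g S * h T) * (sw P E S * sw P E T) := by ring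
      _ ≤ (g (S ∩ T) * h (S ∩ T)) * (sw P E (S ∩ T) * sw P E (S ∪ T)) :=
          mul_le_mul (mul_le_mul e1 e2 (hh T) (hg _)) e3
            (mul_nonneg (sw_nonneg h1 E S) (sw_nonneg h1 E T)) (mul_nonneg (hg _) (hh _))
      _ = _ := by ring

/-- spin flip inside `Λ`: single spins have expectation zero with free boundary condition -/
theorem corr_single_zero {P : Sym2 V → ℝ} {E : Finset (Sym2 V)} {Λ : Finset V}
    (hE : ∀ e ∈ E, ∀ x ∈ e, x ∈ Λ) {x : V} (hx : x ∈ Λ) : corr P E Λ {x} = 0 := by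
  unfold corr
  have hflip : ∑ S ∈ Λ.powerset, chi {x} S * sw P E S =
      - ∑ S ∈ Λ.powerset, chi {x} S * sw P E S := by
    rw [← Finset.sum_neg_distrib]
    refine Finset.sum_bij' (fun S _ => Λ \ S) (fun S _ => Λ \ S) ?_ ?_ ?_ ?_ ?_
    · intro S _; rw [Finset.mem_powerset]; exact Finset.sdiff_subset
    · intro S _; rw [Finset.mem_powerset]; exact Finset.sdiff_subset
    · intro S hS; rw [Finset.mem_powerset] at hS; exact Finset.sdiff_sdiff_eq_self hS
    · intro S hS; rw [Finset.mem_powerset] at hS; exact Finset.sdiff_sdiff_eq_self hS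
    · intro S hS
      have h1 : sw P E (Λ \ S) = sw P E S := by
        unfold sw
        refine Finset.prod_congr rfl fun e he => ?_
        have : Mono (Λ \ S) e ↔ Mono S e := by
          unfold Mono
          refine forall₂_congr fun a ha => forall₂_congr fun c hc => ?_
          rw [Finset.mem_sdiff, Finset.mem_sdiff]
          simp only [hE e he a ha, hE e he c hc, true_and]
          exact not_iff_not
        simp only [this]
      have h2 : chi {x} (Λ \ S) = - chi {x} S := by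
        rw [chi_eq_prod, chi_eq_prod, Finset.prod_singleton, Finset.prod_singleton]
        by_cases hxS : x ∈ S <;> simp [Finset.mem_sdiff, hx, hxS]
      rw [h1, h2]
      ring
  have h0 : ∑ S ∈ Λ.powerset, chi {x} S * sw P E S = 0 := by linarith
  rw [h0, zero_div]

section Graph

variable (G : SimpleGraph V) [G.LocallyFinite]

theorem Tp_le_Tf_add {β : ℝ} (hβ : 0 ≤ β) {Λ : Finset V} {x y : V} (hx : x ∈ Λ) (hy : y ∈ Λ)
    (hxy : x ≠ y) : Tp G β Λ {x, y} ≤ Tf G β Λ {x, y} + Tp G β Λ {x} + Tp G β Λ {y} := by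
  set P : Sym2 V → ℝ := fun _ => pr β with hP
  have h0 : ∀ e, 0 ≤ P e := fun _ => pr_nonneg hβ
  have h1 : ∀ e, P e ≤ 1 := fun _ => pr_le_one β
  set F : Finset (Sym2 V) := ed G Λ \ ed0 G Λ with hF
  have hsplit : ∀ S : Finset V, sw P (ed G Λ) S = sw P F S * sw P (ed0 G Λ) S := by
    intro S
    unfold sw
    rw [hF, mul_comm, ← Finset.prod_sdiff (ed0_subset_ed G Λ), mul_comm]
  have hFanti : ∀ S T : Finset V, S ⊆ T → T ⊆ Λ → sw P F T ≤ sw P F S := by
    intro S T hST hT
    unfold sw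
    refine Finset.prod_le_prod ?_ ?_
    · intro e _
      have := h1 e
      split_ifs <;> linarith
    · intro e he
      rw [hF, Finset.mem_sdiff] at he
      induction e using Sym2.ind with
      | _ a b =>
        simp only [mono_mk]
        have h2 := (mem_ed_mk G).1 he.1
        have h3 : ¬ (a ∈ Λ ∧ b ∈ Λ) := fun h => he.2 ((mem_ed0_mk G).2 ⟨h2.1, h⟩)
        have h4 : a ∉ Λ ∨ b ∉ Λ := by tauto
        have hpe := h0 s(a, b)
        have hpe1 := h1 s(a, b)
        rcases h4 with h4 | h4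
        · have h5 : a ∉ T := fun h => h4 (hT h)
          have h6 : a ∉ S := fun h => h5 (hST h)
          simp only [h5, h6, false_iff]
          by_cases h7 : b ∈ S
          · have h8 : b ∈ T := hST h7
            simp [h7, h8]
          · simp only [h7, not_false_iff, if_true]
            split_ifs <;> linarith
        · have h5 : b ∉ T := fun h => h4 (hT h)
          have h6 : b ∉ S := fun h => h5 (hST h)
          simp only [h5, h6, iff_false]
          by_cases h7 : a ∈ S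
          · have h8 : a ∈ T := hST h7
            simp [h7, h8]
          · simp only [h7, not_false_iff, if_true]
            split_ifs <;> linarith
  set g : Finset V → ℝ := fun S => 3 + chi {x} S + chi {y} S - chi {x, y} S with hg
  have hpair : ∀ S : Finset V, chi {x, y} S = chi {x} S * chi {y} S := by
    intro S
    rw [chi_eq_prod, chi_eq_prod, chi_eq_prod, Finset.prod_pair hxy, Finset.prod_singleton,
      Finset.prod_singleton]
  have hsing : ∀ (z : V) (S : Finset V), chi {z} S = if z ∈ S then -1 else 1 := by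
    intro z S
    rw [chi_eq_prod, Finset.prod_singleton]
  have hg0 : ∀ S, 0 ≤ g S := by
    intro S
    simp only [hg, hpair, hsing]
    split_ifs <;> norm_num
  have hganti : ∀ S T : Finset V, S ⊆ T → T ⊆ Λ → g T ≤ g S := by
    intro S T hST _
    simp only [hg, hpair, hsing]
    by_cases h2 : x ∈ S
    · have h3 := hST h2
      by_cases h4 : y ∈ S
      · have h5 := hST h4
        simp [h2, h3, h4, h5]
      · simp only [h2, h3, h4, if_true, if_false]
        split_ifs <;> norm_num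
    · by_cases h4 : y ∈ S
      · have h5 := hST h4
        simp only [h2, h4, h5, if_true, if_false]
        split_ifs <;> norm_num
      · simp only [h2, h4, if_false]
        split_ifs <;> norm_num
  have key := fkg_anti h0 h1 (ed0 G Λ) Λ g (fun S => sw P F S) hg0 (fun S => sw_nonneg h1 F S)
    hganti hFanti
  have hZ0 := Z_pos h1 (ed0 G Λ) Λ
  have hZ1 := Z_pos h1 (ed G Λ) Λ
  have e1 : ∑ S ∈ Λ.powerset, sw P F S * sw P (ed0 G Λ) S = ∑ S ∈ Λ.powerset, sw P (ed G Λ) S :=
    Finset.sum_congr rfl fun S _ => (hsplit S).symm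
  have e2 : ∑ S ∈ Λ.powerset, g S * sw P F S * sw P (ed0 G Λ) S =
      ∑ S ∈ Λ.powerset, g S * sw P (ed G Λ) S :=
    Finset.sum_congr rfl fun S _ => by rw [hsplit S]; ring
  rw [e1, e2] at key
  have hexp : ∀ E : Finset (Sym2 V), 0 < ∑ S ∈ Λ.powerset, sw P E S →
      (∑ S ∈ Λ.powerset, g S * sw P E S) =
        (3 + corr P E Λ {x} + corr P E Λ {y} - corr P E Λ {x, y}) *
          ∑ S ∈ Λ.powerset, sw P E S := by
    intro E hE
    have h2 : ∀ A : Finset V, ∑ S ∈ Λ.powerset, chi A S * sw P E S =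
        corr P E Λ A * ∑ S ∈ Λ.powerset, sw P E S := by
      intro A
      unfold corr
      rw [div_mul_cancel₀ _ hE.ne']
    rw [sub_mul, add_mul, add_mul, ← h2, ← h2, ← h2, Finset.mul_sum, ← Finset.sum_add_distrib,
      ← Finset.sum_add_distrib, ← Finset.sum_sub_distrib]
    refine Finset.sum_congr rfl fun S _ => ?_
    simp only [hg]
    ring
  rw [hexp _ hZ0, hexp _ hZ1] at key
  have hz : ∀ z ∈ Λ, corr P (ed0 G Λ) Λ {z} = 0 := fun z hz =>
    corr_single_zero (fun e he => ((mem_ed0 G).1 he).2) hz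
  rw [hz x hx, hz y hy] at key
  have hprod : 0 < (∑ S ∈ Λ.powerset, sw P (ed0 G Λ) S) * ∑ S ∈ Λ.powerset, sw P (ed G Λ) S :=
    mul_pos hZ0 hZ1
  have h3 : (3 + 0 + 0 - corr P (ed0 G Λ) Λ {x, y}) *
      ((∑ S ∈ Λ.powerset, sw P (ed0 G Λ) S) * ∑ S ∈ Λ.powerset, sw P (ed G Λ) S) ≤
      (3 + corr P (ed G Λ) Λ {x} + corr P (ed G Λ) Λ {y} - corr P (ed G Λ) Λ {x, y}) *
      ((∑ S ∈ Λ.powerset, sw P (ed0 G Λ) S) * ∑ S ∈ Λ.powerset, sw P (ed G Λ) S) := by
    linarith [key]
  have h4 := le_of_mul_le_mul_right h3 hprod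
  show corr P (ed G Λ) Λ {x, y} ≤ corr P (ed0 G Λ) Λ {x, y} + corr P (ed G Λ) Λ {x} +
    corr P (ed G Λ) Λ {y}
  linarith

/-- If the magnetisation vanishes, free and plus two point functions agree. -/
theorem tf_eq_tp_of_zero {β : ℝ} (hβ : 0 ≤ β) {x y : V} (hxy : x ≠ y) (hx : tp G β {x} = 0)
    (hy : tp G β {y} = 0) : tf G β {x, y} = tp G β {x, y} := by
  refine le_antisymm (tf_le_tp G hβ _) ?_
  have h1 : Tendsto (fun Λ : Finset V => Tf G β Λ {x, y} + Tp G β Λ {x} + Tp G β Λ {y}) atTop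
      (𝓝 (tf G β {x, y} + tp G β {x} + tp G β {y})) :=
    ((tendsto_Tf G hβ _).add (tendsto_Tp G hβ _)).add (tendsto_Tp G hβ _)
  rw [hx, hy, add_zero, add_zero] at h1
  refine le_of_tendsto_of_tendsto (tendsto_Tp G hβ {x, y}) h1 ?_
  filter_upwards [eventually_ge_atTop ({x, y} : Finset V)] with Λ hΛ
  exact Tp_le_Tf_add G hβ (hΛ (by simp)) (hΛ (by simp)) hxy

end Graph

end MP8622
end

section
set_option autoImplicit false

/-!
# FAR: many vertices with almost uncorrelated spins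
-/

open Classical Filter Topology MeasureTheory

namespace MP8622

namespace Far

variable {V : Type} (G : SimpleGraph V) [G.LocallyFinite]

/-- the vertices of `F` and their neighbours -/
noncomputable def nb (F : Finset V) : Finset V := F ∪ F.biUnion (fun x => G.neighborFinset x)

lemma mem_nb_self {F : Finset V} {x : V} (h : x ∈ F) : x ∈ nb G F :=
  Finset.mem_union_left _ h

lemma mem_nb_adj {F : Finset V} {x y : V} (h : x ∈ F) (hxy : G.Adj x y) : y ∈ nb G F :=
  Finset.mem_union_right _ (Finset.mem_biUnion.2 ⟨x, h, (SimpleGraph.mem_neighborFinset _ _ _).2 hxy⟩)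

/-- only finitely many automorphic images of `o` have the image of `w` in a finite set -/
lemma finite_img (o : V) {w : V} (p : G.Walk o w) : ∀ F : Finset V,
    {x : V | ∃ g : V ≃ V, IsAut G g ∧ g o = x ∧ g w ∈ F}.Finite := by
  induction p using SimpleGraph.Walk.concatRec with
  | Hnil =>
    intro F
    refine F.finite_toSet.subset ?_
    rintro x ⟨g, _, rfl, h⟩
    exact h
  | Hconcat p h ih =>
    intro F
    refine (ih (nb G F)).subset ?_
    rintro x ⟨g, hg, hx, hw⟩
    exact ⟨g, hg, hx, mem_nb_adj G hw ((hg _ _).2 h.symm)⟩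

lemma exists_far [Infinite V] (hconn : G.Connected)
    (htr : ∀ x y : V, ∃ g : V ≃ V, IsAut G g ∧ g x = y) (o : V) (L F : Finset V) :
    ∃ g : V ≃ V, IsAut G g ∧ ∀ w ∈ L, g w ∉ F := by
  have hfin : (⋃ w ∈ L, {x : V | ∃ g : V ≃ V, IsAut G g ∧ g o = x ∧ g w ∈ F}).Finite := by
    refine L.finite_toSet.biUnion fun w _ => ?_
    obtain ⟨p⟩ := hconn.preconnected o w
    exact finite_img G o p F
  obtain ⟨x, hx⟩ := hfin.exists_notMem
  obtain ⟨g, hg, hgx⟩ := htr o x
  refine ⟨g, hg, fun w hw hF => hx ?_⟩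
  exact Set.mem_biUnion (s := (L : Set V)) hw ⟨g, hg, hgx, hF⟩

lemma exists_many [Infinite V] (hconn : G.Connected)
    (htr : ∀ x y : V, ∃ g : V ≃ V, IsAut G g ∧ g x = y) (o : V) (L : Finset V) (ho : o ∈ L)
    (N : ℕ) : ∃ (Y : Finset V) (γ : V → (V ≃ V)), Y.card = N ∧
      (∀ y ∈ Y, IsAut G (γ y) ∧ γ y o = y) ∧
      ∀ y ∈ Y, ∀ z ∈ Y, y ≠ z → ∀ a ∈ L, ∀ b ∈ L, γ y a ≠ γ z b ∧ ¬ G.Adj (γ y a) (γ z b) := by
  induction N with
  | zero =>
    exact ⟨∅, fun _ => Equiv.refl V, rfl, fun y hy => absurd hy (Finset.notMem_empty y),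
      fun y hy => absurd hy (Finset.notMem_empty y)⟩
  | succ N ih =>
    obtain ⟨Y, γ, hYc, hY1, hY2⟩ := ih
    obtain ⟨g, hg, hgF⟩ := exists_far G hconn htr o L
      (nb G (Y.biUnion fun y => L.image (γ y)))
    have hmem : ∀ y ∈ Y, ∀ a ∈ L, γ y a ∈ Y.biUnion fun y => L.image (γ y) :=
      fun y hy a ha => Finset.mem_biUnion.2 ⟨y, hy, Finset.mem_image_of_mem _ ha⟩
    have hsep : ∀ y ∈ Y, ∀ a ∈ L, ∀ b ∈ L, γ y a ≠ g b ∧ ¬ G.Adj (γ y a) (g b) := by
      intro y hy a ha b hb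
      refine ⟨fun h => hgF b hb ?_, fun h => hgF b hb (mem_nb_adj G (hmem y hy a ha) h)⟩
      rw [← h]
      exact mem_nb_self G (hmem y hy a ha)
    have hnot : g o ∉ Y := by
      intro h
      have := (hsep _ h o ho o ho).1
      exact this (hY1 _ h).2
    have hne : ∀ y ∈ Y, y ≠ g o := fun y hy h => hnot (by rw [← h]; exact hy)
    refine ⟨insert (g o) Y, Function.update γ (g o) g, ?_, ?_, ?_⟩
    · rw [Finset.card_insert_of_notMem hnot, hYc]
    · intro y hy
      rcases Finset.mem_insert.1 hy with rfl | hy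
      · rw [Function.update_self]
        exact ⟨hg, rfl⟩
      · rw [Function.update_of_ne (hne y hy)]
        exact hY1 y hy
    · intro y hy z hz hyz a ha b hb
      rcases Finset.mem_insert.1 hy with rfl | hy
      · rcases Finset.mem_insert.1 hz with rfl | hz
        · exact absurd rfl hyz
        · rw [Function.update_self, Function.update_of_ne (hne z hz)]
          have := hsep z hz b hb a ha
          exact ⟨fun h => this.1 h.symm, fun h => this.2 h.symm⟩
      · rw [Function.update_of_ne (hne y hy)]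
        rcases Finset.mem_insert.1 hz with rfl | hz
        · rw [Function.update_self]
          exact hsep y hy a ha b hb
        · rw [Function.update_of_ne (hne z hz)]
          exact hY2 y hy z hz hyz a ha b hb

end Far

open Far in
/-- FAR -/
theorem specFar : SpecFar := by
  intro V G _ hinf hconn htr β hβ o δ hδ N
  have hev : ∀ᶠ Λ : Finset V in atTop, Tp G β Λ {o} ^ 2 < tp G β {o} ^ 2 + δ :=
    ((tendsto_Tp G hβ {o}).pow 2).eventually_lt_const (by linarith)
  obtain ⟨L, hL, hoL⟩ := (hev.and (eventually_ge_atTop ({o} : Finset V))).exists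
  have ho : o ∈ L := hoL (Finset.mem_singleton_self o)
  obtain ⟨Y, γ, hYc, hY1, hY2⟩ := exists_many G hconn htr o L ho N
  refine ⟨Y, hYc, fun y hy z hz hyz => ?_⟩
  refine le_trans ?_ hL.le
  have h1 := tp_le G hβ (L.map (γ y).toEmbedding ∪ L.map (γ z).toEmbedding) {y, z}
  refine h1.trans (le_of_eq ?_)
  have e1 : ({y, z} : Finset V) = Finset.map (γ y).toEmbedding {o} ∪
      Finset.map (γ z).toEmbedding {o} := by
    rw [Finset.map_singleton, Finset.map_singleton]
    have h3 := (hY1 y hy).2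
    have h4 := (hY1 z hz).2
    simp only [Equiv.toEmbedding_apply, h3, h4]
    rfl
  rw [e1, Tp_union G]
  · rw [Tp_map G (hY1 y hy).1, Tp_map G (hY1 z hz).1, sq]
  · rw [Finset.disjoint_left]
    intro a ha hb
    obtain ⟨a', ha', rfl⟩ := Finset.mem_map.1 ha
    obtain ⟨b', hb', hab⟩ := Finset.mem_map.1 hb
    exact (hY2 y hy z hz hyz a' ha' b' hb').1 hab.symm
  · intro a ha b hb
    obtain ⟨a', ha', rfl⟩ := Finset.mem_map.1 ha
    obtain ⟨b', hb', rfl⟩ := Finset.mem_map.1 hb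
    exact (hY2 y hy z hz hyz a' ha' b' hb').2
  · exact Finset.map_subset_map.2 hoL
  · exact Finset.map_subset_map.2 hoL

end MP8622
end

section
set_option autoImplicit false

open Classical Filter Topology MeasureTheory

/-!
MP_8622f1_pr, module LIM: limits of probability measures along an ultrafilter (helper82).
-/

namespace MP8622

theorem specLim : SpecLim := by
  intro I ι _ U μ hμ
  have : TopologicalSpace.MetrizableSpace (I → Bool) :=
    TopologicalSpace.metrizableSpace_of_t3_secondCountable _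
  let P : ι → ProbabilityMeasure (I → Bool) := fun i => ⟨μ i, hμ i⟩
  let W : Ultrafilter (ProbabilityMeasure (I → Bool)) := U.map P
  obtain ⟨x, -, hx⟩ := isCompact_univ.ultrafilter_le_nhds W (by simp)
  have hT : Tendsto P (U : Filter ι) (𝓝 x) := by
    rw [tendsto_iff_comap, ← map_le_iff_le_comap]
    exact hx
  refine ⟨(x : Measure (I → Bool)), inferInstance, ?_⟩
  intro K hK
  exact ProbabilityMeasure.tendsto_measure_of_null_frontier_of_tendsto' hT (by simp [hK])

end MP8622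
end

section
set_option autoImplicit false

open Classical Filter Topology MeasureTheory
open scoped ENNReal

/-!
MP_8622f1_pr, module MTPC: mass transport for configurations with finite clusters (helper82).
-/

namespace MP8622
namespace Mtpc

variable {V : Type} (G : SimpleGraph V)

lemma reach_sh (g : V ≃ V) (hg : IsAut G g) (ω : Om V) (x y : V) :
    (og G (sh g ω)).Reachable (g x) (g y) ↔ (og G ω).Reachable x y := by
  have h1 : ∀ a b, (og G (sh g ω)).Adj (g a) (g b) ↔ (og G ω).Adj a b := by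
    intro a b
    simp [og, sh, hg a b]
  let e : og G ω ≃g og G (sh g ω) := ⟨g, by intro a b; exact h1 a b⟩
  exact e.reachable_iff

lemma meas_adj (x z : V) : MeasurableSet {ω : Om V | (og G ω).Adj x z} := by
  by_cases h : G.Adj x z
  · have : {ω : Om V | (og G ω).Adj x z} = (fun ω : Om V => ω s(x, z)) ⁻¹' {true} := by
      ext ω; simp [og, h]
    rw [this]
    exact (measurable_pi_apply _) (measurableSet_singleton true)
  · have : {ω : Om V | (og G ω).Adj x z} = ∅ := by
      ext ω; simp [og, h]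
    rw [this]; exact MeasurableSet.empty

lemma meas_len [Countable V] (n : ℕ) : ∀ x y : V,
    MeasurableSet {ω : Om V | ∃ p : (og G ω).Walk x y, p.length = n} := by
  induction n with
  | zero =>
    intro x y
    by_cases h : x = y
    · subst h
      have : {ω : Om V | ∃ p : (og G ω).Walk x x, p.length = 0} = Set.univ := by
        ext ω
        simp only [Set.mem_ofPred_eq, Set.mem_univ, iff_true]
        exact ⟨SimpleGraph.Walk.nil, rfl⟩
      rw [this]; exact MeasurableSet.univ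
    · have : {ω : Om V | ∃ p : (og G ω).Walk x y, p.length = 0} = ∅ := by
        ext ω
        simp only [Set.mem_ofPred_eq, Set.mem_empty_iff_false, iff_false]
        rintro ⟨p, hp⟩
        exact h (SimpleGraph.Walk.eq_of_length_eq_zero hp)
      rw [this]; exact MeasurableSet.empty
  | succ n ih =>
    intro x y
    have : {ω : Om V | ∃ p : (og G ω).Walk x y, p.length = n + 1} =
        ⋃ z : V, ({ω : Om V | (og G ω).Adj x z} ∩
          {ω : Om V | ∃ p : (og G ω).Walk z y, p.length = n}) := by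
      ext ω
      simp only [Set.mem_ofPred_eq, Set.mem_iUnion, Set.mem_inter_iff]
      constructor
      · rintro ⟨p, hp⟩
        cases p with
        | nil => simp at hp
        | cons h q =>
          exact ⟨_, h, q, by simpa using hp⟩
      · rintro ⟨z, h, q, hq⟩
        exact ⟨SimpleGraph.Walk.cons h q, by simp [hq]⟩
    rw [this]
    exact MeasurableSet.iUnion (fun z => (meas_adj G x z).inter (ih z y))

lemma meas_reach [Countable V] (x y : V) :
    MeasurableSet {ω : Om V | (og G ω).Reachable x y} := by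
  have : {ω : Om V | (og G ω).Reachable x y} =
      ⋃ n : ℕ, {ω : Om V | ∃ p : (og G ω).Walk x y, p.length = n} := by
    ext ω
    simp only [Set.mem_ofPred_eq, Set.mem_iUnion]
    constructor
    · rintro ⟨p⟩; exact ⟨p.length, p, rfl⟩
    · rintro ⟨n, p, _⟩; exact ⟨p⟩
  rw [this]
  exact MeasurableSet.iUnion (fun n => meas_len G n x y)

lemma meas_cl [Countable V] (x : V) (K : Finset V) :
    MeasurableSet {ω : Om V | cl G ω x = (K : Set V)} := by
  have : {ω : Om V | cl G ω x = (K : Set V)} =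
      ⋂ y : V, (if y ∈ K then {ω : Om V | (og G ω).Reachable x y}
        else {ω : Om V | (og G ω).Reachable x y}ᶜ) := by
    ext ω
    simp only [Set.mem_ofPred_eq, Set.mem_iInter, Set.ext_iff, cl]
    apply forall_congr'
    intro y
    by_cases hy : y ∈ K <;> simp [hy]
  rw [this]
  apply MeasurableSet.iInter
  intro y
  by_cases hy : y ∈ K
  · simp only [hy, if_true]; exact meas_reach G x y
  · simp only [hy, if_false]; exact (meas_reach G x y).compl

lemma meas_sh (g : V ≃ V) : Measurable (sh g : Om V → Om V) := by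
  apply measurable_pi_lambda
  intro e
  exact measurable_pi_apply _

lemma cl_eq_iff (ω : Om V) (x y : V) (K : Set V) (hx : x ∈ K) (hy : y ∈ K) :
    cl G ω x = K ↔ cl G ω y = K := by
  constructor
  · intro h
    have hxy : (og G ω).Reachable x y := by rw [← h] at hy; exact hy
    rw [← h]; ext z
    exact ⟨fun hz => hxy.trans hz, fun hz => hxy.symm.trans hz⟩
  · intro h
    have hxy : (og G ω).Reachable y x := by rw [← h] at hx; exact hx
    rw [← h]; ext z
    exact ⟨fun hz => hxy.trans hz, fun hz => hxy.symm.trans hz⟩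

end Mtpc

open Mtpc in
theorem specMtpc : SpecMtpc := by
  intro Γ V _ _ _ G hG hMTP φ hφ hinv hfin q hq R hR o
  have haut : ∀ γ : Γ, IsAut G (MulAction.toPerm γ) := fun γ x y => hG γ x y
  -- probability of the event that the cluster of `x` is `K`
  let P : V → Finset V → ℝ≥0∞ := fun x K => φ {ω | cl G ω x = (K : Set V)}
  have hP : ∀ (γ : Γ) (x : V) (K : Finset V),
      P (γ • x) (K.map (MulAction.toPerm γ).toEmbedding) = P x K := by
    intro γ x K
    show φ {ω | cl G ω (γ • x) = ((K.map (MulAction.toPerm γ).toEmbedding : Finset V) : Set V)} = _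
    conv_lhs => rw [← hinv γ]
    rw [Measure.map_apply (meas_sh _) (meas_cl G _ _)]
    congr 1
    ext ω
    simp only [Set.mem_preimage, Set.mem_ofPred_eq]
    rw [Set.ext_iff, Set.ext_iff]
    constructor
    · intro h z
      have := h (γ • z)
      simp only [cl, Set.mem_ofPred_eq, Finset.coe_map, Equiv.coe_toEmbedding] at this
      have h2 := reach_sh G (MulAction.toPerm γ) (haut γ) ω x z
      simp only [MulAction.toPerm_apply] at h2
      rw [h2] at this
      simp only [cl, Set.mem_ofPred_eq]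
      rw [this]
      simp only [Set.mem_image, Finset.mem_coe, MulAction.toPerm_apply]
      constructor
      · rintro ⟨w, hw, hwz⟩
        have : w = z := (MulAction.toPerm γ).injective hwz
        rwa [← this]
      · intro hz; exact ⟨z, hz, rfl⟩
    · intro h z
      obtain ⟨z, rfl⟩ := (MulAction.toPerm γ).surjective z
      have := h z
      simp only [cl, Set.mem_ofPred_eq] at this ⊢
      have h2 := reach_sh G (MulAction.toPerm γ) (haut γ) ω x z
      simp only [MulAction.toPerm_apply] at h2 ⊢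
      rw [h2, this]
      simp
  let f : V → V → ℝ≥0∞ := fun x y => ∑' K : Finset V,
    if x ∈ K ∧ y ∈ K then (∑ z ∈ K, (q x z : ℝ≥0∞)) / (K.card : ℝ≥0∞) * P x K else 0
  have hfinv : ∀ (γ : Γ) (x y : V), f (γ • x) (γ • y) = f x y := by
    intro γ x y
    show (∑' K : Finset V, _) = ∑' K : Finset V, _
    rw [← (Equiv.finsetCongr (MulAction.toPerm γ)).tsum_eq]
    apply tsum_congr
    intro K
    rw [Equiv.finsetCongr_apply]
    have h1 : ∀ z : V, γ • z ∈ K.map (MulAction.toPerm γ).toEmbedding ↔ z ∈ K := by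
      intro z; simp
    simp only [h1, hP, Finset.sum_map, Finset.card_map, Equiv.coe_toEmbedding,
      MulAction.toPerm_apply, hq]
  have hmt := hMTP f hfinv o
  have hdisj : ∀ x : V, ∑' K : Finset V, P x K ≤ 1 := by
    intro x
    have h1 := tsum_meas_le_meas_iUnion_of_disjoint φ
      (As := fun K : Finset V => {ω | cl G ω x = (K : Set V)})
      (fun K => meas_cl G x K) (by
        intro K K' hKK'
        rw [Function.onFun, Set.disjoint_left]
        intro ω h1 h2
        simp only [Set.mem_ofPred_eq] at h1 h2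
        apply hKK'
        have : (K : Set V) = K' := by rw [← h1, ← h2]
        exact_mod_cast this)
    exact h1.trans prob_le_one
  -- outgoing mass
  have hout : ∑' z, (q o z : ℝ≥0∞) * φ {ω | (og G ω).Reachable o z} ≤ ∑' y, f o y := by
    have h1 : ∀ z, φ {ω | (og G ω).Reachable o z} ≤
        ∑' K : Finset V, if o ∈ K ∧ z ∈ K then P o K else 0 := by
      intro z
      have hsub : {ω : Om V | (og G ω).Reachable o z} ⊆
          (⋃ K : Finset V, if o ∈ K ∧ z ∈ K then {ω | cl G ω o = (K : Set V)} else ∅) ∪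
            {ω | (cl G ω o).Infinite} := by
        intro ω hω
        by_cases hinf : (cl G ω o).Infinite
        · exact Or.inr hinf
        · left
          rw [Set.not_infinite] at hinf
          rw [Set.mem_iUnion]
          refine ⟨hinf.toFinset, ?_⟩
          have ho : o ∈ hinf.toFinset := by
            simp only [Set.Finite.mem_toFinset, cl, Set.mem_ofPred_eq]
            exact SimpleGraph.Reachable.refl _
          have hz : z ∈ hinf.toFinset := by
            simp only [Set.Finite.mem_toFinset, cl, Set.mem_ofPred_eq]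
            exact hω
          rw [if_pos ⟨ho, hz⟩]
          simp
      refine (measure_mono hsub).trans ((measure_union_le _ _).trans ?_)
      rw [hfin o, add_zero]
      refine (measure_iUnion_le _).trans ?_
      apply ENNReal.tsum_le_tsum
      intro K
      by_cases h : o ∈ K ∧ z ∈ K
      · simp only [h]; exact le_rfl
      · simp only [if_neg h, measure_empty]; exact le_rfl
    calc ∑' z, (q o z : ℝ≥0∞) * φ {ω | (og G ω).Reachable o z}
        ≤ ∑' z, (q o z : ℝ≥0∞) * ∑' K : Finset V, (if o ∈ K ∧ z ∈ K then P o K else 0) := by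
          apply ENNReal.tsum_le_tsum
          intro z
          exact mul_le_mul_right (h1 z) _
      _ = ∑' z, ∑' K : Finset V, (q o z : ℝ≥0∞) * (if o ∈ K ∧ z ∈ K then P o K else 0) := by
          simp_rw [ENNReal.tsum_mul_left]
      _ = ∑' K : Finset V, ∑' z, (q o z : ℝ≥0∞) * (if o ∈ K ∧ z ∈ K then P o K else 0) :=
          ENNReal.tsum_comm
      _ = ∑' K : Finset V, ∑' y,
            (if o ∈ K ∧ y ∈ K then (∑ z ∈ K, (q o z : ℝ≥0∞)) / (K.card : ℝ≥0∞) * P o K else 0) := by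
          apply tsum_congr
          intro K
          by_cases ho : o ∈ K
          · have e1 : ∑' z, (q o z : ℝ≥0∞) * (if o ∈ K ∧ z ∈ K then P o K else 0) =
                (∑ z ∈ K, (q o z : ℝ≥0∞)) * P o K := by
              rw [tsum_eq_sum (s := K) (by intro z hz; simp [hz]), Finset.sum_mul]
              apply Finset.sum_congr rfl
              intro z hz
              rw [if_pos ⟨ho, hz⟩]
            have e2 : ∑' y, (if o ∈ K ∧ y ∈ K then
                (∑ z ∈ K, (q o z : ℝ≥0∞)) / (K.card : ℝ≥0∞) * P o K else 0) =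
                (K.card : ℝ≥0∞) * ((∑ z ∈ K, (q o z : ℝ≥0∞)) / (K.card : ℝ≥0∞) * P o K) := by
              rw [tsum_eq_sum (s := K) (by intro z hz; simp [hz])]
              rw [← nsmul_eq_mul, ← Finset.sum_const]
              apply Finset.sum_congr rfl
              intro z hz
              rw [if_pos ⟨ho, hz⟩]
            rw [e1, e2, ← mul_assoc]
            congr 1
            rw [ENNReal.mul_div_cancel]
            · simpa using Finset.ne_empty_of_mem ho
            · exact ENNReal.natCast_ne_top _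
          · simp [ho]
      _ = ∑' y, f o y := ENNReal.tsum_comm
  -- incoming mass
  have hin : ∑' x, f x o ≤ R := by
    calc ∑' x, f x o = ∑' K : Finset V, ∑' x,
            (if x ∈ K ∧ o ∈ K then (∑ z ∈ K, (q x z : ℝ≥0∞)) / (K.card : ℝ≥0∞) * P x K else 0) :=
          ENNReal.tsum_comm
      _ ≤ ∑' K : Finset V, (R : ℝ≥0∞) * P o K := by
          apply ENNReal.tsum_le_tsum
          intro K
          by_cases ho : o ∈ K
          · simp only [ho, and_true]
            rw [tsum_eq_sum (s := K) (by intro z hz; simp [hz])]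
            have hPx : ∀ x ∈ K, P x K = P o K := by
              intro x hx
              show φ _ = φ _
              congr 1
              ext ω
              exact cl_eq_iff G ω x o (K : Set V) hx ho
            rw [Finset.sum_congr rfl
              (g := fun x => (∑ z ∈ K, (q x z : ℝ≥0∞)) / (K.card : ℝ≥0∞) * P o K)
              (by intro x hx; rw [if_pos hx, hPx x hx])]
            rw [← Finset.sum_mul]
            apply mul_le_mul_left
            simp only [div_eq_mul_inv]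
            rw [← Finset.sum_mul, ← div_eq_mul_inv]
            apply ENNReal.div_le_of_le_mul
            have := hR K
            exact_mod_cast this
          · simp [ho]
      _ = (R : ℝ≥0∞) * ∑' K : Finset V, P o K := ENNReal.tsum_mul_left
      _ ≤ (R : ℝ≥0∞) * 1 := mul_le_mul_right (hdisj o) _
      _ = R := mul_one _
  calc _ ≤ ∑' y, f o y := hout
    _ = ∑' x, f x o := hmt
    _ ≤ R := hin

end MP8622
end
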