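import Mathlib

set_option autoImplicit false

open Classical Filter Topology MeasureTheory

/-!
Definitions for MP_8622f1_pr (Ising model, FK representation, groups of cost > 1).
-/

namespace MP8622

/-! ### Finite volume -/

/-- `S` is constant on the edge `e`. -/
def Mono {V : Type} (S : Finset V) (e : Sym2 V) : Prop :=
  ∀ x ∈ e, ∀ y ∈ e, (x ∈ S ↔ y ∈ S)

/-- The subsets of `Λ` (sets of minus spins) which are constant on all edges of `ω`. -/
noncomputable def Hs {V : Type} (Λ : Finset V) (ω : Finset (Sym2 V)) : Finset (Finset V) :=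
  Λ.powerset.filter (fun S => ∀ e ∈ ω, Mono S e)

/-- Boltzmann weight of the set `S` of minus spins (ground state normalised to one). -/
noncomputable def sw {V : Type} (P : Sym2 V → ℝ) (E : Finset (Sym2 V)) (S : Finset V) : ℝ :=
  ∏ e ∈ E, if Mono S e then 1 else 1 - P e

/-- product of the spins over `A`, when `S` is the set of minus spins -/
noncomputable def chi {V : Type} (A S : Finset V) : ℝ := (-1) ^ (A ∩ S).card

/-- finite volume correlation: spins in `Λ` are free, spins outside `Λ` are plus -/
noncomputable def corr {V : Type} (P : Sym2 V → ℝ) (E : Finset (Sym2 V)) (Λ A : Finset V) : ℝ :=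
  (∑ S ∈ Λ.powerset, chi A S * sw P E S) / ∑ S ∈ Λ.powerset, sw P E S

/-- FK weight (`q = 2`) of the set `ω` of open edges -/
noncomputable def fw {V : Type} (P : Sym2 V → ℝ) (E : Finset (Sym2 V)) (Λ : Finset V)
    (ω : Finset (Sym2 V)) : ℝ :=
  (∏ e ∈ ω, P e) * (∏ e ∈ E \ ω, (1 - P e)) * ((Hs Λ ω).card : ℝ)

section Graph

variable {V : Type} (G : SimpleGraph V) [G.LocallyFinite]

/-- the edges of `G` touching `Λ` -/
noncomputable def ed (Λ : Finset V) : Finset (Sym2 V) :=
  Λ.biUnion (fun x => (G.neighborFinset x).image (fun y => s(x, y)))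

/-- the edges of `G` inside `Λ` -/
noncomputable def ed0 (Λ : Finset V) : Finset (Sym2 V) :=
  (ed G Λ).filter (fun e => ∀ x ∈ e, x ∈ Λ)

/-- opening probability of the FK representation at inverse temperature `β` -/
noncomputable def pr (β : ℝ) : ℝ := 1 - Real.exp (-2 * β)

/-- finite volume correlation with plus boundary condition -/
noncomputable def Tp (β : ℝ) (Λ A : Finset V) : ℝ := corr (fun _ => pr β) (ed G Λ) Λ A

/-- finite volume correlation with free boundary condition -/
noncomputable def Tf (β : ℝ) (Λ A : Finset V) : ℝ := corr (fun _ => pr β) (ed0 G Λ) Λ A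

/-- infinite volume correlation, plus boundary condition -/
noncomputable def tp (β : ℝ) (A : Finset V) : ℝ := ⨅ Λ : Finset V, Tp G β Λ A

/-- infinite volume correlation, free boundary condition -/
noncomputable def tf (β : ℝ) (A : Finset V) : ℝ := ⨆ Λ : Finset V, Tf G β (Λ ∪ A) A

end Graph

/-! ### Automorphisms and configurations -/

/-- `g` is an automorphism of `G`. -/
def IsAut {V : Type} (G : SimpleGraph V) (g : V ≃ V) : Prop :=
  ∀ x y, G.Adj (g x) (g y) ↔ G.Adj x y

/-- percolation configurations -/
abbrev Om (V : Type) := Sym2 V → Bool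

/-- the graph of open edges of `G` -/
def og {V : Type} (G : SimpleGraph V) (ω : Om V) : SimpleGraph V where
  Adj x y := G.Adj x y ∧ ω s(x, y) = true
  symm := ⟨fun x y h => ⟨h.1.symm, by rw [Sym2.eq_swap]; exact h.2⟩⟩
  loopless := ⟨fun x h => h.1.ne rfl⟩

/-- the cluster of `x` -/
def cl {V : Type} (G : SimpleGraph V) (ω : Om V) (x : V) : Set V := {y | (og G ω).Reachable x y}

/-- the permutation `g` of `V` acting on configurations -/
def sh {V : Type} (g : V ≃ V) (ω : Om V) : Om V := fun e => ω (e.map g.symm)

/-- The mass transport principle for a group acting on `V`. -/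
def MTP (Γ V : Type) [Group Γ] [MulAction Γ V] : Prop :=
  ∀ f : V → V → ENNReal, (∀ (γ : Γ) (x y : V), f (γ • x) (γ • y) = f x y) →
    ∀ o : V, ∑' z, f o z = ∑' z, f z o

end MP8622
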