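import Pool.Agent.Lib.MP_8622f1_pr.Spec

set_option autoImplicit false

open Classical Filter Topology MeasureTheory

/-!
Module PHI: the infinite volume wired FK measure.
-/

namespace MP8622

namespace Phi

variable {V : Type}

section basic

variable (G : SimpleGraph V) [G.LocallyFinite]

lemma mem_ed {Λ : Finset V} {e : Sym2 V} :
    e ∈ ed G Λ ↔ e ∈ G.edgeSet ∧ ∃ x ∈ e, x ∈ Λ := by
  unfold ed
  simp only [Finset.mem_biUnion, Finset.mem_image, SimpleGraph.mem_neighborFinset]
  constructor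
  · rintro ⟨x, hx, y, hxy, rfl⟩
    exact ⟨by simpa using hxy, x, by simp, hx⟩
  · rintro ⟨he, x, hxe, hx⟩
    obtain ⟨y, rfl⟩ := hxe
    exact ⟨x, hx, y, by simpa using he, rfl⟩

lemma ed_mono {Λ Λ' : Finset V} (h : Λ ⊆ Λ') : ed G Λ ⊆ ed G Λ' := by
  intro e he
  rw [mem_ed] at he ⊢
  obtain ⟨h1, x, hx, hx'⟩ := he
  exact ⟨h1, x, hx, h hx'⟩

lemma mem_ed0 {Λ : Finset V} {e : Sym2 V} :
    e ∈ ed0 G Λ ↔ e ∈ ed G Λ ∧ ∀ x ∈ e, x ∈ Λ := by
  simp [ed0]

lemma not_touch {Λ : Finset V} {e : Sym2 V} (he : e ∈ G.edgeSet) (h : e ∉ ed G Λ) :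
    ∀ x ∈ e, x ∉ Λ := by
  intro x hx hx'
  exact h ((mem_ed G).2 ⟨he, x, hx, hx'⟩)

lemma mono_of_not_touch {S Λ : Finset V} (hS : S ⊆ Λ) {e : Sym2 V} (h : ∀ x ∈ e, x ∉ Λ) :
    Mono S e := by
  intro x hx y hy
  exact ⟨fun h' => absurd (hS h') (h x hx), fun h' => absurd (hS h') (h y hy)⟩

lemma pr_nonneg {β : ℝ} (hβ : 0 ≤ β) : 0 ≤ pr β := by
  unfold pr
  have : Real.exp (-2 * β) ≤ 1 := Real.exp_le_one_iff.2 (by linarith)
  linarith

lemma pr_lt_one (β : ℝ) : pr β < 1 := by
  unfold pr
  have := Real.exp_pos (-2 * β)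
  linarith

lemma fw_nonneg {P : Sym2 V → ℝ} (h0 : ∀ e, 0 ≤ P e) (h1 : ∀ e, P e ≤ 1)
    (E : Finset (Sym2 V)) (Λ : Finset V) (ω : Finset (Sym2 V)) : 0 ≤ fw P E Λ ω := by
  unfold fw
  refine mul_nonneg (mul_nonneg ?_ ?_) (Nat.cast_nonneg _)
  · exact Finset.prod_nonneg fun e _ => h0 e
  · exact Finset.prod_nonneg fun e _ => by linarith [h1 e]

/-- The configuration: open edges of `w`, everything not touching `Λ` open. -/
noncomputable def conf (Λ : Finset V) (w : Finset (Sym2 V)) : Om V :=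
  fun e => decide (e ∈ w ∨ e ∉ ed G Λ)

/-- The partition function. -/
noncomputable def Z (β : ℝ) (Λ : Finset V) : ℝ :=
  ∑ ω ∈ (ed G Λ).powerset, fw (fun _ => pr β) (ed G Λ) Λ ω

/-- The finite volume probability of an event (numerator). -/
noncomputable def mn (β : ℝ) (Λ : Finset V) (D : Set (Om V)) : ℝ :=
  ∑ ω ∈ (ed G Λ).powerset, (if conf G Λ ω ∈ D then 1 else 0) * fw (fun _ => pr β) (ed G Λ) Λ ω

/-- The finite volume measure. -/
noncomputable def mu (β : ℝ) (Λ : Finset V) : Measure (Om V) :=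
  ∑ ω ∈ (ed G Λ).powerset,
    ENNReal.ofReal (fw (fun _ => pr β) (ed G Λ) Λ ω / Z G β Λ) • Measure.dirac (conf G Λ ω)

lemma Z_pos {β : ℝ} (hβ : 0 ≤ β) (Λ : Finset V) : 0 < Z G β Λ := by
  unfold Z
  refine Finset.sum_pos' (fun ω _ => fw_nonneg (fun _ => pr_nonneg hβ)
    (fun _ => (pr_lt_one β).le) _ _ _) ⟨∅, by simp, ?_⟩
  unfold fw
  have h1 : 0 < 1 - pr β := by linarith [pr_lt_one β]
  have h2 : (∅ : Finset V) ∈ Hs Λ ∅ := by simp [Hs]
  have h3 : 0 < ((Hs Λ ∅).card : ℝ) := by exact_mod_cast Finset.card_pos.2 ⟨_, h2⟩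
  have h4 : 0 < ∏ e ∈ ed G Λ \ ∅, (1 - pr β) := Finset.prod_pos fun _ _ => h1
  simp only [Finset.prod_empty, one_mul]
  exact mul_pos h4 h3

lemma mn_nonneg {β : ℝ} (hβ : 0 ≤ β) (Λ : Finset V) (D : Set (Om V)) : 0 ≤ mn G β Λ D := by
  unfold mn
  refine Finset.sum_nonneg fun ω _ => mul_nonneg (by split_ifs <;> norm_num)
    (fw_nonneg (fun _ => pr_nonneg hβ) (fun _ => (pr_lt_one β).le) _ _ _)

lemma mu_apply {β : ℝ} (hβ : 0 ≤ β) (Λ : Finset V) {D : Set (Om V)} (hD : MeasurableSet D) :
    mu G β Λ D = ENNReal.ofReal (mn G β Λ D / Z G β Λ) := by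
  unfold mu mn
  rw [Measure.finsetSum_apply, Finset.sum_div, ENNReal.ofReal_sum_of_nonneg]
  · refine Finset.sum_congr rfl fun ω _ => ?_
    rw [Measure.smul_apply, Measure.dirac_apply' _ hD, smul_eq_mul]
    by_cases h : conf G Λ ω ∈ D
    · simp [h]
    · simp [h]
  · intro ω _
    refine div_nonneg (mul_nonneg (by split_ifs <;> norm_num)
      (fw_nonneg (fun _ => pr_nonneg hβ) (fun _ => (pr_lt_one β).le) _ _ _)) (Z_pos G hβ Λ).le

lemma mn_univ (β : ℝ) (Λ : Finset V) : mn G β Λ Set.univ = Z G β Λ := by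
  simp [mn, Z]

lemma mu_prob {β : ℝ} (hβ : 0 ≤ β) (Λ : Finset V) : IsProbabilityMeasure (mu G β Λ) := by
  constructor
  rw [mu_apply G hβ Λ MeasurableSet.univ, mn_univ, div_self (Z_pos G hβ Λ).ne']
  simp

lemma mn_mono {β : ℝ} (hβ : 0 ≤ β) (Λ : Finset V) {D D' : Set (Om V)} (h : D ⊆ D') :
    mn G β Λ D ≤ mn G β Λ D' := by
  unfold mn
  refine Finset.sum_le_sum fun ω _ => mul_le_mul_of_nonneg_right ?_
    (fw_nonneg (fun _ => pr_nonneg hβ) (fun _ => (pr_lt_one β).le) _ _ _)
  by_cases h1 : conf G Λ ω ∈ D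
  · simp [h1, h h1]
  · simp only [h1, if_false]
    split_ifs <;> norm_num

/-- Increasing events. -/
def Up (D : Set (Om V)) : Prop :=
  ∀ ω ω' : Om V, (∀ e, ω e = true → ω' e = true) → ω ∈ D → ω' ∈ D

lemma conf_mono (Λ : Finset V) {a b : Finset (Sym2 V)} (h : a ⊆ b) :
    ∀ e, conf G Λ a e = true → conf G Λ b e = true := by
  intro e he
  simp only [conf, decide_eq_true_eq] at he ⊢
  exact he.imp (fun h' => h h') id

/-- Monotonicity in the volume. -/
lemma mn_anti (hH : SpecHolley) {β : ℝ} (hβ : 0 ≤ β) {Λ Λ' : Finset V} (hΛ : Λ ⊆ Λ')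
    {D : Set (Om V)} (hD : Up D) :
    mn G β Λ' D / Z G β Λ' ≤ mn G β Λ D / Z G β Λ := by
  set p := pr β with hp
  have hp0 : 0 ≤ p := pr_nonneg hβ
  have hp1 : p < 1 := pr_lt_one β
  set E := ed G Λ with hE
  set E' := ed G Λ' with hE'
  have hEE : E ⊆ E' := ed_mono G hΛ
  let P' : Sym2 V → ℝ := fun e => if e ∈ E then p else 1
  have key := hH V (fun _ => p) P' E' Λ Λ' (fun _ => hp0)
    (fun e => by simp only [P']; split_ifs <;> linarith)
    (fun e => by simp only [P']; split_ifs <;> linarith) hΛ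
    (fun ω => if conf G Λ' ω ∈ D then 1 else 0)
    (fun a => by split_ifs <;> norm_num)
    (fun a b hab _ => by
      by_cases h1 : conf G Λ' a ∈ D
      · rw [if_pos h1, if_pos (hD _ _ (conf_mono G Λ' hab) h1)]
      · rw [if_neg h1]
        split_ifs <;> norm_num)
  -- transfer of sums
  have trans : ∀ f : Finset (Sym2 V) → ℝ,
      ∑ ω ∈ E'.powerset, f ω * fw P' E' Λ ω =
        ∑ w ∈ E.powerset, f (w ∪ (E' \ E)) * fw (fun _ => p) E Λ w := by
    intro f
    have hinj : Set.InjOn (fun w : Finset (Sym2 V) => w ∪ (E' \ E)) (E.powerset : Set _) := by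
      intro a ha b hb hab
      simp only [Finset.coe_powerset, Set.mem_preimage, Set.mem_powerset_iff,
        Finset.coe_subset] at ha hb
      have h1 : ∀ w : Finset (Sym2 V), w ⊆ E → (w ∪ (E' \ E)) ∩ E = w := by
        intro w hw
        ext e
        simp only [Finset.mem_inter, Finset.mem_union, Finset.mem_sdiff]
        constructor
        · rintro ⟨h | h, h'⟩
          · exact h
          · exact absurd h' h.2
        · intro h
          exact ⟨Or.inl h, hw h⟩
      have h2 := congrArg (fun w => w ∩ E) hab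
      simp only [h1 a ha, h1 b hb] at h2
      exact h2
    rw [← Finset.sum_subset (s₁ := E.powerset.image (fun w => w ∪ (E' \ E)))]
    · rw [Finset.sum_image hinj]
      refine Finset.sum_congr rfl fun w hw => ?_
      rw [Finset.mem_powerset] at hw
      congr 1
      unfold fw
      have hd : Disjoint w (E' \ E) := by
        rw [Finset.disjoint_left]
        intro e he he'
        exact (Finset.mem_sdiff.1 he').2 (hw he)
      have e1 : ∏ e ∈ w ∪ (E' \ E), P' e = ∏ e ∈ w, p := by
        rw [Finset.prod_union hd]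
        have a1 : ∏ e ∈ E' \ E, P' e = 1 := by
          refine Finset.prod_eq_one fun e he => ?_
          simp only [P', if_neg (Finset.mem_sdiff.1 he).2]
        rw [a1, mul_one]
        refine Finset.prod_congr rfl fun e he => ?_
        simp only [P', if_pos (hw he)]
      have e2 : E' \ (w ∪ (E' \ E)) = E \ w := by
        ext e
        simp only [Finset.mem_sdiff, Finset.mem_union, not_or, not_and, not_not]
        constructor
        · rintro ⟨h1, h2, h3⟩
          exact ⟨h3 h1, h2⟩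
        · rintro ⟨h1, h2⟩
          exact ⟨hEE h1, h2, fun _ => h1⟩
      have e3 : ∏ e ∈ E \ w, (1 - P' e) = ∏ e ∈ E \ w, (1 - p) := by
        refine Finset.prod_congr rfl fun e he => ?_
        simp only [P', if_pos (Finset.mem_sdiff.1 he).1]
      have e4 : Hs Λ (w ∪ (E' \ E)) = Hs Λ w := by
        unfold Hs
        refine Finset.filter_congr fun S hS => ?_
        rw [Finset.mem_powerset] at hS
        constructor
        · intro h e he
          exact h e (Finset.mem_union_left _ he)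
        · intro h e he
          rcases Finset.mem_union.1 he with he | he
          · exact h e he
          · rw [Finset.mem_sdiff] at he
            exact mono_of_not_touch hS (not_touch G ((mem_ed G).1 he.1).1 he.2)
      rw [e1, e2, e3, e4]
    · intro ω hω
      obtain ⟨w, hw, rfl⟩ := Finset.mem_image.1 hω
      rw [Finset.mem_powerset] at hw ⊢
      exact Finset.union_subset (hw.trans hEE) Finset.sdiff_subset
    · intro ω hω hn
      rw [Finset.mem_powerset] at hω
      have hex : ∃ e ∈ E' \ E, e ∉ ω := by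
        by_contra hcon
        push Not at hcon
        apply hn
        refine Finset.mem_image.2 ⟨ω ∩ E, by simp, ?_⟩
        ext e
        simp only [Finset.mem_union, Finset.mem_inter]
        constructor
        · rintro (h | h)
          · exact h.1
          · exact hcon e h
        · intro h
          by_cases h' : e ∈ E
          · exact Or.inl ⟨h, h'⟩
          · exact Or.inr (Finset.mem_sdiff.2 ⟨hω h, h'⟩)
      obtain ⟨e, he, hne⟩ := hex
      have hz : ∏ e ∈ E' \ ω, (1 - P' e) = 0 := by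
        refine Finset.prod_eq_zero (i := e) (Finset.mem_sdiff.2 ⟨(Finset.mem_sdiff.1 he).1, hne⟩) ?_
        simp only [P', if_neg (Finset.mem_sdiff.1 he).2, sub_self]
      simp [fw, hz]
  have hconf : ∀ w ⊆ E, conf G Λ' (w ∪ (E' \ E)) = conf G Λ w := by
    intro w hw
    funext e
    simp only [conf, decide_eq_decide, Finset.mem_union, Finset.mem_sdiff]
    change ((e ∈ w ∨ e ∈ E' ∧ e ∉ E) ∨ e ∉ E') ↔ (e ∈ w ∨ e ∉ E)
    constructor
    · rintro ((h | h) | h)
      · exact Or.inl h
      · exact Or.inr h.2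
      · exact Or.inr fun h' => h (hEE h')
    · rintro (h | h)
      · exact Or.inl (Or.inl h)
      · by_cases h' : e ∈ E'
        · exact Or.inl (Or.inr ⟨h', h⟩)
        · exact Or.inr h'
  have t1 := trans (fun ω => if conf G Λ' ω ∈ D then 1 else 0)
  have t2 := trans (fun _ => 1)
  simp only [one_mul] at t2
  have t3 : ∑ w ∈ E.powerset, (if conf G Λ' (w ∪ (E' \ E)) ∈ D then (1 : ℝ) else 0) *
      fw (fun _ => p) E Λ w = mn G β Λ D := by
    unfold mn
    refine Finset.sum_congr rfl fun w hw => ?_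
    rw [hconf w (Finset.mem_powerset.1 hw)]
  rw [t1, t2, t3] at key
  have hZ := Z_pos G hβ Λ
  have hZ' := Z_pos G hβ Λ'
  rw [div_le_div_iff₀ hZ' hZ]
  calc mn G β Λ' D * Z G β Λ ≤ Z G β Λ' * mn G β Λ D := key
    _ = mn G β Λ D * Z G β Λ' := mul_comm _ _

/-- The Edwards-Sokal event. -/
def EA (Λ A : Finset V) : Set (Om V) :=
  {ω | ∀ S : Finset V, S ⊆ Λ → (∀ e ∈ ed G Λ, ω e = true → Mono S e) → Even (A ∩ S).card}

lemma EA_up (Λ A : Finset V) : Up (EA G Λ A) := by
  intro ω ω' h hω S hS hm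
  exact hω S hS fun e he he' => hm e he (h e he')

lemma EA_anti {Λ Λ' A : Finset V} (h : Λ ⊆ Λ') : EA G Λ' A ⊆ EA G Λ A := by
  intro ω hω S hS hm
  refine hω S (hS.trans h) fun e he he' => ?_
  by_cases h1 : e ∈ ed G Λ
  · exact hm e h1 he'
  · exact mono_of_not_touch hS (not_touch G ((mem_ed G).1 he).1 h1)

lemma conf_mem_EA (Λ A : Finset V) {w : Finset (Sym2 V)} (hw : w ⊆ ed G Λ) :
    conf G Λ w ∈ EA G Λ A ↔ ∀ S ∈ Hs Λ w, Even (A ∩ S).card := by
  unfold EA Hs
  simp only [Set.mem_ofPred_eq, Finset.mem_filter, Finset.mem_powerset]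
  constructor
  · rintro h S ⟨hS, hm⟩
    refine h S hS fun e he he' => ?_
    simp only [conf, decide_eq_true_eq] at he'
    rcases he' with he' | he'
    · exact hm e he'
    · exact absurd he he'
  · intro h S hS hm
    refine h S ⟨hS, fun e he => hm e (hw he) ?_⟩
    simp [conf, he]

lemma mn_EA (hES : SpecES) (β : ℝ) (Λ A : Finset V) :
    mn G β Λ (EA G Λ A) / Z G β Λ = Tp G β Λ A := by
  have h1 := hES V (fun _ => pr β) (ed G Λ) Λ A
  have h2 := hES V (fun _ => pr β) (ed G Λ) Λ ∅
  have h3 : mn G β Λ (EA G Λ A) = ∑ S ∈ Λ.powerset, chi A S * sw (fun _ => pr β) (ed G Λ) S := by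
    rw [← h1]
    unfold mn
    refine Finset.sum_congr rfl fun w hw => ?_
    rw [Finset.mem_powerset] at hw
    congr 1
    simp only [conf_mem_EA G Λ A hw]
  have h4 : Z G β Λ = ∑ S ∈ Λ.powerset, sw (fun _ => pr β) (ed G Λ) S := by
    have : ∑ S ∈ Λ.powerset, chi ∅ S * sw (fun _ => pr β) (ed G Λ) S =
        ∑ S ∈ Λ.powerset, sw (fun _ => pr β) (ed G Λ) S := by
      refine Finset.sum_congr rfl fun S _ => ?_
      simp [chi]
    rw [← this, ← h2]
    unfold Z
    refine Finset.sum_congr rfl fun w _ => ?_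
    simp
  rw [h3, h4]
  rfl

end basic

/-! ### topology -/

lemma isClopen_of_dep (F : Finset (Sym2 V)) (D : Set (Om V))
    (h : ∀ ω ω' : Om V, (∀ e ∈ F, ω e = ω' e) → ω ∈ D → ω' ∈ D) : IsClopen D := by
  have h1 : D = (fun ω : Om V => fun e : F => ω e) ⁻¹' ((fun ω : Om V => fun e : F => ω e) '' D) := by
    ext ω
    constructor
    · intro hω
      exact ⟨ω, hω, rfl⟩
    · rintro ⟨ω', hω', he⟩
      exact h ω' ω (fun e he' => congrFun he ⟨e, he'⟩) hω'
  rw [h1]
  exact (isClopen_discrete _).preimage (by fun_prop)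

lemma meas_of_clopen [Countable V] {D : Set (Om V)} (h : IsClopen D) : MeasurableSet D :=
  h.isOpen.measurableSet

lemma sh_measurable (g : V ≃ V) : Measurable (sh g : Om V → Om V) :=
  measurable_pi_iff.2 fun e => measurable_pi_apply _

/-- All edges of `F` are open. -/
def CF (F : Finset (Sym2 V)) : Set (Om V) := {ω | ∀ e ∈ F, ω e = true}

lemma CF_up (F : Finset (Sym2 V)) : Up (CF F) := fun _ _ h hω e he => h e (hω e he)

lemma CF_clopen (F : Finset (Sym2 V)) : IsClopen (CF F) :=
  isClopen_of_dep F _ fun ω ω' h hω e he => by rw [← h e he]; exact hω e he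

lemma generate_CF : (inferInstance : MeasurableSpace (Om V)) =
    MeasurableSpace.generateFrom (Set.range (CF (V := V))) := by
  apply le_antisymm
  · refine iSup_le fun e => ?_
    rw [← measurable_iff_comap_le]
    refine @measurable_to_bool _ (MeasurableSpace.generateFrom (Set.range (CF (V := V)))) _ ?_
    refine MeasurableSpace.measurableSet_generateFrom ⟨{e}, ?_⟩
    ext ω
    simp [CF]
  · refine MeasurableSpace.generateFrom_le ?_
    rintro _ ⟨F, rfl⟩
    have : CF F = ⋂ e ∈ F, (fun ω : Om V => ω e) ⁻¹' {true} := by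
      ext ω
      simp [CF]
    rw [this]
    exact Finset.measurableSet_biInter F fun e _ =>
      (measurable_pi_apply e) (MeasurableSet.singleton true)

lemma pi_CF : IsPiSystem (Set.range (CF (V := V))) := by
  rintro _ ⟨F, rfl⟩ _ ⟨F', rfl⟩ _
  refine ⟨F ∪ F', ?_⟩
  ext ω
  simp only [CF, Finset.mem_union, Set.mem_ofPred_eq, Set.mem_inter_iff]
  exact ⟨fun h => ⟨fun e he => h e (Or.inl he), fun e he => h e (Or.inr he)⟩,
    fun h e he => he.elim (h.1 e) (h.2 e)⟩

/-! ### invariance of the finite volume measures -/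

section aut

variable (G : SimpleGraph V) [G.LocallyFinite]

lemma mem_edgeSet_map {g : V ≃ V} (hg : IsAut G g) (e : Sym2 V) :
    e.map g ∈ G.edgeSet ↔ e ∈ G.edgeSet := by
  induction e using Sym2.ind with
  | _ x y => simpa using hg x y

lemma ed_image {g : V ≃ V} (hg : IsAut G g) (Λ : Finset V) :
    ed G (Λ.image g) = (ed G Λ).image (Sym2.map g) := by
  ext e
  rw [mem_ed, Finset.mem_image]
  constructor
  · rintro ⟨he, x, hx, hx'⟩
    obtain ⟨y, hy, rfl⟩ := Finset.mem_image.1 hx'
    have h1 : (e.map g.symm).map g = e := by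
      rw [Sym2.map_map]
      simp
    refine ⟨e.map g.symm, (mem_ed G).2 ⟨?_, y, ?_, hy⟩, h1⟩
    · rw [← mem_edgeSet_map G hg, h1]
      exact he
    · rw [Sym2.mem_map]
      exact ⟨g y, hx, by simp⟩
  · rintro ⟨e', he', rfl⟩
    obtain ⟨h1, x, hx, hx'⟩ := (mem_ed G).1 he'
    exact ⟨(mem_edgeSet_map G hg _).2 h1, g x, Sym2.mem_map.2 ⟨x, hx, rfl⟩,
      Finset.mem_image_of_mem _ hx'⟩

lemma mono_image (g : V ≃ V) (S : Finset V) (e : Sym2 V) :
    Mono (S.image g) (e.map g) ↔ Mono S e := by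
  unfold Mono
  constructor
  · intro h x hx y hy
    have := h (g x) (Sym2.mem_map.2 ⟨x, hx, rfl⟩) (g y) (Sym2.mem_map.2 ⟨y, hy, rfl⟩)
    simpa using this
  · intro h x hx y hy
    obtain ⟨x', hx', rfl⟩ := Sym2.mem_map.1 hx
    obtain ⟨y', hy', rfl⟩ := Sym2.mem_map.1 hy
    have := h x' hx' y' hy'
    simpa using this

lemma card_Hs_image (g : V ≃ V) (Λ : Finset V) (w : Finset (Sym2 V)) :
    (Hs (Λ.image g) (w.image (Sym2.map g))).card = (Hs Λ w).card := by
  symm
  refine Finset.card_bij (fun S _ => S.image g) ?_ ?_ ?_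
  · intro S hS
    simp only [Hs, Finset.mem_filter, Finset.mem_powerset] at hS ⊢
    refine ⟨Finset.image_subset_image hS.1, fun e he => ?_⟩
    obtain ⟨e', he', rfl⟩ := Finset.mem_image.1 he
    exact (mono_image g S e').2 (hS.2 e' he')
  · intro S _ S' _ h
    exact Finset.image_injective g.injective h
  · intro S hS
    simp only [Hs, Finset.mem_filter, Finset.mem_powerset] at hS
    have h1 : (S.image g.symm).image g = S := by
      rw [Finset.image_image]
      simp
    refine ⟨S.image g.symm, ?_, h1⟩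
    simp only [Hs, Finset.mem_filter, Finset.mem_powerset]
    constructor
    · intro x hx
      obtain ⟨y, hy, rfl⟩ := Finset.mem_image.1 hx
      obtain ⟨z, hz, hz'⟩ := Finset.mem_image.1 (hS.1 hy)
      rw [← hz']
      simpa using hz
    · intro e he
      rw [← mono_image g, h1]
      exact hS.2 _ (Finset.mem_image_of_mem _ he)

lemma fw_image {g : V ≃ V} (p : ℝ) (E : Finset (Sym2 V)) (Λ : Finset V) (w : Finset (Sym2 V)) :
    fw (fun _ => p) (E.image (Sym2.map g)) (Λ.image g) (w.image (Sym2.map g)) =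
      fw (fun _ => p) E Λ w := by
  have hinj : Function.Injective (Sym2.map g : Sym2 V → Sym2 V) := Sym2.map.injective g.injective
  unfold fw
  rw [card_Hs_image, ← Finset.image_sdiff _ _ hinj]
  simp only [Finset.prod_const, Finset.card_image_of_injective _ hinj]

lemma conf_image {g : V ≃ V} (hg : IsAut G g) (Λ : Finset V) (w : Finset (Sym2 V)) :
    conf G (Λ.image g) (w.image (Sym2.map g)) = sh g (conf G Λ w) := by
  funext e
  have h1 : ∀ F : Finset (Sym2 V), e ∈ F.image (Sym2.map g) ↔ e.map g.symm ∈ F := by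
    intro F
    rw [Finset.mem_image]
    constructor
    · rintro ⟨e', he', rfl⟩
      rw [Sym2.map_map]
      simpa using he'
    · intro h
      refine ⟨_, h, ?_⟩
      rw [Sym2.map_map]
      simp
  unfold sh conf
  simp only [ed_image G hg, h1]

lemma mn_image {g : V ≃ V} (hg : IsAut G g) (β : ℝ) (Λ : Finset V) (D : Set (Om V)) :
    mn G β (Λ.image g) D = mn G β Λ (sh g ⁻¹' D) := by
  have hinj : Function.Injective (Sym2.map g : Sym2 V → Sym2 V) := Sym2.map.injective g.injective
  unfold mn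
  symm
  refine Finset.sum_bij (fun w _ => w.image (Sym2.map g)) ?_ ?_ ?_ ?_
  · intro w hw
    rw [Finset.mem_powerset] at hw ⊢
    rw [ed_image G hg]
    exact Finset.image_subset_image hw
  · intro a _ b _ h
    exact Finset.image_injective hinj h
  · intro w hw
    rw [Finset.mem_powerset, ed_image G hg] at hw
    have h1 : (w.image (Sym2.map g.symm)).image (Sym2.map g) = w := by
      have h2 : (Sym2.map g ∘ Sym2.map g.symm : Sym2 V → Sym2 V) = id := by
        funext e
        simp only [Function.comp_apply, Sym2.map_map, id]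
        simp
      rw [Finset.image_image, h2, Finset.image_id]
    refine ⟨w.image (Sym2.map g.symm), ?_, h1⟩
    rw [Finset.mem_powerset]
    intro e he
    obtain ⟨e', he', rfl⟩ := Finset.mem_image.1 he
    obtain ⟨e'', he'', rfl⟩ := Finset.mem_image.1 (hw he')
    rw [Sym2.map_map]
    simpa using he''
  · intro w _
    rw [conf_image G hg, ed_image G hg, fw_image]
    rfl

lemma Z_image {g : V ≃ V} (hg : IsAut G g) (β : ℝ) (Λ : Finset V) :
    Z G β (Λ.image g) = Z G β Λ := by
  rw [← mn_univ, ← mn_univ, mn_image G hg]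
  rfl

lemma mu_image [Countable V] {β : ℝ} (hβ : 0 ≤ β) {g : V ≃ V} (hg : IsAut G g) (Λ : Finset V)
    {D : Set (Om V)} (hD : MeasurableSet D) :
    mu G β (Λ.image g) D = mu G β Λ (sh g ⁻¹' D) := by
  rw [mu_apply G hβ _ hD, mu_apply G hβ _ (sh_measurable g hD), mn_image G hg, Z_image G hg]

end aut

/-! ### clusters -/

section cluster

variable (G : SimpleGraph V) [G.LocallyFinite]

lemma reach_mem {ω : Om V} {S Λ : Finset V} (hS : S ⊆ Λ)
    (hm : ∀ e ∈ ed G Λ, ω e = true → Mono S e) {x y : V} (hx : x ∈ S)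
    (h : (og G ω).Reachable x y) : y ∈ S := by
  obtain ⟨p⟩ := h
  induction p with
  | nil => exact hx
  | @cons u v w huv p ih =>
    apply ih
    have h1 : s(u, v) ∈ ed G Λ := (mem_ed G).2 ⟨by simpa using huv.1, u, by simp, hS hx⟩
    exact (hm _ h1 huv.2 u (by simp) v (by simp)).1 hx

lemma not_mem_of_infinite {ω : Om V} {S Λ : Finset V} (hS : S ⊆ Λ)
    (hm : ∀ e ∈ ed G Λ, ω e = true → Mono S e) {x : V} (h : (cl G ω x).Infinite) : x ∉ S := by
  intro hx
  exact h ((Finset.finite_toSet S).subset fun y hy => reach_mem G hS hm hx hy)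

lemma iInter_EA_single (x : V) : (⋂ Λ : Finset V, EA G Λ {x}) = {ω | (cl G ω x).Infinite} := by
  ext ω
  simp only [Set.mem_iInter, Set.mem_ofPred_eq]
  constructor
  · intro h hfin
    have h1 := h hfin.toFinset hfin.toFinset (Finset.Subset.refl _) (by
      intro e he ho
      obtain ⟨he, -⟩ := (mem_ed G).1 he
      induction e using Sym2.ind with
      | _ a b =>
        have hadj : (og G ω).Adj a b := ⟨by simpa using he, ho⟩
        have hab : ∀ c : V, (og G ω).Reachable x a ↔ (og G ω).Reachable x b := fun _ =>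
          ⟨fun h => h.trans hadj.reachable, fun h => h.trans hadj.symm.reachable⟩
        intro c hc d hd
        simp only [Sym2.mem_iff] at hc hd
        simp only [Set.Finite.mem_toFinset, cl, Set.mem_ofPred_eq]
        have h0 := hab x
        rcases hc with rfl | rfl <;> rcases hd with rfl | rfl <;> tauto)
    have h2 : {x} ∩ hfin.toFinset = {x} := by
      rw [Finset.inter_eq_left]
      intro y hy
      rw [Finset.mem_singleton] at hy
      subst hy
      simp only [Set.Finite.mem_toFinset, cl, Set.mem_ofPred_eq]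
      exact SimpleGraph.Reachable.refl _
    rw [h2] at h1
    simp at h1
  · intro h Λ S hS hm
    have h1 := not_mem_of_infinite G hS hm h
    rw [Finset.singleton_inter_of_notMem h1]
    simp

lemma even_pair {x y : V} (hxy : x ≠ y) (S : Finset V) :
    Even (({x, y} : Finset V) ∩ S).card ↔ (x ∈ S ↔ y ∈ S) := by
  by_cases hx : x ∈ S <;> by_cases hy : y ∈ S
  · have : ({x, y} : Finset V) ∩ S = {x, y} := by
      rw [Finset.inter_eq_left]
      intro z hz
      simp only [Finset.mem_insert, Finset.mem_singleton] at hz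
      rcases hz with rfl | rfl <;> assumption
    simp [this, hx, hy, Finset.card_pair hxy]
  · have : ({x, y} : Finset V) ∩ S = {x} := by
      ext z
      simp only [Finset.mem_inter, Finset.mem_insert, Finset.mem_singleton]
      constructor
      · rintro ⟨rfl | rfl, h⟩
        · rfl
        · exact absurd h hy
      · rintro rfl
        exact ⟨Or.inl rfl, hx⟩
    simp [this, hx, hy]
  · have : ({x, y} : Finset V) ∩ S = {y} := by
      ext z
      simp only [Finset.mem_inter, Finset.mem_insert, Finset.mem_singleton]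
      constructor
      · rintro ⟨rfl | rfl, h⟩
        · exact absurd h hx
        · rfl
      · rintro rfl
        exact ⟨Or.inr rfl, hy⟩
    simp [this, hx, hy]
  · have : ({x, y} : Finset V) ∩ S = ∅ := by
      ext z
      simp only [Finset.mem_inter, Finset.mem_insert, Finset.mem_singleton, Finset.notMem_empty,
        iff_false, not_and]
      rintro (rfl | rfl) <;> assumption
    simp [this, hx, hy]

lemma subset_iInter_EA_pair {x y : V} (hxy : x ≠ y) :
    {ω | (og G ω).Reachable x y ∨ ((cl G ω x).Infinite ∧ (cl G ω y).Infinite)} ⊆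
      ⋂ Λ : Finset V, EA G Λ {x, y} := by
  intro ω hω
  simp only [Set.mem_iInter]
  intro Λ S hS hm
  rw [even_pair hxy]
  rcases hω with h | ⟨h1, h2⟩
  · exact ⟨fun hx => reach_mem G hS hm hx h, fun hy => reach_mem G hS hm hy h.symm⟩
  · exact iff_of_false (not_mem_of_infinite G hS hm h1) (not_mem_of_infinite G hS hm h2)

lemma EA_clopen (Λ A : Finset V) : IsClopen (EA G Λ A) := by
  refine isClopen_of_dep (ed G Λ) _ fun ω ω' h hω S hS hm => ?_
  exact hω S hS fun e he he' => hm e he (by rw [← h e he]; exact he')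

/-- The event for the free boundary condition. -/
def DA (Λ : Finset V) (x y : V) : Set (Om V) :=
  {ω | ∀ S : Finset V, S ⊆ Λ → (∀ e ∈ ed0 G Λ, ω e = true → Mono S e) → (x ∈ S ↔ y ∈ S)}

lemma DA_up (Λ : Finset V) (x y : V) : Up (DA G Λ x y) := by
  intro ω ω' h hω S hS hm
  exact hω S hS fun e he he' => hm e he (h e he')

lemma DA_clopen (Λ : Finset V) (x y : V) : IsClopen (DA G Λ x y) := by
  refine isClopen_of_dep (ed0 G Λ) _ fun ω ω' h hω S hS hm => ?_
  exact hω S hS fun e he he' => hm e he (by rw [← h e he]; exact he')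

lemma DA_reach {Λ : Finset V} {x y : V} (hx : x ∈ Λ) :
    DA G Λ x y ⊆ {ω | (og G ω).Reachable x y} := by
  intro ω hω
  have h1 := hω (Λ.filter fun z => (og G ω).Reachable x z) (Finset.filter_subset _ _) (by
    intro e he ho
    obtain ⟨he1, he2⟩ := (mem_ed0 G).1 he
    obtain ⟨he1, -⟩ := (mem_ed G).1 he1
    induction e using Sym2.ind with
    | _ a b =>
      have hadj : (og G ω).Adj a b := ⟨by simpa using he1, ho⟩
      have hab : (og G ω).Reachable x a ↔ (og G ω).Reachable x b :=
        ⟨fun h => h.trans hadj.reachable, fun h => h.trans hadj.symm.reachable⟩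
      have ha : a ∈ Λ := he2 a (by simp)
      have hb : b ∈ Λ := he2 b (by simp)
      intro c hc d hd
      simp only [Sym2.mem_iff] at hc hd
      simp only [Finset.mem_filter]
      rcases hc with rfl | rfl <;> rcases hd with rfl | rfl <;> tauto)
  have h2 : x ∈ Λ.filter fun z => (og G ω).Reachable x z :=
    Finset.mem_filter.2 ⟨hx, SimpleGraph.Reachable.refl _⟩
  exact (Finset.mem_filter.1 (h1.1 h2)).2

end cluster

/-! ### free boundary condition -/

section free

variable (G : SimpleGraph V) [G.LocallyFinite]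

lemma sum_powerset_inter (Λ T : Finset V) (hd : Disjoint Λ T) (f : Finset V → ℝ) :
    ∑ S ∈ (Λ ∪ T).powerset, f (S ∩ Λ) = 2 ^ T.card * ∑ S ∈ Λ.powerset, f S := by
  induction T using Finset.induction_on with
  | empty =>
    simp only [Finset.union_empty, Finset.card_empty, pow_zero, one_mul]
    refine Finset.sum_congr rfl fun S hS => ?_
    rw [Finset.inter_eq_left.2 (Finset.mem_powerset.1 hS)]
  | insert a T ha ih =>
    have hd' : Disjoint Λ T := hd.mono_right (Finset.subset_insert _ _)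
    have haΛ : a ∉ Λ := fun h => (Finset.disjoint_left.1 hd h) (Finset.mem_insert_self _ _)
    rw [Finset.union_insert, Finset.sum_powerset_insert (by simp [haΛ, ha]), ih hd',
      Finset.card_insert_of_notMem ha]
    have : ∑ t ∈ (Λ ∪ T).powerset, f (insert a t ∩ Λ) = ∑ t ∈ (Λ ∪ T).powerset, f (t ∩ Λ) := by
      refine Finset.sum_congr rfl fun t _ => ?_
      rw [Finset.insert_inter_of_notMem haΛ]
    rw [this, ih hd']
    ring

lemma mono_inter {Λ S : Finset V} {e : Sym2 V} (h : ∀ x ∈ e, x ∈ Λ) :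
    Mono (S ∩ Λ) e ↔ Mono S e := by
  unfold Mono
  constructor
  · intro h1 x hx y hy
    have := h1 x hx y hy
    simpa [h x hx, h y hy] using this
  · intro h1 x hx y hy
    have := h1 x hx y hy
    simpa [h x hx, h y hy] using this

lemma free_le (hH : SpecHolley) (hES : SpecES) {β : ℝ} (hβ : 0 ≤ β) {Λ Λ' : Finset V}
    (hΛ : Λ ⊆ Λ') {x y : V} (hxy : x ≠ y) (hx : x ∈ Λ) (hy : y ∈ Λ) :
    Tf G β Λ {x, y} ≤ mn G β Λ' (DA G Λ x y) / Z G β Λ' := by
  set p := pr β with hp
  have hp0 : 0 ≤ p := pr_nonneg hβ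
  have hp1 : p < 1 := pr_lt_one β
  set E := ed G Λ' with hE
  have hEE : ed0 G Λ ⊆ E := (Finset.filter_subset _ _).trans (ed_mono G hΛ)
  let P : Sym2 V → ℝ := fun e => if e ∈ ed0 G Λ then p else 0
  have hP0 : ∀ e, 0 ≤ P e := fun e => by simp only [P]; split_ifs <;> linarith
  have hP1 : ∀ e, P e ≤ p := fun e => by simp only [P]; split_ifs <;> linarith
  have key := hH V P (fun _ => p) E Λ' Λ' hP0 hP1 (fun _ => hp1.le) (Finset.Subset.refl _)
    (fun ω => if conf G Λ' ω ∈ DA G Λ x y then 1 else 0)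
    (fun a => by split_ifs <;> norm_num)
    (fun a b hab _ => by
      by_cases h1 : conf G Λ' a ∈ DA G Λ x y
      · rw [if_pos h1, if_pos (DA_up G Λ x y _ _ (conf_mono G Λ' hab) h1)]
      · rw [if_neg h1]
        split_ifs <;> norm_num)
  have hA : ({x, y} : Finset V) ⊆ Λ := by
    intro z hz
    simp only [Finset.mem_insert, Finset.mem_singleton] at hz
    rcases hz with rfl | rfl <;> assumption
  -- the sums for `P`
  have hsw : ∀ S, sw P E S = sw (fun _ => p) (ed0 G Λ) (S ∩ Λ) := by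
    intro S
    unfold sw
    rw [← Finset.prod_subset hEE]
    · refine Finset.prod_congr rfl fun e he => ?_
      have h1 : Mono (S ∩ Λ) e ↔ Mono S e := mono_inter ((mem_ed0 G).1 he).2
      simp only [P, if_pos he, h1]
    · intro e _ he
      simp only [P, if_neg he, sub_zero, ite_self]
  have hunion : Λ ∪ (Λ' \ Λ) = Λ' := Finset.union_sdiff_of_subset hΛ
  have hs : ∀ f : Finset V → ℝ, ∑ S ∈ Λ'.powerset, f (S ∩ Λ) =
      2 ^ (Λ' \ Λ).card * ∑ S ∈ Λ.powerset, f S := by
    intro f
    have := sum_powerset_inter Λ (Λ' \ Λ) Finset.disjoint_sdiff f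
    rwa [hunion] at this
  have hchi : ∀ S : Finset V, chi {x, y} S = chi {x, y} (S ∩ Λ) := by
    intro S
    unfold chi
    congr 2
    ext z
    simp only [Finset.mem_inter]
    exact ⟨fun h => ⟨h.1, h.2, hA h.1⟩, fun h => ⟨h.1, h.2.1⟩⟩
  have n1 : ∑ ω ∈ E.powerset, (if conf G Λ' ω ∈ DA G Λ x y then (1 : ℝ) else 0) * fw P E Λ' ω =
      2 ^ (Λ' \ Λ).card *
        ∑ S ∈ Λ.powerset, chi {x, y} S * sw (fun _ => p) (ed0 G Λ) S := by
    rw [← hs (fun S => chi {x, y} S * sw (fun _ => p) (ed0 G Λ) S)]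
    have := hES V P E Λ' {x, y}
    rw [show ∑ S ∈ Λ'.powerset, chi {x, y} (S ∩ Λ) * sw (fun _ => p) (ed0 G Λ) (S ∩ Λ) =
      ∑ S ∈ Λ'.powerset, chi {x, y} S * sw P E S from
      Finset.sum_congr rfl fun S _ => by rw [hsw, ← hchi], ← this]
    refine Finset.sum_congr rfl fun ω hω => ?_
    rw [Finset.mem_powerset] at hω
    by_cases hsub : ω ⊆ ed0 G Λ
    · congr 1
      refine if_congr ?_ rfl rfl
      constructor
      · intro h S hS
        rw [even_pair hxy]
        simp only [Hs, Finset.mem_filter, Finset.mem_powerset] at hS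
        have h1 := h (S ∩ Λ) Finset.inter_subset_right (by
          intro e he ho
          rw [mono_inter ((mem_ed0 G).1 he).2]
          simp only [conf, decide_eq_true_eq] at ho
          rcases ho with ho | ho
          · exact hS.2 e ho
          · exact absurd (hEE he) ho)
        simpa [hx, hy] using h1
      · intro h S hS hm
        have h1 := h S (by
          simp only [Hs, Finset.mem_filter, Finset.mem_powerset]
          refine ⟨hS.trans hΛ, fun e he => hm e (hsub he) ?_⟩
          simp [conf, he])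
        rwa [even_pair hxy] at h1
    · obtain ⟨e, he, hne⟩ := Finset.not_subset.1 hsub
      have : fw P E Λ' ω = 0 := by
        unfold fw
        rw [Finset.prod_eq_zero he (by simp only [P, if_neg hne])]
        simp
      rw [this]
      simp
  have n2 : ∑ ω ∈ E.powerset, fw P E Λ' ω =
      2 ^ (Λ' \ Λ).card * ∑ S ∈ Λ.powerset, sw (fun _ => p) (ed0 G Λ) S := by
    rw [← hs (fun S => sw (fun _ => p) (ed0 G Λ) S)]
    have := hES V P E Λ' ∅
    have h1 : ∑ S ∈ Λ'.powerset, chi ∅ S * sw P E S =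
        ∑ S ∈ Λ'.powerset, sw (fun _ => p) (ed0 G Λ) (S ∩ Λ) := by
      refine Finset.sum_congr rfl fun S _ => ?_
      rw [hsw]
      simp [chi]
    rw [← h1, ← this]
    refine Finset.sum_congr rfl fun ω _ => ?_
    simp
  rw [n1, n2] at key
  have hZ := Z_pos G hβ Λ'
  have hs0 : 0 < ∑ S ∈ Λ.powerset, sw (fun _ => p) (ed0 G Λ) S := by
    refine Finset.sum_pos (fun S _ => ?_) ⟨∅, by simp⟩
    unfold sw
    refine Finset.prod_pos fun e _ => ?_
    split_ifs
    · norm_num
    · linarith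
  have h2 : (0 : ℝ) < 2 ^ (Λ' \ Λ).card := by positivity
  unfold Tf corr
  rw [div_le_div_iff₀ hs0 hZ]
  have key' : 2 ^ (Λ' \ Λ).card *
      ((∑ S ∈ Λ.powerset, chi {x, y} S * sw (fun _ => p) (ed0 G Λ) S) * Z G β Λ') ≤
      2 ^ (Λ' \ Λ).card *
      (mn G β Λ' (DA G Λ x y) * ∑ S ∈ Λ.powerset, sw (fun _ => p) (ed0 G Λ) S) := by
    calc _ = 2 ^ (Λ' \ Λ).card *
        (∑ S ∈ Λ.powerset, chi {x, y} S * sw (fun _ => p) (ed0 G Λ) S) * Z G β Λ' := by ring
      _ ≤ _ := key
      _ = _ := by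
        change _ * mn G β Λ' (DA G Λ x y) = _
        ring
  exact le_of_mul_le_mul_left key' h2

end free

end Phi

open Phi in
theorem specPhi (hH : SpecHolley) (hES : SpecES) (hLim : SpecLim) : SpecPhi := by
  intro V _ G _ β hβ
  let U : Ultrafilter (Finset V) := Ultrafilter.of atTop
  have hU : (U : Filter (Finset V)) ≤ atTop := Ultrafilter.of_le _
  obtain ⟨φ, hφ, hlim⟩ := hLim (Sym2 V) (Finset V) U (fun Λ => mu G β Λ) (fun Λ => mu_prob G hβ Λ)
  -- antitonicity
  have hanti : ∀ K : Set (Om V), IsClopen K → Up K → Antitone fun Λ => mu G β Λ K := by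
    intro K hK hKu Λ Λ' h
    simp only
    rw [mu_apply G hβ _ (meas_of_clopen hK), mu_apply G hβ _ (meas_of_clopen hK)]
    exact ENNReal.ofReal_le_ofReal (mn_anti G hH hβ h hKu)
  have hinf : ∀ K : Set (Om V), IsClopen K → Up K → φ K = ⨅ Λ, mu G β Λ K := by
    intro K hK hKu
    exact tendsto_nhds_unique (hlim K hK) ((tendsto_atTop_iInf (hanti K hK hKu)).mono_left hU)
  have hbdd : ∀ A : Finset V, BddBelow (Set.range fun Λ => Tp G β Λ A) := by
    intro A
    refine ⟨0, ?_⟩
    rintro _ ⟨Λ, rfl⟩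
    simp only
    rw [← mn_EA G hES]
    exact div_nonneg (mn_nonneg G hβ _ _) (Z_pos G hβ _).le
  have hmuEA : ∀ Λ A : Finset V, mu G β Λ (EA G Λ A) = ENNReal.ofReal (Tp G β Λ A) := by
    intro Λ A
    rw [mu_apply G hβ _ (meas_of_clopen (EA_clopen G Λ A)), mn_EA G hES]
  -- upper bound
  have hup : ∀ Λ A : Finset V, φ (EA G Λ A) ≤ ENNReal.ofReal (Tp G β Λ A) := by
    intro Λ A
    rw [hinf _ (EA_clopen G Λ A) (EA_up G Λ A), ← hmuEA]
    exact iInf_le _ Λ
  have hlow : ∀ Λ A : Finset V, ENNReal.ofReal (tp G β A) ≤ φ (EA G Λ A) := by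
    intro Λ A
    rw [hinf _ (EA_clopen G Λ A) (EA_up G Λ A)]
    refine le_iInf fun Λ₁ => ?_
    calc ENNReal.ofReal (tp G β A) ≤ ENNReal.ofReal (Tp G β (Λ ∪ Λ₁) A) :=
          ENNReal.ofReal_le_ofReal (ciInf_le (hbdd A) _)
      _ = mu G β (Λ ∪ Λ₁) (EA G (Λ ∪ Λ₁) A) := (hmuEA _ _).symm
      _ ≤ mu G β (Λ ∪ Λ₁) (EA G Λ A) := measure_mono (EA_anti G Finset.subset_union_left)
      _ ≤ mu G β Λ₁ (EA G Λ A) := hanti _ (EA_clopen G Λ A) (EA_up G Λ A)
          Finset.subset_union_right
  have hint : ∀ A : Finset V, φ (⋂ Λ, EA G Λ A) = ENNReal.ofReal (tp G β A) := by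
    intro A
    have h1 : φ (⋂ Λ, EA G Λ A) = ⨅ Λ, φ (EA G Λ A) := by
      refine Directed.measure_iInter
        (fun Λ => (meas_of_clopen (EA_clopen G Λ A)).nullMeasurableSet) ?_
        ⟨∅, measure_ne_top _ _⟩
      intro Λ Λ'
      exact ⟨Λ ∪ Λ', EA_anti G Finset.subset_union_left, EA_anti G Finset.subset_union_right⟩
    rw [h1]
    refine le_antisymm ?_ (le_iInf fun Λ => hlow Λ A)
    refine le_of_forall_gt fun c hc => ?_
    by_cases hctop : c = ⊤
    · rw [hctop]
      exact (iInf_le _ ∅).trans_lt (measure_lt_top _ _)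
    · have h2 : tp G β A < c.toReal := by
        by_contra hcon
        push Not at hcon
        have : c ≤ ENNReal.ofReal (tp G β A) := by
          rw [← ENNReal.ofReal_toReal hctop]
          exact ENNReal.ofReal_le_ofReal hcon
        exact absurd hc (not_lt.2 this)
      obtain ⟨Λ, hΛ⟩ := exists_lt_of_ciInf_lt h2
      have h0 : 0 ≤ Tp G β Λ A := by
        rw [← mn_EA G hES]
        exact div_nonneg (mn_nonneg G hβ _ _) (Z_pos G hβ _).le
      calc ⨅ Λ, φ (EA G Λ A) ≤ φ (EA G Λ A) := iInf_le _ Λ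
        _ ≤ ENNReal.ofReal (Tp G β Λ A) := hup Λ A
        _ < ENNReal.ofReal c.toReal :=
          (ENNReal.ofReal_lt_ofReal_iff (h0.trans_lt hΛ)).2 hΛ
        _ = c := ENNReal.ofReal_toReal hctop
  refine ⟨φ, hφ, ?_, ?_, ?_, ?_⟩
  · intro g hg
    have hmap : IsProbabilityMeasure (φ.map (sh g)) :=
      Measure.isProbabilityMeasure_map (sh_measurable g).aemeasurable
    refine ext_of_generate_finite (Set.range (CF (V := V))) generate_CF pi_CF ?_ (by simp)
    rintro _ ⟨F, rfl⟩
    have hmeas := meas_of_clopen (CF_clopen F)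
    rw [Measure.map_apply (sh_measurable g) hmeas]
    have hup' : Up (sh g ⁻¹' CF F) := fun ω ω' h hω e he => h _ (hω e he)
    have hcl' : IsClopen (sh g ⁻¹' CF F) := (CF_clopen F).preimage (by
      unfold sh
      fun_prop)
    rw [hinf _ hcl' hup', hinf _ (CF_clopen F) (CF_up F)]
    have hsurj : Function.Surjective (fun Λ : Finset V => Λ.image g) := by
      intro Λ
      refine ⟨Λ.image g.symm, ?_⟩
      simp only
      rw [Finset.image_image]
      simp
    conv_rhs => rw [← hsurj.iInf_comp]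
    exact iInf_congr fun Λ => (mu_image G hβ hg Λ hmeas).symm
  · intro x
    rw [← iInter_EA_single G x]
    exact hint {x}
  · intro x y hxy
    refine ENNReal.ofReal_le_of_le_toReal ?_
    unfold tf
    refine ciSup_le fun Λ => ?_
    have hx : x ∈ Λ ∪ {x, y} := by simp
    have hy : y ∈ Λ ∪ {x, y} := by simp
    have h1 : ENNReal.ofReal (Tf G β (Λ ∪ {x, y}) {x, y}) ≤ φ (DA G (Λ ∪ {x, y}) x y) := by
      rw [hinf _ (DA_clopen G _ x y) (DA_up G _ x y)]
      refine le_iInf fun Λ₁ => ?_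
      calc ENNReal.ofReal (Tf G β (Λ ∪ {x, y}) {x, y})
          ≤ mu G β ((Λ ∪ {x, y}) ∪ Λ₁) (DA G (Λ ∪ {x, y}) x y) := by
            rw [mu_apply G hβ _ (meas_of_clopen (DA_clopen G _ x y))]
            exact ENNReal.ofReal_le_ofReal
              (free_le G hH hES hβ Finset.subset_union_left hxy hx hy)
        _ ≤ mu G β Λ₁ (DA G (Λ ∪ {x, y}) x y) :=
            hanti _ (DA_clopen G _ x y) (DA_up G _ x y) Finset.subset_union_right
    have h2 := h1.trans (measure_mono (DA_reach G hx))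
    exact (ENNReal.ofReal_le_iff_le_toReal (measure_ne_top _ _)).1 h2
  · intro x y hxy
    rw [← hint {x, y}]
    exact measure_mono (subset_iInter_EA_pair G hxy)

end MP8622
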