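import Pool.Agent.Lib.MP_8622f1_pr.Spec

set_option autoImplicit false

/-!
# SECOND: the second moment method
-/

open Filter Topology MeasureTheory

namespace MP8622

lemma Second.lin {Ω : Type} [MeasurableSpace Ω] {μ : Measure Ω} {a b c : Ω → ℝ} {s t : ℝ}
    (ha : Integrable a μ) (hb : Integrable b μ) (hc : Integrable c μ) :
    ∫ ω, (a ω - s * b ω + t * c ω) ∂μ = (∫ ω, a ω ∂μ) - s * (∫ ω, b ω ∂μ) + t * ∫ ω, c ω ∂μ := by
  rw [← integral_const_mul, ← integral_const_mul, ← integral_sub ha (hb.const_mul s)]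
  exact integral_add (ha.sub (hb.const_mul s)) (hc.const_mul t)

/-- SECOND -/
theorem specSecond : SpecSecond := by
  classical
  intro Ω V _ μ hμ A hV hA m hm hAm hY
  set U : Set Ω := ⋃ y, A y with hU
  have hUm : MeasurableSet U := MeasurableSet.iUnion hA
  -- the basic inequality
  have key : ∀ δ : ℝ, 0 < δ → ∀ N : ℕ, 0 < N → m ^ 2 * (1 - μ.real U) ≤ m / N + δ := by
    intro δ hδ N hN
    obtain ⟨Y, hYc, hYp⟩ := hY δ hδ N
    have hN' : (0 : ℝ) < N := Nat.cast_pos.2 hN
    set f : Ω → ℝ := fun ω => ∑ y ∈ Y, (A y).indicator (fun _ => (1 : ℝ)) ω with hf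
    set u : Ω → ℝ := U.indicator (fun _ => (1 : ℝ)) with hu
    have hfu : ∀ ω, f ω * u ω = f ω := by
      intro ω
      by_cases h : ω ∈ U
      · rw [hu, Set.indicator_of_mem h, mul_one]
      · rw [hu, Set.indicator_of_notMem h, mul_zero]
        symm
        refine Finset.sum_eq_zero fun y _ => Set.indicator_of_notMem (fun h' => h ?_) _
        exact Set.mem_iUnion.2 ⟨y, h'⟩
    have huu : ∀ ω, u ω * u ω = u ω := by
      intro ω
      by_cases h : ω ∈ U
      · rw [hu, Set.indicator_of_mem h, mul_one]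
      · rw [hu, Set.indicator_of_notMem h, mul_zero]
    have hff : ∀ ω, f ω * f ω =
        ∑ y ∈ Y, ∑ z ∈ Y, (A y ∩ A z).indicator (fun _ => (1 : ℝ)) ω := by
      intro ω
      simp only [hf]
      rw [Finset.sum_mul_sum]
      refine Finset.sum_congr rfl fun y _ => Finset.sum_congr rfl fun z _ => ?_
      by_cases h1 : ω ∈ A y
      · by_cases h2 : ω ∈ A z
        · rw [Set.indicator_of_mem h1, Set.indicator_of_mem h2,
            Set.indicator_of_mem (show ω ∈ A y ∩ A z from ⟨h1, h2⟩), mul_one]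
        · rw [Set.indicator_of_notMem h2, Set.indicator_of_notMem
            (show ω ∉ A y ∩ A z from fun h => h2 h.2), mul_zero]
      · rw [Set.indicator_of_notMem h1, Set.indicator_of_notMem
          (show ω ∉ A y ∩ A z from fun h => h1 h.1), zero_mul]
    have hint : ∀ B : Set Ω, MeasurableSet B →
        Integrable (B.indicator (fun _ => (1 : ℝ))) μ ∧
          ∫ ω, B.indicator (fun _ => (1 : ℝ)) ω ∂μ = μ.real B := by
      intro B hB
      refine ⟨(integrable_const 1).indicator hB, ?_⟩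
      rw [integral_indicator_const 1 hB, smul_eq_mul, mul_one]
    have hfi : Integrable f μ := integrable_finsetSum _ fun y _ => (hint _ (hA y)).1
    have hui : Integrable u μ := (hint _ hUm).1
    have hffi : Integrable (fun ω => ∑ y ∈ Y, ∑ z ∈ Y,
        (A y ∩ A z).indicator (fun _ => (1 : ℝ)) ω) μ :=
      integrable_finsetSum _ fun y _ => integrable_finsetSum _ fun z _ =>
        (hint _ ((hA y).inter (hA z))).1
    have i1 : ∫ ω, f ω ∂μ = N * m := by
      simp only [hf]
      rw [integral_finsetSum _ fun y _ => (hint _ (hA y)).1]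
      rw [Finset.sum_congr rfl fun y _ => (hint _ (hA y)).2.trans (hAm y), Finset.sum_const,
        hYc, nsmul_eq_mul]
    have i2 : ∫ ω, u ω ∂μ = μ.real U := (hint _ hUm).2
    have i3 : ∫ ω, (∑ y ∈ Y, ∑ z ∈ Y, (A y ∩ A z).indicator (fun _ => (1 : ℝ)) ω) ∂μ =
        ∑ y ∈ Y, ∑ z ∈ Y, μ.real (A y ∩ A z) := by
      rw [integral_finsetSum _ fun y _ => integrable_finsetSum _ fun z _ =>
        (hint _ ((hA y).inter (hA z))).1]
      refine Finset.sum_congr rfl fun y _ => ?_
      rw [integral_finsetSum _ fun z _ => (hint _ ((hA y).inter (hA z))).1]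
      exact Finset.sum_congr rfl fun z _ => (hint _ ((hA y).inter (hA z))).2
    have hsum : ∑ y ∈ Y, ∑ z ∈ Y, μ.real (A y ∩ A z) ≤ N * m + N * (N * (m ^ 2 + δ)) := by
      have h1 : ∀ y ∈ Y, ∀ z ∈ Y, μ.real (A y ∩ A z) ≤ (if y = z then m else 0) + (m ^ 2 + δ) := by
        intro y hy z hz
        by_cases h : y = z
        · subst h
          rw [if_pos rfl, Set.inter_self, hAm y]
          nlinarith [sq_nonneg m]
        · rw [if_neg h, zero_add]
          exact hYp y hy z hz h
      refine (Finset.sum_le_sum fun y hy => Finset.sum_le_sum fun z hz => h1 y hy z hz).trans ?_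
      have h2 : ∀ y ∈ Y, ∑ z ∈ Y, ((if y = z then m else 0) + (m ^ 2 + δ)) =
          m + N * (m ^ 2 + δ) := by
        intro y hy
        rw [Finset.sum_add_distrib, Finset.sum_ite_eq, if_pos hy, Finset.sum_const, hYc,
          nsmul_eq_mul]
      rw [Finset.sum_congr rfl h2, Finset.sum_const, hYc, nsmul_eq_mul]
      exact le_of_eq (by ring)
    have h0 : 0 ≤ ∫ ω, (f ω - N * m * u ω) ^ 2 ∂μ := integral_nonneg fun ω => sq_nonneg _
    have e : (fun ω => (f ω - N * m * u ω) ^ 2) = fun ω =>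
        (∑ y ∈ Y, ∑ z ∈ Y, (A y ∩ A z).indicator (fun _ => (1 : ℝ)) ω) -
          2 * (N * m) * f ω + (N * m) ^ 2 * u ω := by
      funext ω
      rw [← hff ω]
      have := hfu ω
      have h3 := huu ω
      calc (f ω - N * m * u ω) ^ 2 = f ω * f ω - 2 * (N * m) * (f ω * u ω) +
            (N * m) ^ 2 * (u ω * u ω) := by ring
        _ = _ := by rw [this, h3]
    have e2 : ∫ ω, ((∑ y ∈ Y, ∑ z ∈ Y, (A y ∩ A z).indicator (fun _ => (1 : ℝ)) ω) -
        2 * (N * m) * f ω + (N * m) ^ 2 * u ω) ∂μ =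
        (∑ y ∈ Y, ∑ z ∈ Y, μ.real (A y ∩ A z)) - 2 * (N * m) * (N * m) +
          (N * m) ^ 2 * μ.real U := by
      rw [Second.lin hffi hfi hui, i1, i2, i3]
    rw [e, e2] at h0
    have h4 : N * (N * (m ^ 2 * (1 - μ.real U))) ≤ N * (N * (m / N + δ)) := by
      have : (N : ℝ) * (N * (m / N + δ)) = N * m + N * (N * δ) := by
        field_simp
      rw [this]
      nlinarith
    exact le_of_mul_le_mul_left (le_of_mul_le_mul_left h4 hN') hN'
  -- the conclusion
  have hP : 1 ≤ μ.real U := by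
    by_contra hcon
    push Not at hcon
    set η : ℝ := m ^ 2 * (1 - μ.real U) with hη
    have hη0 : 0 < η := by
      have : 0 < 1 - μ.real U := by linarith
      positivity
    obtain ⟨N, hN⟩ := exists_nat_gt (4 * m / η)
    have hN0 : (0 : ℝ) < N := lt_trans (by positivity) hN
    have h1 := key (η / 4) (by positivity) N (Nat.cast_pos.1 hN0)
    have h2 : m / N ≤ η / 4 := by
      rw [div_lt_iff₀ hη0] at hN
      rw [div_le_iff₀ hN0]
      linarith
    linarith
  have h5 : μ.real U = 1 := le_antisymm measureReal_le_one hP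
  rw [measureReal_def, ENNReal.toReal_eq_one_iff] at h5
  exact h5

end MP8622
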