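import Pool.Agent.Lib.MP_8622f1_pr.Mtpc

set_option autoImplicit false

open Classical Filter Topology MeasureTheory

/-!
If free and plus two point functions agree at every `β > 0` on a unimodular nonamenable transitive
graph, then there are invariant random nonempty connected sets of vertices of arbitrarily small
density.
-/

namespace MP8622

/-! ### Magnetisation at infinite temperature -/

theorem tp_zero {V : Type} (G : SimpleGraph V) [G.LocallyFinite] (o : V) : tp G 0 {o} = 0 := by
  refine le_antisymm ?_ (tp_nonneg G le_rfl _)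
  refine (tp_le G le_rfl {o} {o}).trans (le_of_eq ?_)
  unfold Tp corr
  have hsw : ∀ S : Finset V, sw (fun _ => pr 0) (ed G {o}) S = 1 := by
    intro S
    unfold sw pr
    refine Finset.prod_eq_one fun e _ => ?_
    simp
  simp only [hsw, mul_one]
  have : ({o} : Finset V).powerset = {∅, {o}} := by
    ext S
    simp [Finset.subset_singleton_iff]
  rw [this, Finset.sum_pair (Finset.singleton_ne_empty o).symm]
  simp [chi]

/-! ### The critical point argument (real analysis) -/

/-- two point function with the value one on the diagonal -/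
noncomputable def T1 {V : Type} (G : SimpleGraph V) [G.LocallyFinite] (o : V) (Λ : Finset V)
    (β : ℝ) (z : V) : ℝ := if z = o then 1 else Tf G β (Λ ∪ {o, z}) {o, z}

theorem large {V : Type} (G : SimpleGraph V) [G.LocallyFinite] (o : V)
    (ρ : NNReal) (hρ : ρ < 1) (q : ℕ → V → V → NNReal)
    (hq1 : ∀ n x, ∃ B : Finset V, (∀ z, z ∉ B → q n x z = 0) ∧ ∑ z ∈ B, q n x z = 1)
    (hq2 : ∀ x z, q 1 x z ≠ 0 → z = x ∨ G.Adj x z)
    (hA : ∀ β : ℝ, 0 ≤ β → tp G β {o} = 0 → ∀ (n : ℕ) (Λ B : Finset V),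
      ∑ z ∈ B, (q n o z : ℝ) * T1 G o Λ β z ≤ (ρ : ℝ) ^ n) :
    ∃ β : ℝ, 0 ≤ β ∧ 0 < tp G β {o} := by
  by_contra hcon
  push Not at hcon
  obtain ⟨B, hB1, hB2⟩ := hq1 1 o
  have key : ∀ β : ℝ, 0 ≤ β → (1 - Real.exp (-2 * β)) / (1 + Real.exp (-2 * β)) ≤ (ρ : ℝ) := by
    intro β hβ
    have hm : tp G β {o} = 0 := le_antisymm (hcon β hβ) (tp_nonneg G hβ _)
    have h1 := hA β hβ hm 1 ∅ B
    rw [pow_one] at h1
    refine le_trans ?_ h1
    have hle1 : (1 - Real.exp (-2 * β)) / (1 + Real.exp (-2 * β)) ≤ 1 := by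
      rw [div_le_one (by positivity)]
      linarith [Real.exp_pos (-2 * β)]
    have h2 : ∀ z ∈ B, (q 1 o z : ℝ) * ((1 - Real.exp (-2 * β)) / (1 + Real.exp (-2 * β))) ≤
        (q 1 o z : ℝ) * T1 G o ∅ β z := by
      intro z _
      by_cases hz : q 1 o z = 0
      · rw [hz]; simp
      · refine mul_le_mul_of_nonneg_left ?_ (NNReal.coe_nonneg _)
        unfold T1
        split_ifs with hzo
        · exact hle1
        · rcases hq2 o z hz with h3 | h3
          · exact absurd h3 hzo
          · rw [Finset.empty_union, Tf_edge G β h3]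
    calc (1 - Real.exp (-2 * β)) / (1 + Real.exp (-2 * β))
        = ∑ z ∈ B, (q 1 o z : ℝ) * ((1 - Real.exp (-2 * β)) / (1 + Real.exp (-2 * β))) := by
          rw [← Finset.sum_mul]
          have : ∑ z ∈ B, (q 1 o z : ℝ) = 1 := by exact_mod_cast hB2
          rw [this, one_mul]
      _ ≤ _ := Finset.sum_le_sum h2
  have hlim : Tendsto (fun β : ℝ => (1 - Real.exp (-2 * β)) / (1 + Real.exp (-2 * β))) atTop
      (𝓝 ((1 - 0) / (1 + 0))) := by
    have h3 : Tendsto (fun β : ℝ => Real.exp (-2 * β)) atTop (𝓝 0) := by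
      have h4 : Tendsto (fun β : ℝ => -2 * β) atTop atBot :=
        tendsto_id.const_mul_atTop_of_neg (by norm_num)
      exact Real.tendsto_exp_atBot.comp h4
    exact (tendsto_const_nhds.sub h3).div (tendsto_const_nhds.add h3) (by norm_num)
  have h5 : ((1 : ℝ) - 0) / (1 + 0) ≤ (ρ : ℝ) := by
    refine le_of_tendsto hlim ?_
    filter_upwards [eventually_ge_atTop (0 : ℝ)] with β hβ using key β hβ
  have h6 : (ρ : ℝ) < 1 := by exact_mod_cast hρ
  norm_num at h5
  exact absurd h5 (not_le.2 hρ)

theorem crit {V : Type} (G : SimpleGraph V) [G.LocallyFinite] (o : V)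
    (htr : ∀ x y : V, ∃ g : V ≃ V, IsAut G g ∧ g x = y)
    (b : ℝ) (hb : sInf {β : ℝ | 0 ≤ β ∧ 0 < tp G β {o}} < b)
    (heq : ∀ β : ℝ, 0 < β → β < b → ∀ x y : V, x ≠ y → tf G β {x, y} = tp G β {x, y})
    (ρ : NNReal) (hρ : ρ < 1) (q : ℕ → V → V → NNReal)
    (hq1 : ∀ n x, ∃ B : Finset V, (∀ z, z ∉ B → q n x z = 0) ∧ ∑ z ∈ B, q n x z = 1)
    (hq2 : ∀ x z, q 1 x z ≠ 0 → z = x ∨ G.Adj x z)
    (hA : ∀ β : ℝ, 0 ≤ β → tp G β {o} = 0 → ∀ (n : ℕ) (Λ B : Finset V),
      ∑ z ∈ B, (q n o z : ℝ) * T1 G o Λ β z ≤ (ρ : ℝ) ^ n) :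
    ∀ ε : ℝ, 0 < ε → ∃ β : ℝ, 0 < β ∧ β < b ∧ 0 < tp G β {o} ∧ tp G β {o} < ε := by
  have hlarge := large G o ρ hρ q hq1 hq2 hA
  set I : Set ℝ := {β | 0 ≤ β ∧ 0 < tp G β {o}} with hI
  have hne : I.Nonempty := hlarge
  have hbdd : BddBelow I := ⟨0, fun β hβ => hβ.1⟩
  set βc : ℝ := sInf I with hβc
  have hβc0 : 0 ≤ βc := le_csInf hne fun β hβ => hβ.1
  have hbelow : ∀ β : ℝ, 0 ≤ β → β < βc → tp G β {o} = 0 := by
    intro β hβ hlt
    by_contra h1
    have h2 : β ∈ I := ⟨hβ, lt_of_le_of_ne (tp_nonneg G hβ _) (Ne.symm h1)⟩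
    exact absurd (csInf_le hbdd h2) (not_le.2 hlt)
  -- the magnetisation vanishes at the critical point
  have hcrit : tp G βc {o} = 0 := by
    by_contra hmc
    have hmc' : 0 < tp G βc {o} := lt_of_le_of_ne (tp_nonneg G hβc0 _) (Ne.symm hmc)
    have hβcpos : 0 < βc := by
      rcases hβc0.lt_or_eq with h | h
      · exact h
      · rw [← h, tp_zero] at hmc'
        exact absurd hmc' (lt_irrefl _)
    have h1 : ∀ (n : ℕ) (Λ B : Finset V), ∑ z ∈ B, (q n o z : ℝ) * T1 G o Λ βc z ≤ (ρ : ℝ) ^ n := by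
      intro n Λ B
      have hcont : Continuous fun β : ℝ => ∑ z ∈ B, (q n o z : ℝ) * T1 G o Λ β z := by
        refine continuous_finsetSum _ fun z _ => continuous_const.mul ?_
        unfold T1
        split_ifs
        · exact continuous_const
        · exact continuous_Tf G _ _
      have h2 : Tendsto (fun β : ℝ => ∑ z ∈ B, (q n o z : ℝ) * T1 G o Λ β z) (𝓝[<] βc)
          (𝓝 (∑ z ∈ B, (q n o z : ℝ) * T1 G o Λ βc z)) :=
        (hcont.tendsto βc).mono_left nhdsWithin_le_nhds
      refine le_of_tendsto h2 ?_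
      have h3 : ∀ᶠ β in 𝓝[<] βc, 0 ≤ β :=
        nhdsWithin_le_nhds (le_mem_nhds hβcpos)
      filter_upwards [h3, self_mem_nhdsWithin] with β hβ1 hβ2
      exact hA β hβ1 (hbelow β hβ1 hβ2) n Λ B
    have h4 : ∀ n : ℕ, tp G βc {o} ^ 2 ≤ (ρ : ℝ) ^ n := by
      intro n
      obtain ⟨B, hB1, hB2⟩ := hq1 n o
      have h5 : Tendsto (fun Λ : Finset V => ∑ z ∈ B, (q n o z : ℝ) * T1 G o Λ βc z) atTop
          (𝓝 (∑ z ∈ B, (q n o z : ℝ) * (if z = o then 1 else tf G βc {o, z}))) := by
        refine tendsto_finsetSum _ fun z _ => Tendsto.const_mul _ ?_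
        unfold T1
        split_ifs
        · exact tendsto_const_nhds
        · refine (tendsto_Tf G hβc0 {o, z}).congr' ?_
          filter_upwards [eventually_ge_atTop ({o, z} : Finset V)] with Λ hΛ
          rw [Finset.union_eq_left.2 hΛ]
      have h6 : ∑ z ∈ B, (q n o z : ℝ) * (if z = o then 1 else tf G βc {o, z}) ≤ (ρ : ℝ) ^ n :=
        le_of_tendsto' h5 fun Λ => h1 n Λ B
      refine le_trans ?_ h6
      have hle1 : tp G βc {o} ^ 2 ≤ 1 :=
        pow_le_one₀ (tp_nonneg G hβc0 _) (tp_le_one G hβc0 _)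
      calc tp G βc {o} ^ 2 = ∑ z ∈ B, (q n o z : ℝ) * tp G βc {o} ^ 2 := by
            rw [← Finset.sum_mul]
            have : ∑ z ∈ B, (q n o z : ℝ) = 1 := by exact_mod_cast hB2
            rw [this, one_mul]
        _ ≤ _ := by
            refine Finset.sum_le_sum fun z _ => mul_le_mul_of_nonneg_left ?_ (NNReal.coe_nonneg _)
            split_ifs with hz
            · exact hle1
            · rw [heq βc hβcpos hb o z (fun h => hz h.symm)]
              exact sq_le_tp G hβc0 htr (fun h => hz h.symm) o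
    have h7 : Tendsto (fun n : ℕ => (ρ : ℝ) ^ n) atTop (𝓝 0) :=
      tendsto_pow_atTop_nhds_zero_of_lt_one (NNReal.coe_nonneg _) (by exact_mod_cast hρ)
    have h8 : tp G βc {o} ^ 2 ≤ 0 := ge_of_tendsto' h7 h4
    nlinarith [sq_nonneg (tp G βc {o})]
  -- small positive magnetisation slightly above the critical point
  intro ε hε
  have h1 : ∃ Λ : Finset V, Tp G βc Λ {o} < ε := by
    have h2 : (⨅ Λ : Finset V, Tp G βc Λ {o}) < ε := by
      have : (⨅ Λ : Finset V, Tp G βc Λ {o}) = tp G βc {o} := rfl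
      rw [this, hcrit]
      exact hε
    exact exists_lt_of_ciInf_lt h2
  obtain ⟨Λ, hΛ⟩ := h1
  have h3 : ∀ᶠ β in 𝓝 βc, Tp G β Λ {o} < ε :=
    (continuous_Tp G Λ {o}).continuousAt.eventually (gt_mem_nhds hΛ)
  obtain ⟨δ, hδ, hball⟩ := Metric.eventually_nhds_iff.1 h3
  obtain ⟨β, hβI, hβlt'⟩ := exists_lt_of_csInf_lt hne
    (show sInf I < min (βc + δ) b from lt_min (by linarith) hb)
  have hβlt : β < βc + δ := hβlt'.trans_le (min_le_left _ _)
  have hβb : β < b := hβlt'.trans_le (min_le_right _ _)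
  have hβge : βc ≤ β := csInf_le hbdd hβI
  have h4 : Tp G β Λ {o} < ε := by
    apply hball
    rw [Real.dist_eq, abs_of_nonneg (by linarith)]
    linarith
  refine ⟨β, ?_, hβb, hβI.2, (tp_le G hβI.1 Λ {o}).trans_lt h4⟩
  rcases hβI.1.lt_or_eq with h | h
  · exact h
  · exfalso
    have h5 := hβI.2
    rw [← h, tp_zero] at h5
    exact lt_irrefl _ h5

/-! ### Clusters and automorphisms -/

theorem sh_apply {V : Type} (g : V ≃ V) (ω : Om V) (x y : V) :
    sh g ω s(g x, g y) = ω s(x, y) := by
  unfold sh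
  rw [Sym2.map_mk, Equiv.symm_apply_apply, Equiv.symm_apply_apply]

theorem og_sh {V : Type} {G : SimpleGraph V} {g : V ≃ V} (hg : IsAut G g) (ω : Om V) (x y : V) :
    (og G (sh g ω)).Adj (g x) (g y) ↔ (og G ω).Adj x y := by
  show G.Adj (g x) (g y) ∧ sh g ω s(g x, g y) = true ↔ G.Adj x y ∧ ω s(x, y) = true
  rw [hg x y, sh_apply]

theorem reach_sh {V : Type} {G : SimpleGraph V} {g : V ≃ V} (hg : IsAut G g) (ω : Om V)
    (x y : V) : (og G (sh g ω)).Reachable (g x) (g y) ↔ (og G ω).Reachable x y := by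
  let e : og G ω ≃g og G (sh g ω) := ⟨g, fun {a b} => og_sh hg ω a b⟩
  exact e.reachable_iff

theorem cl_sh {V : Type} {G : SimpleGraph V} {g : V ≃ V} (hg : IsAut G g) (ω : Om V) (x : V) :
    cl G (sh g ω) (g x) = g '' cl G ω x := by
  ext z
  constructor
  · intro hz
    refine ⟨g.symm z, ?_, g.apply_symm_apply z⟩
    show (og G ω).Reachable x (g.symm z)
    rw [← reach_sh hg, g.apply_symm_apply]
    exact hz
  · rintro ⟨y, hy, rfl⟩
    exact (reach_sh hg ω x y).2 hy

theorem infinite_cl_sh {V : Type} {G : SimpleGraph V} {g : V ≃ V} (hg : IsAut G g) (ω : Om V)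
    (x : V) : (cl G (sh g ω) (g x)).Infinite ↔ (cl G ω x).Infinite := by
  rw [cl_sh hg]
  exact Set.infinite_image_iff g.injective.injOn

/-! ### Measurability -/

theorem measurableSet_adj {V : Type} (G : SimpleGraph V) (x y : V) :
    MeasurableSet {ω : Om V | (og G ω).Adj x y} := by
  show MeasurableSet {ω : Om V | G.Adj x y ∧ ω s(x, y) = true}
  by_cases h : G.Adj x y
  · simp only [h, true_and]
    exact measurableSet_eq_fun (measurable_pi_apply _) measurable_const
  · simp only [h, false_and, Set.ofPred_false]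
    exact MeasurableSet.empty

theorem measurableSet_reach {V : Type} [Countable V] (G : SimpleGraph V) (x y : V) :
    MeasurableSet {ω : Om V | (og G ω).Reachable x y} := by
  have h1 : ∀ n : ℕ, ∀ y : V,
      MeasurableSet {ω : Om V | ∃ w : (og G ω).Walk x y, w.length = n} := by
    intro n
    induction n with
    | zero =>
      intro y
      by_cases h : x = y
      · subst h
        have : {ω : Om V | ∃ w : (og G ω).Walk x x, w.length = 0} = Set.univ := by
          ext ω
          simp only [Set.mem_ofPred_eq, Set.mem_univ, iff_true]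
          exact ⟨SimpleGraph.Walk.nil, rfl⟩
        rw [this]
        exact MeasurableSet.univ
      · have : {ω : Om V | ∃ w : (og G ω).Walk x y, w.length = 0} = ∅ := by
          ext ω
          simp only [Set.mem_ofPred_eq, Set.mem_empty_iff_false, iff_false]
          rintro ⟨w, hw⟩
          exact h (SimpleGraph.Walk.eq_of_length_eq_zero hw)
        rw [this]
        exact MeasurableSet.empty
    | succ n ih =>
      intro y
      have : {ω : Om V | ∃ w : (og G ω).Walk x y, w.length = n + 1} =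
          ⋃ z : V, {ω : Om V | ∃ w : (og G ω).Walk x z, w.length = n} ∩
            {ω : Om V | (og G ω).Adj z y} := by
        ext ω
        simp only [Set.mem_ofPred_eq, Set.mem_iUnion, Set.mem_inter_iff]
        constructor
        · rintro ⟨w, hw⟩
          have hne : ¬ w.reverse.Nil := by
            intro h
            have h2 := SimpleGraph.Walk.length_eq_zero_iff.2 h
            rw [SimpleGraph.Walk.length_reverse] at h2
            omega
          refine ⟨w.reverse.snd, ⟨w.reverse.tail.reverse, ?_⟩, (w.reverse.adj_snd hne).symm⟩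
          have h3 := SimpleGraph.Walk.length_tail_add_one hne
          rw [SimpleGraph.Walk.length_reverse] at h3 ⊢
          omega
        · rintro ⟨z, ⟨w, hw⟩, hz⟩
          exact ⟨w.concat hz, by rw [SimpleGraph.Walk.length_concat, hw]⟩
      rw [this]
      exact MeasurableSet.iUnion fun z => (ih z).inter (measurableSet_adj G z y)
  have h2 : {ω : Om V | (og G ω).Reachable x y} =
      ⋃ n : ℕ, {ω : Om V | ∃ w : (og G ω).Walk x y, w.length = n} := by
    ext ω
    simp only [Set.mem_ofPred_eq, Set.mem_iUnion]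
    constructor
    · rintro ⟨w⟩
      exact ⟨w.length, w, rfl⟩
    · rintro ⟨n, w, _⟩
      exact ⟨w⟩
  rw [h2]
  exact MeasurableSet.iUnion fun n => h1 n y

theorem measurableSet_infinite {V : Type} [Countable V] (G : SimpleGraph V) (x : V) :
    MeasurableSet {ω : Om V | (cl G ω x).Infinite} := by
  have : {ω : Om V | (cl G ω x).Infinite} =
      ⋂ K : Finset V, ⋃ y : V, {ω : Om V | y ∉ K ∧ (og G ω).Reachable x y} := by
    ext ω
    simp only [Set.mem_ofPred_eq, Set.mem_iInter, Set.mem_iUnion]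
    constructor
    · intro h K
      obtain ⟨y, hy, hyK⟩ := h.exists_notMem_finset K
      exact ⟨y, hyK, hy⟩
    · intro h hfin
      obtain ⟨y, hy1, hy2⟩ := h hfin.toFinset
      exact hy1 (hfin.mem_toFinset.2 hy2)
  rw [this]
  refine MeasurableSet.iInter fun K => MeasurableSet.iUnion fun y => ?_
  by_cases h : y ∈ K
  · simp only [h, not_true, false_and, Set.ofPred_false]
    exact MeasurableSet.empty
  · simp only [h, not_false_iff, true_and]
    exact measurableSet_reach G x y

theorem measurable_sh {V : Type} (g : V ≃ V) : Measurable (sh g : Om V → Om V) :=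
  measurable_pi_lambda _ fun _ => measurable_pi_apply _

theorem measurableSet_coord {V : Type} (x : V) : MeasurableSet {C : V → Prop | C x} :=
  measurableSet_setOfPred.2 (measurable_pi_apply x)

/-- vertices reachable from `x` inside `C` in `n` steps -/
def stp {V : Type} (G : SimpleGraph V) (x : V) : ℕ → V → Set (V → Prop)
  | 0, y => {_C | x = y}
  | n + 1, y => ⋃ z : V, stp G x n z ∩ {C | G.Adj z y ∧ C z ∧ C y}

theorem measurableSet_stp {V : Type} [Countable V] (G : SimpleGraph V) (x : V) (n : ℕ) (y : V) :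
    MeasurableSet (stp G x n y) := by
  induction n generalizing y with
  | zero => exact MeasurableSet.const _
  | succ n ih =>
    refine MeasurableSet.iUnion fun z => (ih z).inter ?_
    exact (MeasurableSet.const _).inter ((measurableSet_coord z).inter (measurableSet_coord y))

theorem measurableSet_rtg {V : Type} [Countable V] (G : SimpleGraph V) (x y : V) :
    MeasurableSet {C : V → Prop |
      Relation.ReflTransGen (fun a b => G.Adj a b ∧ C a ∧ C b) x y} := by
  have : {C : V → Prop | Relation.ReflTransGen (fun a b => G.Adj a b ∧ C a ∧ C b) x y} =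
      ⋃ n : ℕ, stp G x n y := by
    ext C
    rw [Set.mem_iUnion]
    constructor
    · intro h
      have h' : Relation.ReflTransGen (fun a b => G.Adj a b ∧ C a ∧ C b) x y := h
      clear h
      induction h' with
      | refl => exact ⟨0, rfl⟩
      | tail _ hbc ih =>
        obtain ⟨n, hn⟩ := ih
        exact ⟨n + 1, Set.mem_iUnion.2 ⟨_, hn, hbc⟩⟩
    · rintro ⟨n, hn⟩
      induction n generalizing y with
      | zero =>
        have h0 : x = y := hn
        subst h0
        exact Relation.ReflTransGen.refl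
      | succ n ih =>
        obtain ⟨z, hz1, hz2⟩ := Set.mem_iUnion.1 hn
        exact Relation.ReflTransGen.tail (ih z hz1) hz2
  rw [this]
  exact MeasurableSet.iUnion fun n => measurableSet_stp G x n y

/-! ### The density theorem -/

/-- The set of vertices of infinite clusters. -/
def infs {V : Type} (G : SimpleGraph V) (ω : Om V) : V → Prop := fun x => (cl G ω x).Infinite

theorem measurable_infs {V : Type} [Countable V] (G : SimpleGraph V) :
    Measurable (infs G) := by
  refine measurable_pi_lambda _ fun x => ?_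
  refine measurable_to_prop ?_
  have : (fun ω => infs G ω x) ⁻¹' {True} = {ω : Om V | (cl G ω x).Infinite} := by
    ext ω
    simp [infs]
  rw [this]
  exact measurableSet_infinite G x

theorem kernels (hPhi : SpecPhi) (hWalk : SpecWalk) (hMtpc : SpecMtpc)
    (Γ V : Type) [Group Γ] [MulAction Γ V] [Countable V]
    (G : SimpleGraph V) [G.LocallyFinite]
    (haut : ∀ (γ : Γ) (x y : V), G.Adj (γ • x) (γ • y) ↔ G.Adj x y)
    (htr : ∀ x y : V, ∃ γ : Γ, γ • x = y) (hmtp : MTP Γ V)
    (c : ℝ) (hc : 0 < c)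
    (hiso : ∀ K : Finset V, c * (K.card : ℝ) ≤ ∑ x ∈ K, ((G.neighborFinset x \ K).card : ℝ))
    (o : V) :
    ∃ ρ : NNReal, ρ < 1 ∧ ∃ q : ℕ → V → V → NNReal,
      (∀ n x, ∃ B : Finset V, (∀ z, z ∉ B → q n x z = 0) ∧ ∑ z ∈ B, q n x z = 1) ∧
      (∀ x z, q 1 x z ≠ 0 → z = x ∨ G.Adj x z) ∧
      (∀ β : ℝ, 0 ≤ β → tp G β {o} = 0 → ∀ (n : ℕ) (Λ B : Finset V),
        ∑ z ∈ B, (q n o z : ℝ) * T1 G o Λ β z ≤ (ρ : ℝ) ^ n) := by
  have hautP : ∀ γ : Γ, IsAut G (MulAction.toPerm γ) := fun γ x y => haut γ x y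
  have htr' : ∀ x y : V, ∃ g : V ≃ V, IsAut G g ∧ g x = y := fun x y => by
    obtain ⟨γ, hγ⟩ := htr x y
    exact ⟨MulAction.toPerm γ, hautP γ, hγ⟩
  -- regular
  have hreg : ∀ x, (G.neighborFinset x).card = (G.neighborFinset o).card := by
    intro x
    obtain ⟨g, hg, hgx⟩ := htr' o x
    have : G.neighborFinset x = (G.neighborFinset o).map g.toEmbedding := by
      ext y
      have h0 := hg o (g.symm y)
      rw [hgx, g.apply_symm_apply] at h0
      rw [SimpleGraph.mem_neighborFinset, Finset.mem_map_equiv, SimpleGraph.mem_neighborFinset, h0]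
    rw [this, Finset.card_map]
  have hd : 0 < (G.neighborFinset o).card := by
    have h1 := hiso {o}
    rw [Finset.card_singleton, Finset.sum_singleton, Nat.cast_one, mul_one] at h1
    have h2 : 0 < ((G.neighborFinset o \ {o}).card : ℝ) := hc.trans_le h1
    have h3 : 0 < (G.neighborFinset o \ {o}).card := by exact_mod_cast h2
    exact h3.trans_le (Finset.card_le_card Finset.sdiff_subset)
  obtain ⟨ρ, hρ, q, hqinv, hq1, hqK, hq2⟩ := hWalk V G _ hd hreg c hc hiso
  have hA : ∀ β : ℝ, 0 ≤ β → tp G β {o} = 0 → ∀ (n : ℕ) (Λ B : Finset V),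
      ∑ z ∈ B, (q n o z : ℝ) * T1 G o Λ β z ≤ (ρ : ℝ) ^ n := by
    intro β hβ hm n Λ B
    obtain ⟨φ, hφ, hinv, hinf, hfree, -⟩ := hPhi V G β hβ
    have hfin : ∀ x, φ {ω | (cl G ω x).Infinite} = 0 := by
      intro x
      rw [hinf x]
      obtain ⟨g, hg, rfl⟩ := htr' o x
      have h1 := tp_map G hg β {o}
      rw [Finset.map_singleton] at h1
      have h2 : tp G β {g o} = tp G β {o} := h1
      rw [h2, hm, ENNReal.ofReal_zero]
    have h1 := hMtpc Γ V G haut hmtp φ hφ (fun γ => hinv _ (hautP γ)) hfin (q n)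
      (fun γ x y => hqinv n _ (hautP γ) x y) (ρ ^ n) (hqK n) o
    have h2 : ∀ z ∈ B, ENNReal.ofReal ((q n o z : ℝ) * T1 G o Λ β z) ≤
        (q n o z : ENNReal) * φ {ω | (og G ω).Reachable o z} := by
      intro z _
      rw [ENNReal.ofReal_mul (NNReal.coe_nonneg _), ENNReal.ofReal_coe_nnreal]
      refine mul_le_mul_right ?_ _
      unfold T1
      split_ifs with hz
      · subst hz
        have : {ω : Om V | (og G ω).Reachable z z} = Set.univ := by
          ext ω
          simp
        rw [this, measure_univ, ENNReal.ofReal_one]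
      · refine le_trans (ENNReal.ofReal_le_ofReal ?_) (hfree o z fun h => hz h.symm)
        exact le_tf G Finset.subset_union_right
    have h3 : ENNReal.ofReal (∑ z ∈ B, (q n o z : ℝ) * T1 G o Λ β z) ≤ (ρ : ENNReal) ^ n := by
      rw [ENNReal.ofReal_sum_of_nonneg]
      · refine (Finset.sum_le_sum h2).trans ((ENNReal.sum_le_tsum B).trans ?_)
        rw [ENNReal.coe_pow] at h1
        exact h1
      · intro z _
        refine mul_nonneg (NNReal.coe_nonneg _) ?_
        unfold T1
        split_ifs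
        · exact zero_le_one
        · exact Tf_nonneg G hβ _ _
    have h4 : (ρ : ENNReal) ^ n = ENNReal.ofReal ((ρ : ℝ) ^ n) := by
      rw [ENNReal.ofReal_pow (NNReal.coe_nonneg _), ENNReal.ofReal_coe_nnreal]
    rw [h4] at h3
    exact (ENNReal.ofReal_le_ofReal_iff (by positivity)).1 h3
  exact ⟨ρ, hρ, q, hq1, hq2, hA⟩

theorem sparse (hPhi : SpecPhi) (hWalk : SpecWalk) (hMtpc : SpecMtpc)
    (hSec : SpecSecond) (hFar : SpecFar)
    (Γ V : Type) [Group Γ] [MulAction Γ V] [Countable V] [Infinite V]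
    (G : SimpleGraph V) [G.LocallyFinite] (hconn : G.Connected)
    (haut : ∀ (γ : Γ) (x y : V), G.Adj (γ • x) (γ • y) ↔ G.Adj x y)
    (htr : ∀ x y : V, ∃ γ : Γ, γ • x = y) (hmtp : MTP Γ V)
    (c : ℝ) (hc : 0 < c)
    (hiso : ∀ K : Finset V, c * (K.card : ℝ) ≤ ∑ x ∈ K, ((G.neighborFinset x \ K).card : ℝ))
    (o : V) (b : ℝ) (hb : sInf {β : ℝ | 0 ≤ β ∧ 0 < tp G β {o}} < b)
    (heq : ∀ β : ℝ, 0 < β → β < b → ∀ x y : V, x ≠ y → tf G β {x, y} = tp G β {x, y})
    (ε : ℝ) (hε : 0 < ε) :
    ∃ μ : Measure (V → Prop), IsProbabilityMeasure μ ∧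
      (∀ γ : Γ, μ.map (fun C x => C (γ⁻¹ • x)) = μ) ∧
      (∀ᵐ C ∂μ, (∃ x, C x) ∧ ∀ x y, C x → C y →
        Relation.ReflTransGen (fun a b => G.Adj a b ∧ C a ∧ C b) x y) ∧
      ∀ x, μ {C | C x} ≤ ENNReal.ofReal ε := by
  have hautP : ∀ γ : Γ, IsAut G (MulAction.toPerm γ) := fun γ x y => haut γ x y
  have htr' : ∀ x y : V, ∃ g : V ≃ V, IsAut G g ∧ g x = y := fun x y => by
    obtain ⟨γ, hγ⟩ := htr x y
    exact ⟨MulAction.toPerm γ, hautP γ, hγ⟩
  obtain ⟨ρ, hρ, q, hq1, hq2, hA⟩ :=
    kernels hPhi hWalk hMtpc Γ V G haut htr hmtp c hc hiso o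
  obtain ⟨β, hβ, hβb, hm0, hmε⟩ := crit G o htr' b hb heq ρ hρ q hq1 hq2 hA ε hε
  obtain ⟨φ, hφ, hinv, hinf, hfree, hplus⟩ := hPhi V G β hβ.le
  have hm : ∀ x : V, tp G β {x} = tp G β {o} := by
    intro x
    obtain ⟨g, hg, rfl⟩ := htr' o x
    have h1 := tp_map G hg β {o}
    rw [Finset.map_singleton] at h1
    exact h1
  -- uniqueness
  have huniq : ∀ᵐ ω ∂φ, ∀ x y : V, (cl G ω x).Infinite → (cl G ω y).Infinite →
      (og G ω).Reachable x y := by
    rw [ae_all_iff]
    intro x
    rw [ae_all_iff]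
    intro y
    by_cases hxy : x = y
    · subst hxy
      exact ae_of_all _ fun ω _ _ => SimpleGraph.Reachable.refl x
    · have h1 := hfree x y hxy
      have h2 := hplus x y hxy
      rw [heq β hβ hβb x y hxy] at h1
      have h3 : {ω : Om V | (og G ω).Reachable x y} ⊆
          {ω | (og G ω).Reachable x y ∨ ((cl G ω x).Infinite ∧ (cl G ω y).Infinite)} :=
        fun ω h => Or.inl h
      have h4 := ae_eq_of_subset_of_measure_ge h3 (h2.trans h1)
        (measurableSet_reach G x y).nullMeasurableSet (measure_ne_top φ _)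
      filter_upwards [h4] with ω hω hx hy
      have h5 : ω ∈ {ω : Om V | (og G ω).Reachable x y} := by
        rw [Filter.eventuallyEq_set] at h4
        have h6 : ({ω : Om V | (og G ω).Reachable x y} : Set (Om V)) ω =
          ({ω | (og G ω).Reachable x y ∨ ((cl G ω x).Infinite ∧ (cl G ω y).Infinite)} :
            Set (Om V)) ω := hω
        show ({ω : Om V | (og G ω).Reachable x y} : Set (Om V)) ω
        rw [h6]
        exact Or.inr ⟨hx, hy⟩
      exact h5
  -- existence
  have hexist : φ (⋃ x : V, {ω | (cl G ω x).Infinite}) = 1 := by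
    refine hSec (Om V) V φ hφ _ inferInstance (fun x => measurableSet_infinite G x)
      (tp G β {o}) hm0 (fun x => ?_) ?_
    · rw [measureReal_def, hinf x, hm x, ENNReal.toReal_ofReal hm0.le]
    · intro δ hδ N
      obtain ⟨Y, hYc, hY⟩ := hFar V G inferInstance hconn htr' β hβ.le o δ hδ N
      refine ⟨Y, hYc, fun y hy z hz hyz => ?_⟩
      refine le_trans ?_ (hY y hy z hz hyz)
      rw [measureReal_def]
      refine ENNReal.toReal_le_of_le_ofReal (tp_nonneg G hβ.le _) ?_
      exact (measure_mono fun ω hω => Or.inr hω).trans (hplus y z hyz)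
  have hmeas := measurable_infs (V := V) G
  refine ⟨φ.map (infs G), Measure.isProbabilityMeasure_map hmeas.aemeasurable, ?_, ?_, ?_⟩
  · intro γ
    have hshm : Measurable (fun (C : V → Prop) x => C (γ⁻¹ • x)) :=
      measurable_pi_lambda _ fun x => measurable_pi_apply _
    rw [Measure.map_map hshm hmeas]
    have h1 : (fun (C : V → Prop) x => C (γ⁻¹ • x)) ∘ infs G =
        infs G ∘ sh (MulAction.toPerm γ) := by
      funext ω x
      show (cl G ω (γ⁻¹ • x)).Infinite = (cl G (sh (MulAction.toPerm γ) ω) x).Infinite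
      have h2 := infinite_cl_sh (hautP γ) ω (γ⁻¹ • x)
      have h3 : (MulAction.toPerm γ) (γ⁻¹ • x) = x := by
        show γ • γ⁻¹ • x = x
        rw [smul_inv_smul]
      rw [h3] at h2
      exact propext h2.symm
    rw [h1, ← Measure.map_map hmeas (measurable_sh _), hinv _ (hautP γ)]
  · have h1 : ∀ᵐ ω ∂φ, ∃ x, (cl G ω x).Infinite := by
      have h2 := (prob_compl_eq_zero_iff
        (MeasurableSet.iUnion fun x : V => measurableSet_infinite G x)).2 hexist
      rw [ae_iff]
      convert h2 using 2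
      ext ω
      simp
    rw [ae_map_iff hmeas.aemeasurable]
    · filter_upwards [h1, huniq] with ω hω1 hω2
      refine ⟨hω1, fun x y hx hy => ?_⟩
      obtain ⟨w⟩ := hω2 x y hx hy
      clear hω1 hω2 hy
      induction w with
      | nil => exact Relation.ReflTransGen.refl
      | @cons a b c' hab p ih =>
        have hb : (cl G ω b).Infinite := by
          have : cl G ω b = cl G ω a := by
            ext z
            exact ⟨fun h => (SimpleGraph.Adj.reachable hab).trans h,
              fun h => (SimpleGraph.Adj.reachable hab).symm.trans h⟩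
          rw [this]
          exact hx
        exact Relation.ReflTransGen.head ⟨hab.1, hx, hb⟩ (ih hb)
    · refine MeasurableSet.inter ?_ ?_
      · have : {C : V → Prop | ∃ x, C x} = ⋃ x : V, {C : V → Prop | C x} := by
          ext C
          simp
        have h3 : MeasurableSet {C : V → Prop | ∃ x, C x} := by
          rw [this]
          exact MeasurableSet.iUnion fun x => measurableSet_coord x
        exact h3
      · have : {C : V → Prop | ∀ x y, C x → C y →
            Relation.ReflTransGen (fun a b => G.Adj a b ∧ C a ∧ C b) x y} =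
            ⋂ x : V, ⋂ y : V, ({C : V → Prop | C x} ∩ {C : V → Prop | C y})ᶜ ∪
              {C : V → Prop | Relation.ReflTransGen (fun a b => G.Adj a b ∧ C a ∧ C b) x y} := by
          ext C
          simp only [Set.mem_iInter, Set.mem_union, Set.mem_compl_iff, Set.mem_inter_iff]
          constructor
          · intro h x y
            by_cases hxy : C x ∧ C y
            · exact Or.inr (h x y hxy.1 hxy.2)
            · exact Or.inl hxy
          · intro h x y hx hy
            rcases h x y with h1 | h1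
            · exact absurd ⟨hx, hy⟩ h1
            · exact h1
        have h3 : MeasurableSet {C : V → Prop | ∀ x y, C x → C y →
            Relation.ReflTransGen (fun a b => G.Adj a b ∧ C a ∧ C b) x y} := by
          rw [this]
          exact MeasurableSet.iInter fun x => MeasurableSet.iInter fun y =>
            (((measurableSet_coord x).inter (measurableSet_coord y)).compl).union
              (measurableSet_rtg G x y)
        exact h3
  · intro x
    rw [Measure.map_apply hmeas]
    · refine le_trans (le_of_eq (hinf x)) (ENNReal.ofReal_le_ofReal ?_)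
      rw [hm x]
      exact hmε.le
    · exact measurableSet_coord x

end MP8622
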