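import Pool.Agent.Lib.MP_8622f1_pr.Defs

set_option autoImplicit false

open Classical Filter Topology MeasureTheory

/-!
Exact statements of the modules for MP_8622f1_pr.
-/

namespace MP8622

/-- LINK: the correlations of the problem file in terms of `Tf` and `Tp`.
(In the problem `S` is the set of plus spins, in `Tf`, `Tp` it is the set of minus spins:
use the bijection `S ↦ Λ \ S`; the constant `exp (β * number of edges)` cancels.) -/
def SpecLink : Prop :=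
  ∀ (V : Type) (G : SimpleGraph V) [G.LocallyFinite]
    (σ : ℝ → Finset V → Finset V → V → ℝ),
      (∀ (h : ℝ) (Λ S : Finset V) (x : V),
          σ h Λ S x = if x ∈ Λ then (if x ∈ S then (1 : ℝ) else -1) else h) →
    ∀ E : ℝ → Finset V → Finset V → ℝ,
      (∀ (h : ℝ) (Λ S : Finset V),
          E h Λ S = ∑ x ∈ Λ, ∑ y ∈ G.neighborFinset x,
            (if y ∈ Λ then (1 / 2 : ℝ) else 1) * σ h Λ S x * σ h Λ S y) →
    ∀ C : ℝ → ℝ → Finset V → Finset V → ℝ,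
      (∀ (β h : ℝ) (A Λ : Finset V),
          C β h A Λ =
            (∑ S ∈ Λ.powerset, (∏ x ∈ A, σ h Λ S x) * Real.exp (β * E h Λ S)) /
              ∑ S ∈ Λ.powerset, Real.exp (β * E h Λ S)) →
    (∀ (β : ℝ) (A Λ : Finset V), A ⊆ Λ → C β 0 A Λ = Tf G β Λ A) ∧
    (∀ (β : ℝ) (A Λ : Finset V), C β 1 A Λ = Tp G β Λ A) ∧
    (∀ (β : ℝ) (A Λ : Finset V), C β (-1) A Λ = (-1) ^ A.card * Tp G β Λ A)

/-- HOLLEY: comparison of FK measures (four functions theorem). Done by helper54. -/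
def SpecHolley : Prop :=
  ∀ (V : Type) (P P' : Sym2 V → ℝ) (E : Finset (Sym2 V)) (Λ Λ' : Finset V),
    (∀ e, 0 ≤ P e) → (∀ e, P e ≤ P' e) → (∀ e, P' e ≤ 1) → Λ ⊆ Λ' →
    ∀ f : Finset (Sym2 V) → ℝ, (∀ a, 0 ≤ f a) → (∀ a b, a ⊆ b → b ⊆ E → f a ≤ f b) →
      (∑ ω ∈ E.powerset, f ω * fw P E Λ' ω) * (∑ ω ∈ E.powerset, fw P' E Λ ω) ≤
        (∑ ω ∈ E.powerset, fw P E Λ' ω) * (∑ ω ∈ E.powerset, f ω * fw P' E Λ ω)

/-- ES: Edwards-Sokal identity. Done by helper54. -/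
def SpecES : Prop :=
  ∀ (V : Type) (P : Sym2 V → ℝ) (E : Finset (Sym2 V)) (Λ A : Finset V),
    (∑ ω ∈ E.powerset, (if ∀ S ∈ Hs Λ ω, Even (A ∩ S).card then (1 : ℝ) else 0) * fw P E Λ ω) =
      ∑ S ∈ Λ.powerset, chi A S * sw P E S

/-- LIM: existence of limits of probability measures on a countable product of two point
spaces along an ultrafilter (Riesz representation, or Caratheodory and compactness). -/
def SpecLim : Prop :=
  ∀ (I ι : Type) [Countable I] (U : Ultrafilter ι) (μ : ι → Measure (I → Bool)),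
    (∀ i, IsProbabilityMeasure (μ i)) →
    ∃ ν : Measure (I → Bool), IsProbabilityMeasure ν ∧
      ∀ K : Set (I → Bool), IsClopen K → Tendsto (fun i => μ i K) (U : Filter ι) (𝓝 (ν K))

/-- PHI: the infinite volume wired FK measure. -/
def SpecPhi : Prop :=
  ∀ (V : Type) [Countable V] (G : SimpleGraph V) [G.LocallyFinite] (β : ℝ), 0 ≤ β →
    ∃ φ : Measure (Om V), IsProbabilityMeasure φ ∧
      (∀ g : V ≃ V, IsAut G g → φ.map (sh g) = φ) ∧
      (∀ x, φ {ω | (cl G ω x).Infinite} = ENNReal.ofReal (tp G β {x})) ∧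
      (∀ x y, x ≠ y →
        ENNReal.ofReal (tf G β {x, y}) ≤ φ {ω | (og G ω).Reachable x y}) ∧
      (∀ x y, x ≠ y →
        φ {ω | (og G ω).Reachable x y ∨ ((cl G ω x).Infinite ∧ (cl G ω y).Infinite)} ≤
          ENNReal.ofReal (tp G β {x, y}))

/-- WALK: lazy simple random walk kernels on a nonamenable regular graph.
`L = (1 + Adj / d) / 2`, `q n x z = ⟨1_x, L ^ n 1_z⟩`. -/
def SpecWalk : Prop :=
  ∀ (V : Type) (G : SimpleGraph V) [G.LocallyFinite] (d : ℕ), 0 < d →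
    (∀ x, (G.neighborFinset x).card = d) →
    ∀ c : ℝ, 0 < c →
    (∀ K : Finset V, c * (K.card : ℝ) ≤ ∑ x ∈ K, ((G.neighborFinset x \ K).card : ℝ)) →
    ∃ ρ : NNReal, ρ < 1 ∧ ∃ q : ℕ → V → V → NNReal,
      (∀ n (g : V ≃ V), IsAut G g → ∀ x z, q n (g x) (g z) = q n x z) ∧
      (∀ n x, ∃ B : Finset V, (∀ z, z ∉ B → q n x z = 0) ∧ ∑ z ∈ B, q n x z = 1) ∧
      (∀ n (K : Finset V), ∑ x ∈ K, ∑ z ∈ K, q n x z ≤ ρ ^ n * (K.card : NNReal)) ∧
      (∀ x z, q 1 x z ≠ 0 → z = x ∨ G.Adj x z)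

/-- MTPC: mass transport for configurations with finite clusters. -/
def SpecMtpc : Prop :=
  ∀ (Γ V : Type) [Group Γ] [MulAction Γ V] [Countable V] (G : SimpleGraph V),
    (∀ (γ : Γ) (x y : V), G.Adj (γ • x) (γ • y) ↔ G.Adj x y) → MTP Γ V →
    ∀ (φ : Measure (Om V)), IsProbabilityMeasure φ →
      (∀ γ : Γ, φ.map (sh (MulAction.toPerm γ)) = φ) →
      (∀ x, φ {ω | (cl G ω x).Infinite} = 0) →
      ∀ (q : V → V → NNReal), (∀ (γ : Γ) (x y : V), q (γ • x) (γ • y) = q x y) →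
        ∀ R : NNReal, (∀ K : Finset V, ∑ x ∈ K, ∑ z ∈ K, q x z ≤ R * (K.card : NNReal)) →
        ∀ o : V, ∑' z, (q o z : ENNReal) * φ {ω | (og G ω).Reachable o z} ≤ R

/-- SECOND: second moment method. -/
def SpecSecond : Prop :=
  ∀ (Ω V : Type) [MeasurableSpace Ω] (μ : Measure Ω), IsProbabilityMeasure μ →
    ∀ (A : V → Set Ω), Countable V → (∀ y, MeasurableSet (A y)) →
    ∀ m : ℝ, 0 < m → (∀ y, μ.real (A y) = m) →
    (∀ δ : ℝ, 0 < δ → ∀ N : ℕ, ∃ Y : Finset V, Y.card = N ∧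
      ∀ y ∈ Y, ∀ z ∈ Y, y ≠ z → μ.real (A y ∩ A z) ≤ m ^ 2 + δ) →
    μ (⋃ y, A y) = 1

/-- FAR: many vertices with almost uncorrelated spins (plus boundary condition). -/
def SpecFar : Prop :=
  ∀ (V : Type) (G : SimpleGraph V) [G.LocallyFinite], Infinite V → G.Connected →
    (∀ x y : V, ∃ g : V ≃ V, IsAut G g ∧ g x = y) →
    ∀ β : ℝ, 0 ≤ β → ∀ (o : V) (δ : ℝ), 0 < δ → ∀ N : ℕ,
      ∃ Y : Finset V, Y.card = N ∧
        ∀ y ∈ Y, ∀ z ∈ Y, y ≠ z → tp G β {y, z} ≤ tp G β {o} ^ 2 + δ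

/-- COST: from a sparse invariant random connected set to an invariant random connected graph
of expected degree close to two. -/
def SpecCost : Prop :=
  ∀ (Γ : Type) [Group Γ] [Countable Γ] (S : Finset Γ), (1 : Γ) ∉ S → (∀ s ∈ S, s⁻¹ ∈ S) →
   ∀ (G : SimpleGraph Γ), (∀ x y, G.Adj x y ↔ x⁻¹ * y ∈ S) → G.Connected →
   ∀ (μ : Measure (Γ → Prop)), IsProbabilityMeasure μ →
     (∀ γ : Γ, μ.map (fun C x => C (γ⁻¹ * x)) = μ) →
     (∀ᵐ C ∂μ, (∃ x, C x) ∧ ∀ x y, C x → C y →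
        Relation.ReflTransGen (fun a b => G.Adj a b ∧ C a ∧ C b) x y) →
     ∃ ν : Measure (Γ → Γ → Prop), IsProbabilityMeasure ν ∧
       (∀ γ : Γ, ν.map (fun r x y => r (γ⁻¹ * x) (γ⁻¹ * y)) = ν) ∧
       (∀ᵐ r ∂ν, (SimpleGraph.fromRel r).Connected) ∧
       ∑' g, ν {r | (SimpleGraph.fromRel r).Adj 1 g} ≤ 2 + (S.card : ENNReal) * μ {C | C 1}

end MP8622
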