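import Pool.Agent.Lib.MP_8622f1_pr.Defs

set_option autoImplicit false

open Classical Filter Topology MeasureTheory

/-!
Two more modules for MP_8622f1_pr: the version for groups acting transitively on `V`.
-/

namespace MP8622

/-- UNI: the mass transport principle for a transitive action which is unimodular in the sense
of the orbits of the point stabilisers.
(Sum over the orbits of `Γ` on `V × V`: `∑ z, f o z` is the sum over orbits `Ω` of
`card {z | (o, z) ∈ Ω}` times the value of `f` on `Ω`, and `{z | (o, z) ∈ Ω}` is an orbit of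
`stabilizer o`, `{z | (z, o) ∈ Ω}` has the cardinality of an orbit `stabilizer w • o`.) -/
def SpecUni : Prop :=
  ∀ (Γ V : Type) [Group Γ] [MulAction Γ V], (∀ x y : V, ∃ γ : Γ, γ • x = y) →
    (∀ x y : V, (MulAction.orbit (MulAction.stabilizer Γ x) y).Finite) →
    (∀ x y : V, (MulAction.orbit (MulAction.stabilizer Γ x) y).ncard =
      (MulAction.orbit (MulAction.stabilizer Γ y) x).ncard) → MTP Γ V

/-- ORB: orbits of point stabilisers are finite for a group of automorphisms of a connected
locally finite graph (they lie in spheres, balls are finite); and `V` is countable. -/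
def SpecOrb : Prop :=
  ∀ (Γ V : Type) [Group Γ] [MulAction Γ V] (G : SimpleGraph V) [G.LocallyFinite], G.Connected →
    (∀ (γ : Γ) (x y : V), G.Adj (γ • x) (γ • y) ↔ G.Adj x y) →
    Countable V ∧ ∀ x y : V, (MulAction.orbit (MulAction.stabilizer Γ x) y).Finite

/-- COSTG: version of COST for a group acting on `V`; ties are broken by independent uniform
labels of the vertices (`Measure.infinitePi` or `Measure.productMeasure` on `V → ℝ`, invariant
under permutations of `V`): a vertex outside `C` is joined to the neighbour closer to `C` which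
has the smallest label. -/
def SpecCostG : Prop :=
  ∀ (Γ V : Type) [Group Γ] [MulAction Γ V] [Countable V] (G : SimpleGraph V) [G.LocallyFinite],
    (∀ (γ : Γ) (x y : V), G.Adj (γ • x) (γ • y) ↔ G.Adj x y) → MTP Γ V → G.Connected →
    ∀ (μ : Measure (V → Prop)), IsProbabilityMeasure μ →
      (∀ γ : Γ, μ.map (fun C x => C (γ⁻¹ • x)) = μ) →
      (∀ᵐ C ∂μ, (∃ x, C x) ∧ ∀ x y, C x → C y →
        Relation.ReflTransGen (fun a b => G.Adj a b ∧ C a ∧ C b) x y) →
      ∃ ν : Measure (V → V → Prop), IsProbabilityMeasure ν ∧
        (∀ γ : Γ, ν.map (fun r x y => r (γ⁻¹ • x) (γ⁻¹ • y)) = ν) ∧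
        (∀ᵐ r ∂ν, (SimpleGraph.fromRel r).Connected) ∧
        ∀ o : V, ∑' g, ν {r | (SimpleGraph.fromRel r).Adj o g} ≤
          2 + ((G.neighborFinset o).card : ENNReal) * μ {C | C o}

end MP8622
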