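import Pool.Agent.Lib.MP_8622f1_pr.Mtpc
import Pool.Agent.Lib.AHP.Defs

set_option autoImplicit false

open Classical Filter Topology MeasureTheory

/-!
Exact statements of the modules of the Ising and sharpness part of the joint project on
Ising and percolation on acylindrically hyperbolic groups.
Text: MP_8622f1_pr_ISING.md in the team store.
-/

namespace MP8622

/-- FK weight with the cluster factor to the power `θ` (`θ = 0`: Bernoulli percolation,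
`θ = 1`: FK-Ising). -/
noncomputable def fwt {V : Type} (θ : ℕ) (P : Sym2 V → ℝ) (E : Finset (Sym2 V)) (Λ : Finset V)
    (ω : Finset (Sym2 V)) : ℝ :=
  (∏ e ∈ ω, P e) * (∏ e ∈ E \ ω, (1 - P e)) * ((Hs Λ ω).card : ℝ) ^ θ

/-- expectation for the weights `fwt` -/
noncomputable def pt {V : Type} (θ : ℕ) (P : Sym2 V → ℝ) (E : Finset (Sym2 V)) (Λ : Finset V)
    (f : Finset (Sym2 V) → ℝ) : ℝ :=
  (∑ ω ∈ E.powerset, f ω * fwt θ P E Λ ω) / ∑ ω ∈ E.powerset, fwt θ P E Λ ω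

/-- the edges of `E` inside `S` -/
noncomputable def ein {V : Type} (E : Finset (Sym2 V)) (S : Finset V) : Finset (Sym2 V) :=
  E.filter (fun e => ∀ z ∈ e, z ∈ S)

/-- number of edges of `E` from `u` to the outside of `S` -/
noncomputable def nout {V : Type} (E : Finset (Sym2 V)) (S : Finset V) (u : V) : ℕ :=
  (E.filter (fun e => u ∈ e ∧ ¬ ∀ z ∈ e, z ∈ S)).card

/-- `∑_{u ∈ S} P_S(x ↔ u) * (number of edges from u to the outside of S)` -/
noncomputable def psi {V : Type} (θ : ℕ) (P : Sym2 V → ℝ) (E : Finset (Sym2 V)) (S : Finset V)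
    (x : V) : ℝ :=
  ∑ u ∈ S, pt θ P (ein E S) S (ind S (symmDiff {x} {u})) * (nout E S u : ℝ)

/-- SL: Simon-Lieb inequality (`t = P / (2 - P) = tanh β`). Induction on `E.card`: remove an edge
`e ∋ x`. -/
def SpecSL : Prop :=
  ∀ (V : Type) (P : Sym2 V → ℝ) (E : Finset (Sym2 V)) (Λ S A : Finset V) (x : V),
    (∀ e, 0 ≤ P e) → (∀ e, P e ≤ 1) → (∀ e ∈ E, ¬ e.IsDiag) → S ⊆ Λ → x ∈ S → Disjoint A S →
    ∀ W : Finset V, (∀ e ∈ E, ∀ z ∈ e, z ∈ W) →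
      corr P E Λ (symmDiff {x} A) ≤ ∑ u ∈ S, ∑ v ∈ W \ S, if s(u, v) ∈ E then
        P s(u, v) / (2 - P s(u, v)) * corr P (ein E S) S (symmDiff {x} {u}) *
          corr P E Λ (symmDiff {v} A) else 0

/-- COV: covariance of an increasing event `f` with the event that `e` is open. -/
def SpecCov : Prop :=
  ∀ (θ : ℕ), θ ≤ 1 → ∀ (V : Type) (P : Sym2 V → ℝ) (E : Finset (Sym2 V)) (Λ : Finset V),
    (∀ e, 0 ≤ P e) → (∀ e, P e ≤ 1) →
    ∀ (F : Finset (Sym2 V) → Prop), (∀ a b, a ⊆ b → b ⊆ E → F a → F b) → ∀ e ∈ E,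
      P e / 2 * pt θ P E Λ (fun ω => if ¬ F ω ∧ F (insert e ω) then 1 else 0) ≤
        pt θ P E Λ (fun ω => if F ω ∧ e ∈ ω then 1 else 0) -
          pt θ P E Λ (fun ω => if F ω then 1 else 0) * pt θ P E Λ (fun ω => if e ∈ ω then 1 else 0)

/-- DMP: domain Markov property; sum over closed pivotal edges for the event that `x` is
connected to the outside of `Λ`. -/
def SpecDmp : Prop :=
  ∀ (θ : ℕ) (V : Type) (P : Sym2 V → ℝ) (E : Finset (Sym2 V)) (Λ : Finset V) (x : V),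
    (∀ e, 0 ≤ P e) → (∀ e, P e < 1) → (∀ e ∈ E, ¬ e.IsDiag) → x ∈ Λ → ∀ c : ℝ,
    (∀ S ⊆ Λ, x ∈ S → c ≤ psi θ P E S x) →
      c * (1 - pt θ P E Λ (ind Λ {x})) ≤
        ∑ e ∈ E, pt θ P E Λ (fun ω => if ind Λ {x} ω = 0 ∧ ind Λ {x} (insert e ω) = 1 then 1
          else 0)

/-- SHP: sharpness in finite volume. From COV and DMP by differentiation. -/
def SpecShp : Prop :=
  ∀ (θ : ℕ), θ ≤ 1 → ∀ (V : Type) (E : Finset (Sym2 V)) (Λ : Finset V) (x : V),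
    (∀ e ∈ E, ¬ e.IsDiag) → x ∈ Λ → ∀ b : ℝ, 0 ≤ b →
    (∀ β : ℝ, b < β → ∀ S ⊆ Λ, x ∈ S → 1 ≤ psi θ (fun _ => pr β) E S x) →
    ∀ β : ℝ, b ≤ β → 1 - Real.exp (-(β - b)) ≤ pt θ (fun _ => pr β) E Λ (ind Λ {x})

/-- finite volume two point function of the Ising model, free boundary condition,
opening probability `p` (`p = 1 - exp (-2 β)`) -/
noncomputable def tau {V : Type} (G : SimpleGraph V) [G.LocallyFinite] (p : ℝ) (Λ : Finset V)
    (x y : V) : ℝ :=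
  if x ∈ Λ ∧ y ∈ Λ then corr (fun _ => p) (ed0 G Λ) Λ (symmDiff {x} {y}) else 0

/-- ISF: the Ising model gives a family of two point functions (`Fam`). Uses SL. -/
def SpecISF : Prop :=
  ∀ (Γ : Type) [Group Γ] (A : Finset Γ), (1 : Γ) ∉ A → (∀ a ∈ A, a⁻¹ ∈ A) →
    Subgroup.closure (A : Set Γ) = ⊤ →
    ∀ (G : SimpleGraph Γ) [G.LocallyFinite], (∀ x y, G.Adj x y ↔ x⁻¹ * y ∈ A) →
      AHP.Fam A (fun p => p / (2 - p)) (tau G)

/-- ISP: the plus state on both sides of the critical point. Uses SL and SHP. -/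
def SpecISP : Prop :=
  ∀ (Γ : Type) [Group Γ] (A : Finset Γ), (1 : Γ) ∉ A → (∀ a ∈ A, a⁻¹ ∈ A) →
    ∀ (G : SimpleGraph Γ) [G.LocallyFinite], (∀ x y, G.Adj x y ↔ x⁻¹ * y ∈ A) →
      (∀ β : ℝ, 0 ≤ β → (∃ S : Finset Γ, (1 : Γ) ∈ S ∧
        AHP.phi A (fun p => p / (2 - p)) (tau G) (pr β) S < 1) → tp G β {1} = 0) ∧
      (∀ b : ℝ, 0 ≤ b → (∀ β : ℝ, b ≤ β → ∀ S : Finset Γ, (1 : Γ) ∈ S →
        1 ≤ AHP.phi A (fun p => p / (2 - p)) (tau G) (pr β) S) →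
        ∀ β : ℝ, b ≤ β → 1 - Real.exp (-(β - b)) ≤ tp G β {1})

end MP8622
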