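import Pool.Agent.Lib.MP_8622f1_pr.Spec2

set_option autoImplicit false

open Classical Filter Topology MeasureTheory
open scoped ENNReal

/-!
MP_8622f1_pr, modules UNI and ORB (helper42): the mass transport principle for a unimodular
transitive action, finiteness of the orbits of the point stabilisers.
-/

namespace MP8622
namespace Uni

variable {Γ V : Type} [Group Γ] [MulAction Γ V]

/-- the orbit of `o` under the group elements moving `z` to `o` -/
def A (Γ : Type) {V : Type} [Group Γ] [MulAction Γ V] (o z : V) : Set V :=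
  {w | ∃ γ : Γ, γ • z = o ∧ γ • o = w}

lemma mem_A_symm (o z w : V) : w ∈ A Γ o z ↔ z ∈ A Γ o w := by
  constructor
  · rintro ⟨γ, h1, h2⟩
    exact ⟨γ⁻¹, by rw [← h2, inv_smul_smul], by rw [← h1, inv_smul_smul]⟩
  · rintro ⟨γ, h1, h2⟩
    exact ⟨γ⁻¹, by rw [← h2, inv_smul_smul], by rw [← h1, inv_smul_smul]⟩

lemma A_eq (o z : V) (g : Γ) (hg : g • z = o) :
    A Γ o z = (fun v => g • v) '' MulAction.orbit (MulAction.stabilizer Γ z) o := by
  ext w
  constructor
  · rintro ⟨γ, h1, h2⟩
    refine ⟨g⁻¹ • w, ?_, by simp⟩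
    refine ⟨⟨g⁻¹ * γ, ?_⟩, ?_⟩
    · rw [MulAction.mem_stabilizer_iff, mul_smul, h1, ← hg, inv_smul_smul]
    · show (g⁻¹ * γ) • o = g⁻¹ • w
      rw [mul_smul, h2]
  · rintro ⟨v, ⟨⟨s, hs⟩, hv⟩, rfl⟩
    rw [MulAction.mem_stabilizer_iff] at hs
    have hv' : s • o = v := hv
    refine ⟨g * s, ?_, ?_⟩
    · rw [mul_smul, hs, hg]
    · rw [mul_smul, hv']

lemma orbit_smul (γ : Γ) (x y : V) :
    MulAction.orbit (MulAction.stabilizer Γ (γ • x)) (γ • y) =
      (fun v => γ • v) '' MulAction.orbit (MulAction.stabilizer Γ x) y := by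
  ext w
  constructor
  · rintro ⟨⟨s, hs⟩, h⟩
    rw [MulAction.mem_stabilizer_iff] at hs
    have h' : s • γ • y = w := h
    refine ⟨γ⁻¹ • w, ⟨⟨γ⁻¹ * s * γ, ?_⟩, ?_⟩, by simp⟩
    · rw [MulAction.mem_stabilizer_iff, mul_smul, mul_smul, hs, inv_smul_smul]
    · show (γ⁻¹ * s * γ) • y = γ⁻¹ • w
      rw [mul_smul, mul_smul, h']
  · rintro ⟨v, ⟨⟨s, hs⟩, h⟩, rfl⟩
    rw [MulAction.mem_stabilizer_iff] at hs
    have h' : s • y = v := h
    refine ⟨⟨γ * s * γ⁻¹, ?_⟩, ?_⟩
    · rw [MulAction.mem_stabilizer_iff, mul_smul, mul_smul, inv_smul_smul, hs]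
    · show (γ * s * γ⁻¹) • γ • y = γ • v
      rw [mul_smul, mul_smul, inv_smul_smul, h']

lemma ncard_image (γ : Γ) (S : Set V) : ((fun v => γ • v) '' S).ncard = S.ncard :=
  Set.ncard_image_of_injective _ (MulAction.injective γ)

lemma tsum_ite_mem (S : Set V) (hS : S.Finite) (c : ℝ≥0∞) :
    ∑' w, (if w ∈ S then c else 0) = (S.ncard : ℝ≥0∞) * c := by
  rw [tsum_eq_sum (s := hS.toFinset) (by intro w hw; rw [if_neg]; simpa using hw)]
  rw [Finset.sum_congr rfl (g := fun _ => c) (by intro w hw; rw [if_pos]; simpa using hw)]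
  rw [Finset.sum_const, nsmul_eq_mul, Set.ncard_eq_toFinset_card S hS]

end Uni

open Uni in
theorem specUni : SpecUni := by
  intro Γ V _ _ htr hfin huni f hf o
  have hAf : ∀ z : V, (A Γ o z).Finite := by
    intro z
    obtain ⟨g, hg⟩ := htr z o
    rw [A_eq o z g hg]
    exact (hfin z o).image _
  have hAc : ∀ z : V, (A Γ o z).ncard =
      (MulAction.orbit (MulAction.stabilizer Γ z) o).ncard := by
    intro z
    obtain ⟨g, hg⟩ := htr z o
    rw [A_eq o z g hg, ncard_image]
  have hne : ∀ z : V, (A Γ o z).ncard ≠ 0 := by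
    intro z h
    rw [Set.ncard_eq_zero (hAf z)] at h
    obtain ⟨g, hg⟩ := htr z o
    have : g • o ∈ A Γ o z := ⟨g, hg, rfl⟩
    rw [h] at this
    exact this
  have hAA : ∀ z w : V, w ∈ A Γ o z → (A Γ o z).ncard = (A Γ o w).ncard := by
    rintro z w ⟨γ, h1, h2⟩
    rw [hAc, hAc, huni z o]
    have h3 := orbit_smul γ o z
    rw [h1, h2] at h3
    rw [h3, ncard_image]
  have hff : ∀ z w : V, w ∈ A Γ o z → f z o = f o w := by
    rintro z w ⟨γ, h1, h2⟩
    rw [← hf γ z o, h1, h2]
  have key : ∀ (S : Set V) (c : ℝ≥0∞), S.Finite → S.ncard ≠ 0 →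
      ∑' w, (if w ∈ S then c / (S.ncard : ℝ≥0∞) else 0) = c := by
    intro S c hS h0
    rw [tsum_ite_mem S hS, ENNReal.mul_div_cancel]
    · exact_mod_cast h0
    · exact ENNReal.natCast_ne_top _
  symm
  calc ∑' z, f z o = ∑' z, ∑' w, (if w ∈ A Γ o z then f z o / ((A Γ o z).ncard : ℝ≥0∞) else 0) := by
        apply tsum_congr
        intro z
        rw [key _ _ (hAf z) (hne z)]
    _ = ∑' w, ∑' z, (if w ∈ A Γ o z then f z o / ((A Γ o z).ncard : ℝ≥0∞) else 0) :=
        ENNReal.tsum_comm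
    _ = ∑' w, ∑' z, (if z ∈ A Γ o w then f o w / ((A Γ o w).ncard : ℝ≥0∞) else 0) := by
        apply tsum_congr
        intro w
        apply tsum_congr
        intro z
        by_cases h : w ∈ A Γ o z
        · rw [if_pos h, if_pos ((mem_A_symm o z w).1 h), hff z w h, hAA z w h]
        · rw [if_neg h, if_neg (fun h' => h ((mem_A_symm o z w).2 h'))]
    _ = ∑' w, f o w := by
        apply tsum_congr
        intro w
        rw [key _ _ (hAf w) (hne w)]

namespace Uni

/-- end points of the walks of length `n` from `x` -/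
lemma finite_walk {V : Type} (G : SimpleGraph V) [G.LocallyFinite] (n : ℕ) : ∀ x : V,
    {y | ∃ p : G.Walk x y, p.length = n}.Finite := by
  induction n with
  | zero =>
    intro x
    apply (Set.finite_singleton x).subset
    rintro y ⟨p, hp⟩
    rw [Set.mem_singleton_iff]
    exact (SimpleGraph.Walk.eq_of_length_eq_zero hp).symm
  | succ n ih =>
    intro x
    have : {y | ∃ p : G.Walk x y, p.length = n + 1} ⊆
        ⋃ z ∈ (G.neighborFinset x : Set V), {y | ∃ p : G.Walk z y, p.length = n} := by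
      rintro y ⟨p, hp⟩
      cases p with
      | nil => simp at hp
      | @cons _ z _ h q =>
        simp only [Set.mem_iUnion]
        exact ⟨z, by simpa using h, q, by simpa using hp⟩
    exact ((G.neighborFinset x).finite_toSet.biUnion (fun z _ => ih z)).subset this

end Uni

open Uni in
theorem specOrb : SpecOrb := by
  intro Γ V _ _ G _ hconn hG
  constructor
  · obtain ⟨o⟩ := hconn.nonempty
    have h1 : (Set.univ : Set V) ⊆ ⋃ n : ℕ, {y | ∃ p : G.Walk o y, p.length = n} := by
      intro y _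
      obtain ⟨p⟩ := hconn.preconnected o y
      exact Set.mem_iUnion.2 ⟨p.length, p, rfl⟩
    have h2 : (⋃ n : ℕ, {y | ∃ p : G.Walk o y, p.length = n}).Countable :=
      Set.countable_iUnion (fun n => (finite_walk G n o).countable)
    exact Set.countable_univ_iff.1 (h2.mono h1)
  · intro x y
    obtain ⟨p⟩ := hconn.preconnected x y
    apply (finite_walk G p.length x).subset
    rintro w ⟨⟨s, hs⟩, h⟩
    rw [MulAction.mem_stabilizer_iff] at hs
    have h' : s • y = w := h
    let e : G →g G := ⟨fun v => s • v, fun {a b} hab => (hG s a b).2 hab⟩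
    refine ⟨(p.map e).copy hs h', ?_⟩
    rw [SimpleGraph.Walk.length_copy, SimpleGraph.Walk.length_map]

end MP8622
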